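import Pool.Agent.Helper89G.Frac

/-! Near coincidences between ratios of integers with few and large prime factors. -/

open Finset

namespace Helper89G

variable {ι : Type*}

/-- families of pairs of coprime squarefree integers with few prime factors, all of them large -/
structure Fam (S : Finset ι) (x y : ι → ℕ) (e : ι → ℝ) (B0 : ℕ) (K w Y : ℝ) : Prop where
  sqx : ∀ i ∈ S, Squarefree (x i)
  sqy : ∀ i ∈ S, Squarefree (y i)
  bigx : ∀ i ∈ S, ∀ p : ℕ, p.Prime → p ∣ x i → w ≤ p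
  bigy : ∀ i ∈ S, ∀ p : ℕ, p.Prime → p ∣ y i → w ≤ p
  omx : ∀ i ∈ S, (x i).primeFactors.card ≤ B0
  omy : ∀ i ∈ S, (y i).primeFactors.card ≤ B0
  inj : ∀ i ∈ S, ∀ j ∈ S, x i = x j → y i = y j → i = j
  cop : ∀ i ∈ S, Nat.Coprime (x i) (y i)
  lex : ∀ i ∈ S, (x i : ℝ) ≤ Y
  ley : ∀ i ∈ S, (y i : ℝ) ≤ Y
  co : ∀ i ∈ S, |e i| ≤ K / Real.sqrt ((x i : ℝ) * y i)
  dg : ∑ i ∈ S, e i ^ 2 ≤ K

variable {S : Finset ι} {x y : ι → ℕ} {e : ι → ℝ} {B0 : ℕ} {K w Y : ℝ}

namespace Fam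

lemma x0 (h : Fam S x y e B0 K w Y) {i : ι} (hi : i ∈ S) : 1 ≤ x i :=
  Nat.one_le_iff_ne_zero.mpr (h.sqx i hi).ne_zero

lemma y0 (h : Fam S x y e B0 K w Y) {i : ι} (hi : i ∈ S) : 1 ≤ y i :=
  Nat.one_le_iff_ne_zero.mpr (h.sqy i hi).ne_zero

/-- exceptional coincidences -/
lemma exc (h : Fam S x y e B0 K w Y) {i j : ι} (hi : i ∈ S) (hj : j ∈ S) {n m : ℕ}
    (hn : n = 1 ∨ IsPrimePow n) (hm : 2 ≤ m) (hmw : (m : ℝ) < w)
    (heq : n * (y i * x j) = m * (x i * y j)) : n = m ∧ i = j := by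
  have hsmall : ∀ p : ℕ, p.Prime → p ≤ m → ¬ p ∣ x i * y j := by
    intro p hp hpm hd
    have : w ≤ p := by
      rcases (hp.dvd_mul).1 hd with h1 | h1
      · exact h.bigx i hi p hp h1
      · exact h.bigy j hj p hp h1
    have h2 : (p : ℝ) ≤ m := by exact_mod_cast hpm
    linarith
  have hsmall' : ∀ p : ℕ, p.Prime → p ≤ m → ¬ p ∣ y i * x j := by
    intro p hp hpm hd
    have : w ≤ p := by
      rcases (hp.dvd_mul).1 hd with h1 | h1
      · exact h.bigy i hi p hp h1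
      · exact h.bigx j hj p hp h1
    have h2 : (p : ℝ) ≤ m := by exact_mod_cast hpm
    linarith
  have hcop : Nat.Coprime m (y i * x j) := by
    apply Nat.Coprime.symm
    apply Nat.Coprime.symm
    apply Nat.coprime_of_dvd
    intro p hp h1 h2
    exact hsmall' p hp (Nat.le_of_dvd (by omega) h1) h2
  have hmn : m ∣ n := by
    apply hcop.dvd_of_dvd_mul_right
    rw [heq]
    exact dvd_mul_right _ _
  rcases hn with rfl | hn
  · have := Nat.le_of_dvd one_pos hmn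
    omega
  obtain ⟨n1, rfl⟩ := hmn
  obtain ⟨p, k, hp, hk, hpk⟩ := (isPrimePow_nat_iff _).1 hn
  have hpm : p ∣ m := by
    obtain ⟨a, -, ha⟩ := (Nat.dvd_prime_pow hp).1 (hpk ▸ dvd_mul_right m n1 : m ∣ p ^ k)
    have ha0 : a ≠ 0 := by
      rintro rfl
      rw [pow_zero] at ha
      omega
    rw [ha]
    exact dvd_pow_self p ha0
  have hple : p ≤ m := Nat.le_of_dvd (by omega) hpm
  have heq2 : n1 * (y i * x j) = x i * y j := by
    apply Nat.eq_of_mul_eq_mul_left (by omega : 0 < m)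
    rw [← heq, mul_assoc]
  have hn1 : n1 = 1 := by
    obtain ⟨a, -, ha⟩ := (Nat.dvd_prime_pow hp).1 (hpk ▸ dvd_mul_left n1 m : n1 ∣ p ^ k)
    by_contra hne
    have ha0 : a ≠ 0 := by
      rintro rfl
      rw [pow_zero] at ha
      exact hne ha
    have hpn : p ∣ n1 := by
      rw [ha]
      exact dvd_pow_self p ha0
    apply hsmall p hp hple
    rw [← heq2]
    exact dvd_mul_of_dvd_left hpn _
  refine ⟨by rw [hn1, mul_one], ?_⟩
  rw [hn1, one_mul] at heq2
  have d1 : x i ∣ x j := by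
    apply (h.cop i hi).dvd_of_dvd_mul_left
    rw [heq2]
    exact dvd_mul_right _ _
  have d2 : x j ∣ x i := by
    apply (h.cop j hj).dvd_of_dvd_mul_right
    rw [← heq2]
    exact dvd_mul_left _ _
  have hx : x i = x j := Nat.dvd_antisymm d1 d2
  apply h.inj i hi j hj hx
  apply Nat.eq_of_mul_eq_mul_left (Nat.lt_of_lt_of_le one_pos (h.x0 hi))
  rw [← heq2, ← hx, mul_comm]

/-- in all other coincidences the reduced fraction is large -/
lemma nexc (h : Fam S x y e B0 K w Y) {i j : ι} (hi : i ∈ S) (hj : j ∈ S) {b : ℕ}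
    (hd : ¬ (x i * y j ∣ b)) : w ≤ ((x i * y j / Nat.gcd (x i * y j) b : ℕ) : ℝ) := by
  set a := x i * y j with ha
  have ha0 : 0 < a := Nat.mul_pos (h.x0 hi) (h.y0 hj)
  have hg0 : 0 < Nat.gcd a b := Nat.gcd_pos_of_pos_left _ ha0
  have h1 : a / Nat.gcd a b ≠ 1 := by
    intro h1
    apply hd
    have h2 := Nat.div_mul_cancel (Nat.gcd_dvd_left a b)
    rw [h1, one_mul] at h2
    rw [← h2]
    exact Nat.gcd_dvd_right a b
  obtain ⟨p, hp, hpd⟩ := Nat.exists_prime_and_dvd h1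
  have hpa : p ∣ a := hpd.trans (Nat.div_dvd_of_dvd (Nat.gcd_dvd_left a b))
  have hpw : w ≤ p := by
    rcases (hp.dvd_mul).1 hpa with h2 | h2
    · exact h.bigx i hi p hp h2
    · exact h.bigy j hj p hp h2
  have hle : p ≤ a / Nat.gcd a b :=
    Nat.le_of_dvd (Nat.div_pos (Nat.gcd_le_left _ ha0) hg0) hpd
  exact hpw.trans (by exact_mod_cast hle)

/-- the number of representations -/
lemma fiber [DecidableEq ι] (h : Fam S x y e B0 K w Y) (Tr : Finset (ℕ × ι × ι))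
    (hTr : ∀ t ∈ Tr, (t.1 = 1 ∨ IsPrimePow t.1) ∧ t.2.1 ∈ S ∧ t.2.2 ∈ S) (f : ℕ × ℕ → ℝ)
    (hf : ∀ z, 0 ≤ f z) :
    ∑ t ∈ Tr, f (x t.2.1 * y t.2.2, t.1 * (y t.2.1 * x t.2.2)) ≤
      2 ^ (8 * B0 + 2) * ∑ z ∈ Tr.image (fun t => (x t.2.1 * y t.2.2, t.1 * (y t.2.1 * x t.2.2))),
        f z := by
  classical
  set φ : ℕ × ι × ι → ℕ × ℕ := fun t => (x t.2.1 * y t.2.2, t.1 * (y t.2.1 * x t.2.2)) with hφ
  have h0 : ∑ t ∈ Tr, f (φ t) = ∑ z ∈ Tr.image φ, ∑ t ∈ Tr.filter (fun t => φ t = z), f (φ t) :=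
    (Finset.sum_fiberwise_of_maps_to (fun t ht => Finset.mem_image_of_mem φ ht) _).symm
  change ∑ t ∈ Tr, f (φ t) ≤ 2 ^ (8 * B0 + 2) * ∑ z ∈ Tr.image φ, f z
  rw [h0, Finset.mul_sum]
  refine Finset.sum_le_sum fun z hz => ?_
  have h1 : ∑ t ∈ Tr.filter (fun t => φ t = z), f (φ t) =
      ((Tr.filter (fun t => φ t = z)).card : ℝ) * f z := by
    rw [Finset.sum_congr rfl (g := fun _ => f z) (fun t ht => by
      rw [(Finset.mem_filter.1 ht).2]), Finset.sum_const, nsmul_eq_mul]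
  rw [h1]
  apply mul_le_mul_of_nonneg_right _ (hf z)
  -- the fibre injects into a product of power sets
  set ψ : ℕ × ι × ι → (Finset ℕ × Finset ℕ) × (Finset ℕ × Finset ℕ) := fun t =>
    (((x t.2.1).primeFactors, (y t.2.2).primeFactors),
      ((y t.2.1).primeFactors, (x t.2.2).primeFactors)) with hψ
  obtain ⟨t0, ht0, ht0z⟩ := Finset.mem_image.1 hz
  obtain ⟨p1, p2, p3⟩ := hTr t0 ht0
  have hn0 : t0.1 ≠ 0 := by
    rcases p1 with p1 | p1
    · omega
    · exact p1.ne_zero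
  have hz1 : z.1 = x t0.2.1 * y t0.2.2 := by rw [← ht0z]
  have hz2 : z.2 = t0.1 * (y t0.2.1 * x t0.2.2) := by rw [← ht0z]
  have c1 : z.1.primeFactors.card ≤ 2 * B0 := by
    rw [hz1, Nat.primeFactors_mul (by have := h.x0 p2; omega) (by have := h.y0 p3; omega)]
    have := Finset.card_union_le (x t0.2.1).primeFactors (y t0.2.2).primeFactors
    have := h.omx _ p2
    have := h.omy _ p3
    omega
  have c2 : z.2.primeFactors.card ≤ 2 * B0 + 1 := by
    have hyx : y t0.2.1 * x t0.2.2 ≠ 0 := by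
      have := h.y0 p2
      have := h.x0 p3
      exact Nat.mul_ne_zero (by omega) (by omega)
    rw [hz2, Nat.primeFactors_mul hn0 hyx,
      Nat.primeFactors_mul (by have := h.y0 p2; omega) (by have := h.x0 p3; omega)]
    have a1 := Finset.card_union_le t0.1.primeFactors
      ((y t0.2.1).primeFactors ∪ (x t0.2.2).primeFactors)
    have a2 := Finset.card_union_le (y t0.2.1).primeFactors (x t0.2.2).primeFactors
    have a3 := h.omy _ p2
    have a4 := h.omx _ p3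
    have a5 : t0.1.primeFactors.card ≤ 1 := by
      rcases p1 with p1 | p1
      · rw [p1]; simp
      · obtain ⟨p, k, hp, hk, hpk⟩ := (isPrimePow_nat_iff _).1 p1
        rw [← hpk, Nat.primeFactors_prime_pow (by omega) hp, Finset.card_singleton]
    omega
  have hmaps : ∀ t ∈ Tr.filter (fun t => φ t = z), ψ t ∈
      (z.1.primeFactors.powerset ×ˢ z.1.primeFactors.powerset) ×ˢ
      (z.2.primeFactors.powerset ×ˢ z.2.primeFactors.powerset) := by
    intro t ht
    obtain ⟨ht1, ht2⟩ := Finset.mem_filter.1 ht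
    obtain ⟨q1, q2, q3⟩ := hTr t ht1
    have hn0' : t.1 ≠ 0 := by
      rcases q1 with q1 | q1
      · omega
      · exact q1.ne_zero
    have e1 : z.1 = x t.2.1 * y t.2.2 := by rw [← ht2]
    have e2 : z.2 = t.1 * (y t.2.1 * x t.2.2) := by rw [← ht2]
    have hz10 : z.1 ≠ 0 := by
      rw [e1]
      have := h.x0 q2
      have := h.y0 q3
      exact Nat.mul_ne_zero (by omega) (by omega)
    have hz20 : z.2 ≠ 0 := by
      rw [e2]
      have := h.y0 q2
      have := h.x0 q3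
      exact Nat.mul_ne_zero hn0' (Nat.mul_ne_zero (by omega) (by omega))
    simp only [hψ, Finset.mem_product, Finset.mem_powerset]
    refine ⟨⟨?_, ?_⟩, ?_, ?_⟩
    · exact Nat.primeFactors_mono (e1 ▸ dvd_mul_right _ _) hz10
    · exact Nat.primeFactors_mono (e1 ▸ dvd_mul_left _ _) hz10
    · exact Nat.primeFactors_mono (e2 ▸ (dvd_mul_right _ _).mul_left _) hz20
    · exact Nat.primeFactors_mono (e2 ▸ (dvd_mul_left _ _).mul_left _) hz20
  have hinj : Set.InjOn ψ ((Tr.filter (fun t => φ t = z) : Finset _) : Set (ℕ × ι × ι)) := by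
    intro t ht u hu htu
    obtain ⟨ht1, ht2⟩ := Finset.mem_filter.1 ht
    obtain ⟨hu1, hu2⟩ := Finset.mem_filter.1 hu
    obtain ⟨q1, q2, q3⟩ := hTr t ht1
    obtain ⟨r1, r2, r3⟩ := hTr u hu1
    simp only [hψ, Prod.mk.injEq] at htu
    obtain ⟨⟨w1, w2⟩, w3, w4⟩ := htu
    have key : ∀ a b : ℕ, Squarefree a → Squarefree b → a.primeFactors = b.primeFactors → a = b := by
      intro a b ha hb hab
      rw [← Nat.prod_primeFactors_of_squarefree ha, ← Nat.prod_primeFactors_of_squarefree hb, hab]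
    have v1 := key _ _ (h.sqx _ q2) (h.sqx _ r2) w1
    have v2 := key _ _ (h.sqy _ q3) (h.sqy _ r3) w2
    have v3 := key _ _ (h.sqy _ q2) (h.sqy _ r2) w3
    have v4 := key _ _ (h.sqx _ q3) (h.sqx _ r3) w4
    have i1 : t.2.1 = u.2.1 := h.inj _ q2 _ r2 v1 v3
    have i2 : t.2.2 = u.2.2 := h.inj _ q3 _ r3 v4 v2
    have e1 : t.1 * (y t.2.1 * x t.2.2) = u.1 * (y u.2.1 * x u.2.2) := by
      have a1 : z.2 = t.1 * (y t.2.1 * x t.2.2) := by rw [← ht2]
      have a2 : z.2 = u.1 * (y u.2.1 * x u.2.2) := by rw [← hu2]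
      rw [← a1, ← a2]
    rw [v3, v4] at e1
    have hpos : 0 < y u.2.1 * x u.2.2 := Nat.mul_pos (h.y0 r2) (h.x0 r3)
    have i3 : t.1 = u.1 := Nat.eq_of_mul_eq_mul_right hpos e1
    exact Prod.ext i3 (Prod.ext i1 i2)
  have hcard := Finset.card_le_card_of_injOn ψ hmaps hinj
  rw [Finset.card_product, Finset.card_product, Finset.card_product, Finset.card_powerset,
    Finset.card_powerset, ← pow_add, ← pow_add, ← pow_add] at hcard
  have hexp : 2 ^ (z.1.primeFactors.card + z.1.primeFactors.card +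
      (z.2.primeFactors.card + z.2.primeFactors.card)) ≤ 2 ^ (8 * B0 + 2) :=
    Nat.pow_le_pow_right (by norm_num) (by omega)
  exact_mod_cast hcard.trans hexp

end Fam

end Helper89G
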