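import Pool.Agent.Helper89G.Coin

/-! The weighted sum over near coincidences. -/

open Finset

namespace Helper89G

variable {ι : Type*} {S : Finset ι} {x y : ι → ℕ} {e : ι → ℝ} {B0 : ℕ} {K w Y : ℝ}

namespace Fam

open Classical in
/-- non-exceptional near coincidences -/
theorem near (h : Fam S x y e B0 K w Y) (hK : 0 ≤ K) (hw : 0 < w) (N : Finset ℕ)
    (hN : ∀ n ∈ N, n = 1 ∨ IsPrimePow n) (v : ℕ → ℝ) (V : ℝ) (hV0 : 0 ≤ V)
    (θ η : ℝ) (hθ : 0 < θ) (hη : 0 ≤ η) (hηθ : η ≤ θ / 2)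
    (hV : ∀ n ∈ N, (n : ℝ) ≤ 2 * Y ^ 2 / θ → v n ≤ V / Real.sqrt n)
    (hY : 1 ≤ 2 * Y ^ 2 / θ) :
    ∑ n ∈ N, ∑ i ∈ S, ∑ j ∈ S, (if |((x i * y j : ℕ) : ℝ) / ((n * (y i * x j) : ℕ) : ℝ) - θ| ≤ η ∧
      ¬ (x i * y j ∣ n * (y i * x j)) then v n * (|e i| * |e j|) else 0) ≤
    V * K ^ 2 * Real.sqrt (2 / θ) * (2 ^ (8 * B0 + 2) *
      ((1 + Real.log (2 * Y ^ 2 / θ)) * (2 * η * (2 * Y ^ 2 / θ) + 3 * θ / (2 * w)))) := by
  set cond : ℕ × ι × ι → Prop := fun t =>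
    |((x t.2.1 * y t.2.2 : ℕ) : ℝ) / ((t.1 * (y t.2.1 * x t.2.2) : ℕ) : ℝ) - θ| ≤ η ∧
      ¬ (x t.2.1 * y t.2.2 ∣ t.1 * (y t.2.1 * x t.2.2)) with hcond
  set Tr : Finset (ℕ × ι × ι) := (N ×ˢ (S ×ˢ S)).filter cond with hTr
  have hmem : ∀ t ∈ Tr, (t.1 ∈ N ∧ t.2.1 ∈ S ∧ t.2.2 ∈ S) ∧ cond t := by
    intro t ht
    rw [hTr, Finset.mem_filter, Finset.mem_product, Finset.mem_product] at ht
    exact ⟨⟨ht.1.1, ht.1.2.1, ht.1.2.2⟩, ht.2⟩
  have e1 : ∑ n ∈ N, ∑ i ∈ S, ∑ j ∈ S,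
      (if |((x i * y j : ℕ) : ℝ) / ((n * (y i * x j) : ℕ) : ℝ) - θ| ≤ η ∧
      ¬ (x i * y j ∣ n * (y i * x j)) then v n * (|e i| * |e j|) else 0) =
      ∑ t ∈ Tr, v t.1 * (|e t.2.1| * |e t.2.2|) := by
    rw [hTr, Finset.sum_filter, Finset.sum_product]
    refine Finset.sum_congr rfl fun n _ => ?_
    rw [Finset.sum_product]
  rw [e1]
  -- facts on members
  have hfacts : ∀ t ∈ Tr, 1 ≤ x t.2.1 * y t.2.2 ∧ 1 ≤ t.1 * (y t.2.1 * x t.2.2) ∧
      θ / 2 * ((t.1 * (y t.2.1 * x t.2.2) : ℕ) : ℝ) ≤ ((x t.2.1 * y t.2.2 : ℕ) : ℝ) ∧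
      ((x t.2.1 * y t.2.2 : ℕ) : ℝ) ≤ 3 * θ / 2 * ((t.1 * (y t.2.1 * x t.2.2) : ℕ) : ℝ) := by
    intro t ht
    obtain ⟨⟨p1, p2, p3⟩, p4, -⟩ := hmem t ht
    have a1 := h.x0 p2
    have a2 := h.y0 p2
    have a3 := h.x0 p3
    have a4 := h.y0 p3
    have a5 : t.1 ≠ 0 := by
      rcases hN _ p1 with h2 | h2
      · omega
      · exact h2.ne_zero
    have b1 : 1 ≤ x t.2.1 * y t.2.2 := Nat.mul_pos a1 a4
    have b2 : 1 ≤ t.1 * (y t.2.1 * x t.2.2) :=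
      Nat.mul_pos (Nat.pos_of_ne_zero a5) (Nat.mul_pos a2 a3)
    have b3 : (0 : ℝ) < ((t.1 * (y t.2.1 * x t.2.2) : ℕ) : ℝ) := by exact_mod_cast b2
    rw [abs_le] at p4
    refine ⟨b1, b2, ?_, ?_⟩
    · rw [← le_div_iff₀ b3]
      linarith [p4.1]
    · rw [← div_le_iff₀ b3]
      linarith [p4.2]
  have hterm : ∀ t ∈ Tr, v t.1 * (|e t.2.1| * |e t.2.2|) ≤
      V * K ^ 2 * Real.sqrt (2 / θ) * (1 / ((t.1 * (y t.2.1 * x t.2.2) : ℕ) : ℝ)) := by
    intro t ht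
    obtain ⟨⟨p1, p2, p3⟩, -⟩ := hmem t ht
    obtain ⟨f1, f2, f3, -⟩ := hfacts t ht
    have a1 : (0 : ℝ) < x t.2.1 := by exact_mod_cast h.x0 p2
    have a2 : (0 : ℝ) < y t.2.1 := by exact_mod_cast h.y0 p2
    have a3 : (0 : ℝ) < x t.2.2 := by exact_mod_cast h.x0 p3
    have a4 : (0 : ℝ) < y t.2.2 := by exact_mod_cast h.y0 p3
    have a5 : (0 : ℝ) < t.1 := by
      have : t.1 ≠ 0 := by
        rcases hN _ p1 with h2 | h2
        · omega
        · exact h2.ne_zero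
      exact_mod_cast Nat.pos_of_ne_zero this
    have hle : (t.1 : ℝ) ≤ 2 * Y ^ 2 / θ := by
      rw [le_div_iff₀ hθ]
      have h1 : ((x t.2.1 * y t.2.2 : ℕ) : ℝ) ≤ Y * Y := by
        push_cast
        exact mul_le_mul (h.lex _ p2) (h.ley _ p3) (by positivity)
          ((Nat.cast_nonneg _).trans (h.lex _ p2))
      have h2 : (t.1 : ℝ) ≤ ((t.1 * (y t.2.1 * x t.2.2) : ℕ) : ℝ) := by
        have : t.1 ≤ t.1 * (y t.2.1 * x t.2.2) :=
          Nat.le_mul_of_pos_right _ (Nat.mul_pos (h.y0 p2) (h.x0 p3))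
        exact_mod_cast this
      nlinarith
    push_cast at f3 ⊢
    set a : ℝ := (x t.2.1 : ℝ) * y t.2.2 with ha
    set b : ℝ := (t.1 : ℝ) * ((y t.2.1 : ℝ) * x t.2.2) with hb
    have ha0 : 0 < a := by positivity
    have hb0 : 0 < b := by positivity
    have h1 : v t.1 * (|e t.2.1| * |e t.2.2|) ≤ V / Real.sqrt t.1 *
        (K / Real.sqrt ((x t.2.1 : ℝ) * y t.2.1) * (K / Real.sqrt ((x t.2.2 : ℝ) * y t.2.2))) := by
      apply mul_le_mul (hV _ p1 hle) _ (by positivity) (by positivity)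
      exact mul_le_mul (h.co _ p2) (h.co _ p3) (abs_nonneg _) (by positivity)
    refine h1.trans ?_
    have h2 : Real.sqrt t.1 * (Real.sqrt ((x t.2.1 : ℝ) * y t.2.1) *
        Real.sqrt ((x t.2.2 : ℝ) * y t.2.2)) = Real.sqrt (a * b) := by
      rw [← Real.sqrt_mul (by positivity), ← Real.sqrt_mul (by positivity)]
      congr 1
      rw [ha, hb]
      ring
    have h3 : Real.sqrt (θ / 2) * b ≤ Real.sqrt (a * b) := by
      apply Real.le_sqrt_of_sq_le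
      rw [mul_pow, Real.sq_sqrt (by positivity)]
      nlinarith
    have h4 : V / Real.sqrt t.1 *
        (K / Real.sqrt ((x t.2.1 : ℝ) * y t.2.1) * (K / Real.sqrt ((x t.2.2 : ℝ) * y t.2.2))) =
        V * K ^ 2 / Real.sqrt (a * b) := by
      rw [← h2]
      field_simp
    rw [h4]
    have h5 : Real.sqrt (2 / θ) * Real.sqrt (θ / 2) = 1 := by
      rw [← Real.sqrt_mul (by positivity)]
      have : 2 / θ * (θ / 2) = 1 := by field_simp
      rw [this, Real.sqrt_one]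
    have h6 : 0 < Real.sqrt (θ / 2) := Real.sqrt_pos.2 (by positivity)
    calc V * K ^ 2 / Real.sqrt (a * b) ≤ V * K ^ 2 / (Real.sqrt (θ / 2) * b) := by
          apply div_le_div_of_nonneg_left (by positivity) (by positivity) h3
      _ = V * K ^ 2 * (Real.sqrt (2 / θ) * Real.sqrt (θ / 2)) / (Real.sqrt (θ / 2) * b) := by
          rw [h5, mul_one]
      _ = V * K ^ 2 * Real.sqrt (2 / θ) * (1 / b) := by
          field_simp
  refine (Finset.sum_le_sum hterm).trans ?_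
  rw [← Finset.mul_sum]
  apply mul_le_mul_of_nonneg_left _ (by positivity)
  have hfib := h.fiber Tr (fun t ht => by
    obtain ⟨⟨p1, p2, p3⟩, -⟩ := hmem t ht
    exact ⟨hN _ p1, p2, p3⟩) (fun z => 1 / (z.2 : ℝ)) (fun z => by positivity)
  refine hfib.trans ?_
  apply mul_le_mul_of_nonneg_left _ (by positivity)
  have hfr := frac_sum' (Tr.image (fun t => (x t.2.1 * y t.2.2, t.1 * (y t.2.1 * x t.2.2))))
    θ η (2 * Y ^ 2 / θ) (2 * w / (3 * θ)) hη hY (by positivity) (by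
      intro z hz
      obtain ⟨t, ht, rfl⟩ := Finset.mem_image.1 hz
      obtain ⟨⟨p1, p2, p3⟩, p4, p5⟩ := hmem t ht
      obtain ⟨f1, f2, f3, f4⟩ := hfacts t ht
      simp only
      have f2' : (0 : ℝ) < ((t.1 * (y t.2.1 * x t.2.2) : ℕ) : ℝ) := by exact_mod_cast f2
      refine ⟨f2, ?_, ?_, p4⟩
      · rw [le_div_iff₀ hθ]
        have h1 : ((x t.2.1 * y t.2.2 : ℕ) : ℝ) ≤ Y * Y := by
          push_cast
          exact mul_le_mul (h.lex _ p2) (h.ley _ p3) (by positivity)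
            ((Nat.cast_nonneg _).trans (h.lex _ p2))
        nlinarith
      · have h1 := h.nexc p2 p3 p5
        set a := x t.2.1 * y t.2.2 with ha
        set b := t.1 * (y t.2.1 * x t.2.2) with hb
        have hg0 : 0 < Nat.gcd a b := Nat.gcd_pos_of_pos_left _ f1
        have hgR : (0 : ℝ) < (Nat.gcd a b : ℝ) := by exact_mod_cast hg0
        have c1 : (a : ℝ) = (Nat.gcd a b : ℝ) * ((a / Nat.gcd a b : ℕ) : ℝ) := by
          exact_mod_cast (Nat.mul_div_cancel' (Nat.gcd_dvd_left a b)).symm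
        have c2 : (b : ℝ) = (Nat.gcd a b : ℝ) * ((b / Nat.gcd a b : ℕ) : ℝ) := by
          exact_mod_cast (Nat.mul_div_cancel' (Nat.gcd_dvd_right a b)).symm
        rw [c1, c2] at f4
        have f5 : ((a / Nat.gcd a b : ℕ) : ℝ) ≤ 3 * θ / 2 * ((b / Nat.gcd a b : ℕ) : ℝ) := by
          have : (Nat.gcd a b : ℝ) * ((a / Nat.gcd a b : ℕ) : ℝ) ≤
              (Nat.gcd a b : ℝ) * (3 * θ / 2 * ((b / Nat.gcd a b : ℕ) : ℝ)) := by
            calc _ ≤ _ := f4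
              _ = _ := by ring
          exact le_of_mul_le_mul_left this hgR
        rw [div_le_iff₀ (by positivity)]
        linarith)
  refine hfr.trans (le_of_eq ?_)
  congr 2
  field_simp

end Fam

end Helper89G
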