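import Pool.Agent.Helper89G.Coin2

/-! The complete weighted sum over coincidences. -/

open Finset

namespace Helper89G

variable {ι : Type*} {S : Finset ι} {x y : ι → ℕ} {e : ι → ℝ} {B0 : ℕ} {K w Y : ℝ}

namespace Fam

open Classical in
theorem total (h : Fam S x y e B0 K w Y) (hK : 0 ≤ K) (hw : 0 < w) (N : Finset ℕ)
    (hN : ∀ n ∈ N, n = 1 ∨ IsPrimePow n) (v : ℕ → ℝ) (hv0 : ∀ n, 0 ≤ v n) (V : ℝ) (hV0 : 0 ≤ V)
    (ν D ρ : ℝ) (hρ0 : 0 ≤ ρ) (hρν : ρ < |ν|)
    (hV : ∀ n ∈ N, (n : ℝ) ≤ 2 * Y ^ 2 / Real.exp (-ν) → v n ≤ V / Real.sqrt n)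
    (hρ1 : ρ ≤ 1 / 4) (hwν : Real.exp (|ν| + 1) < w) (hY : 1 ≤ 2 * Y ^ 2 / Real.exp (-ν)) :
    ∑ n ∈ N, ∑ i ∈ S, ∑ j ∈ S, v n * (|e i| * |e j|) *
      Real.exp (-(D ^ 2 * (Real.log (x i) - Real.log (y i) - (Real.log (x j) - Real.log (y j)) -
        (Real.log n - ν)) ^ 2 / 2)) ≤
    (∑ n ∈ N, v n) * (∑ i ∈ S, |e i|) ^ 2 * Real.exp (-(D ^ 2 * ρ ^ 2 / 2)) +
    V * K ^ 2 * Real.sqrt (2 / Real.exp (-ν)) * (2 ^ (8 * B0 + 2) *
      ((1 + Real.log (2 * Y ^ 2 / Real.exp (-ν))) *
        (2 * (2 * Real.exp (-ν) * ρ) * (2 * Y ^ 2 / Real.exp (-ν)) +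
          3 * Real.exp (-ν) / (2 * w)))) +
    (∑ n ∈ N.filter (fun n : ℕ => 2 ≤ n ∧ (n : ℝ) ≤ Real.exp (|ν| + 1)), v n) * K := by
  set θ := Real.exp (-ν) with hθ
  have hθ0 : 0 < θ := Real.exp_pos _
  set E0 := Real.exp (-(D ^ 2 * ρ ^ 2 / 2)) with hE0
  have hE00 : 0 < E0 := Real.exp_pos _
  have hnear := h.near hK hw N hN v V hV0 θ (2 * θ * ρ) hθ0 (by positivity) (by nlinarith) hV hY
  set g2 : ℕ → ι → ι → ℝ := fun n i j => if |((x i * y j : ℕ) : ℝ) / ((n * (y i * x j) : ℕ) : ℝ) - θ|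
    ≤ 2 * θ * ρ ∧ ¬ (x i * y j ∣ n * (y i * x j)) then v n * (|e i| * |e j|) else 0 with hg2
  set g3 : ℕ → ι → ι → ℝ := fun n i j => if (2 ≤ n ∧ (n : ℝ) ≤ Real.exp (|ν| + 1)) ∧ i = j then
    v n * (|e i| * |e j|) else 0 with hg3
  have hg20 : ∀ n i j, 0 ≤ g2 n i j := by
    intro n i j
    simp only [hg2]
    split_ifs
    · have := hv0 n
      positivity
    · exact le_rfl
  have hg30 : ∀ n i j, 0 ≤ g3 n i j := by
    intro n i j
    simp only [hg3]
    split_ifs
    · have := hv0 n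
      positivity
    · exact le_rfl
  have hpt : ∀ n ∈ N, ∀ i ∈ S, ∀ j ∈ S, v n * (|e i| * |e j|) *
      Real.exp (-(D ^ 2 * (Real.log (x i) - Real.log (y i) - (Real.log (x j) - Real.log (y j)) -
        (Real.log n - ν)) ^ 2 / 2)) ≤ v n * (|e i| * |e j|) * E0 + g2 n i j + g3 n i j := by
    intro n hn i hi j hj
    have hv := hv0 n
    have hb : 0 ≤ v n * (|e i| * |e j|) := by positivity
    have h1 := h.x0 hi
    have h2 := h.y0 hi
    have h3 := h.x0 hj
    have h4 := h.y0 hj
    have h5 : 1 ≤ n := by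
      rcases hN n hn with h6 | h6
      · omega
      · exact Nat.one_le_iff_ne_zero.mpr h6.ne_zero
    have r1 : (0 : ℝ) < x i := by exact_mod_cast h1
    have r2 : (0 : ℝ) < y i := by exact_mod_cast h2
    have r3 : (0 : ℝ) < x j := by exact_mod_cast h3
    have r4 : (0 : ℝ) < y j := by exact_mod_cast h4
    have r5 : (0 : ℝ) < n := by exact_mod_cast h5
    set z := Real.log (x i) - Real.log (y i) - (Real.log (x j) - Real.log (y j)) -
        (Real.log n - ν) with hz
    set A : ℕ := x i * y j with hA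
    set B : ℕ := n * (y i * x j) with hB
    have hA0 : 1 ≤ A := Nat.mul_pos h1 h4
    have hB0 : 1 ≤ B := Nat.mul_pos h5 (Nat.mul_pos h2 h3)
    have hAR : (0 : ℝ) < A := by exact_mod_cast hA0
    have hBR : (0 : ℝ) < B := by exact_mod_cast hB0
    have hz2 : z = Real.log A - Real.log B + ν := by
      rw [hz, hA, hB]
      push_cast
      rw [Real.log_mul r1.ne' r4.ne', Real.log_mul r5.ne' (mul_ne_zero r2.ne' r3.ne'),
        Real.log_mul r2.ne' r3.ne']
      ring
    have hg2' := hg20 n i j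
    have hg3' := hg30 n i j
    have hE1 : Real.exp (-(D ^ 2 * z ^ 2 / 2)) ≤ 1 := by
      rw [Real.exp_le_one_iff]
      have : 0 ≤ D ^ 2 * z ^ 2 / 2 := by positivity
      linarith
    have hle : v n * (|e i| * |e j|) * Real.exp (-(D ^ 2 * z ^ 2 / 2)) ≤ v n * (|e i| * |e j|) :=
      mul_le_of_le_one_right hb hE1
    have hE2 : 0 ≤ v n * (|e i| * |e j|) * E0 := by positivity
    by_cases hzρ : |z| ≤ ρ
    · have hratio : (A : ℝ) / B = θ * Real.exp z := by
        have : z = Real.log ((A : ℝ) / B) + ν := by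
          rw [Real.log_div hAR.ne' hBR.ne', hz2]
        rw [this, Real.exp_add, Real.exp_log (by positivity), hθ]
        have h6 : Real.exp (-ν) * Real.exp ν = 1 := by
          rw [← Real.exp_add]; simp
        calc (A : ℝ) / B = (A : ℝ) / B * (Real.exp (-ν) * Real.exp ν) := by rw [h6, mul_one]
          _ = _ := by ring
      by_cases hd : A ∣ B
      · obtain ⟨m, hm⟩ := hd
        have hm0 : 1 ≤ m := by
          rcases Nat.eq_zero_or_pos m with h6 | h6
          · rw [h6, mul_zero] at hm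
            omega
          · exact h6
        have hmR : (0 : ℝ) < m := by exact_mod_cast hm0
        have hzm : z = ν - Real.log m := by
          rw [hz2, hm]
          push_cast
          rw [Real.log_mul hAR.ne' hmR.ne']
          ring
        have hm1 : m ≠ 1 := by
          rintro rfl
          rw [hzm] at hzρ
          simp at hzρ
          linarith
        have hm2 : 2 ≤ m := by omega
        have hmle : (m : ℝ) ≤ Real.exp (|ν| + 1) := by
          rw [← Real.log_le_iff_le_exp hmR]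
          rw [hzm, abs_le] at hzρ
          have := le_abs_self ν
          linarith [hzρ.1]
        have hex := h.exc hi hj (n := n) (m := m) (hN n hn) hm2 (by linarith) (by
          rw [← hA, ← hB, hm, mul_comm])
        have : g3 n i j = v n * (|e i| * |e j|) := by
          simp only [hg3]
          rw [if_pos]
          rw [hex.1]
          exact ⟨⟨hm2, hmle⟩, hex.2⟩
        linarith
      · have : g2 n i j = v n * (|e i| * |e j|) := by
          simp only [hg2]
          rw [if_pos]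
          refine ⟨?_, hd⟩
          rw [hratio]
          have h6 : θ * Real.exp z - θ = θ * (Real.exp z - 1) := by ring
          rw [h6, abs_mul, abs_of_pos hθ0]
          have h7 := Real.abs_exp_sub_one_le (x := z) (by linarith)
          have h8 : |Real.exp z - 1| ≤ 2 * ρ := h7.trans (by linarith)
          calc θ * |Real.exp z - 1| ≤ θ * (2 * ρ) := mul_le_mul_of_nonneg_left h8 hθ0.le
            _ = 2 * θ * ρ := by ring
        linarith
    · push Not at hzρ
      have h6 : ρ ^ 2 ≤ z ^ 2 := by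
        rw [← sq_abs z]
        exact pow_le_pow_left₀ hρ0 hzρ.le 2
      have h7 : Real.exp (-(D ^ 2 * z ^ 2 / 2)) ≤ E0 := by
        rw [hE0]
        apply Real.exp_le_exp.2
        have := mul_le_mul_of_nonneg_left h6 (sq_nonneg D)
        linarith
      have := mul_le_mul_of_nonneg_left h7 hb
      linarith
  refine (Finset.sum_le_sum fun n hn => Finset.sum_le_sum fun i hi => Finset.sum_le_sum fun j hj =>
    hpt n hn i hi j hj).trans ?_
  simp only [Finset.sum_add_distrib]
  apply add_le_add (add_le_add _ hnear) _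
  · have h1 : ∑ n ∈ N, ∑ i ∈ S, ∑ j ∈ S, v n * (|e i| * |e j|) * E0 =
        (∑ n ∈ N, v n) * (∑ i ∈ S, |e i|) ^ 2 * E0 := by
      rw [sq, Finset.sum_mul_sum, Finset.sum_mul, Finset.sum_mul]
      refine Finset.sum_congr rfl fun n _ => ?_
      rw [Finset.mul_sum, Finset.sum_mul]
      refine Finset.sum_congr rfl fun i _ => ?_
      rw [Finset.mul_sum, Finset.sum_mul]
    exact h1.le
  · have h1 : ∀ n ∈ N, ∑ i ∈ S, ∑ j ∈ S, g3 n i j =
        if 2 ≤ n ∧ (n : ℝ) ≤ Real.exp (|ν| + 1) then v n * ∑ i ∈ S, e i ^ 2 else 0 := by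
      intro n _
      simp only [hg3]
      by_cases hc : 2 ≤ n ∧ (n : ℝ) ≤ Real.exp (|ν| + 1)
      · rw [if_pos hc, Finset.mul_sum]
        refine Finset.sum_congr rfl fun i hi => ?_
        rw [Finset.sum_eq_single i]
        · rw [if_pos ⟨hc, rfl⟩, abs_mul_abs_self, sq]
        · intro j _ hj
          rw [if_neg]
          rintro ⟨-, h2⟩
          exact hj h2.symm
        · intro h2
          exact absurd hi h2
      · rw [if_neg hc]
        apply Finset.sum_eq_zero
        intro i _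
        apply Finset.sum_eq_zero
        intro j _
        rw [if_neg]
        rintro ⟨h2, -⟩
        exact hc h2
    rw [Finset.sum_congr rfl h1, ← Finset.sum_filter, ← Finset.sum_mul]
    exact mul_le_mul_of_nonneg_left h.dg (Finset.sum_nonneg fun n _ => hv0 n)

end Fam

end Helper89G
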