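import Mathlib

/-! Sums over fractions in a short window: the gap principle for reduced fractions. -/

open MeasureTheory Finset

namespace Helper89G

/-- distinct reduced fractions are well separated -/
theorem frac_sep {a b c d : ℕ} (hb : 1 ≤ b) (hd : 1 ≤ d) (hab : Nat.Coprime a b)
    (hcd : Nat.Coprime c d) (hne : (a, b) ≠ (c, d)) :
    1 / ((b : ℝ) * d) ≤ |(a : ℝ) / b - (c : ℝ) / d| := by
  have hb0 : (0 : ℝ) < b := by exact_mod_cast hb
  have hd0 : (0 : ℝ) < d := by exact_mod_cast hd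
  have hne' : (a : ℤ) * d - c * b ≠ 0 := by
    intro h
    have h1 : a * d = c * b := by
      have : (a : ℤ) * d = c * b := by linarith
      exact_mod_cast this
    apply hne
    have h2 : b ∣ d := by
      apply (hab.symm).dvd_of_dvd_mul_left
      rw [h1]
      exact dvd_mul_left _ _
    have h3 : d ∣ b := by
      apply (hcd.symm).dvd_of_dvd_mul_left
      rw [← h1]
      exact dvd_mul_left _ _
    have h4 : b = d := Nat.dvd_antisymm h2 h3
    subst h4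
    have h5 : a = c := Nat.eq_of_mul_eq_mul_right (by omega) h1
    rw [h5]
  have h1 : (1 : ℝ) ≤ |(a : ℝ) * d - c * b| := by
    have h2 : (1 : ℤ) ≤ |(a : ℤ) * d - c * b| := Int.one_le_abs hne'
    have h3 : ((1 : ℤ) : ℝ) ≤ ((|(a : ℤ) * d - c * b| : ℤ) : ℝ) := by exact_mod_cast h2
    push_cast at h3
    exact h3
  have h2 : (a : ℝ) / b - (c : ℝ) / d = ((a : ℝ) * d - c * b) / (b * d) := by
    field_simp
  rw [h2, abs_div, abs_of_pos (mul_pos hb0 hd0)]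
  exact div_le_div_of_nonneg_right h1 (mul_pos hb0 hd0).le

/-- reduced fractions in a window -/
theorem frac_sum (S : Finset (ℕ × ℕ)) (θ η X M : ℝ) (hη : 0 ≤ η) (hX : 0 < X) (hM : 0 < M)
    (h : ∀ p ∈ S, 1 ≤ p.2 ∧ Nat.Coprime p.1 p.2 ∧ (p.2 : ℝ) ≤ X ∧ M ≤ p.2 ∧
      |(p.1 : ℝ) / p.2 - θ| ≤ η) :
    ∑ p ∈ S, 1 / (p.2 : ℝ) ≤ 2 * η * X + 1 / M := by
  classical
  set I : ℕ × ℕ → Set ℝ := fun p =>
    Set.Ioo ((p.1 : ℝ) / p.2 - 1 / (2 * p.2 * X)) ((p.1 : ℝ) / p.2 + 1 / (2 * p.2 * X)) with hI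
  have hdisj : (S : Set (ℕ × ℕ)).PairwiseDisjoint I := by
    intro p hp q hq hpq
    obtain ⟨p1, p2, p3, -, -⟩ := h p hp
    obtain ⟨q1, q2, q3, -, -⟩ := h q hq
    have hp0 : (0 : ℝ) < p.2 := by exact_mod_cast p1
    have hq0 : (0 : ℝ) < q.2 := by exact_mod_cast q1
    have hsep := frac_sep p1 q1 p2 q2 (by simpa using hpq)
    change Disjoint (I p) (I q)
    rw [Set.disjoint_left]
    intro z hz hz'
    simp only [hI, Set.mem_Ioo] at hz hz'
    have e1 : 1 / (2 * (p.2 : ℝ) * X) ≤ 1 / (2 * ((p.2 : ℝ) * q.2)) := by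
      apply one_div_le_one_div_of_le (by positivity)
      nlinarith
    have e2 : 1 / (2 * (q.2 : ℝ) * X) ≤ 1 / (2 * ((p.2 : ℝ) * q.2)) := by
      apply one_div_le_one_div_of_le (by positivity)
      nlinarith
    have e3 : 1 / (2 * ((p.2 : ℝ) * q.2)) + 1 / (2 * ((p.2 : ℝ) * q.2)) =
        1 / ((p.2 : ℝ) * q.2) := by field_simp; ring
    have e4 : |(p.1 : ℝ) / p.2 - (q.1 : ℝ) / q.2| < 1 / ((p.2 : ℝ) * q.2) := by
      rw [abs_lt]
      constructor <;> linarith [hz.1, hz.2, hz'.1, hz'.2]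
    linarith
  have hmeas : ∀ p ∈ S, MeasurableSet (I p) := fun p _ => measurableSet_Ioo
  have h1 := measure_biUnion_finset (μ := volume) hdisj hmeas
  set J : Set ℝ := Set.Icc (θ - η - 1 / (2 * M * X)) (θ + η + 1 / (2 * M * X)) with hJ
  have hsub : (⋃ p ∈ S, I p) ⊆ J := by
    intro z hz
    simp only [Set.mem_iUnion] at hz
    obtain ⟨p, hp, hz⟩ := hz
    obtain ⟨p1, -, -, p4, p5⟩ := h p hp
    have hp0 : (0 : ℝ) < p.2 := by exact_mod_cast p1
    simp only [hI, Set.mem_Ioo] at hz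
    have e1 : 1 / (2 * (p.2 : ℝ) * X) ≤ 1 / (2 * M * X) := by
      apply one_div_le_one_div_of_le (by positivity)
      have := mul_le_mul_of_nonneg_right p4 hX.le
      nlinarith
    rw [abs_le] at p5
    rw [hJ, Set.mem_Icc]
    constructor <;> linarith [hz.1, hz.2, p5.1, p5.2]
  have h2 := measure_mono (μ := volume) hsub
  rw [h1] at h2
  have h3 : ∀ p ∈ S, volume (I p) = ENNReal.ofReal (1 / ((p.2 : ℝ) * X)) := by
    intro p hp
    obtain ⟨p1, -⟩ := h p hp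
    have hp0 : (0 : ℝ) < p.2 := by exact_mod_cast p1
    rw [hI, Real.volume_Ioo]
    congr 1
    field_simp
    ring
  rw [Finset.sum_congr rfl h3, hJ, Real.volume_Icc, ← ENNReal.ofReal_sum_of_nonneg
    (fun p hp => by positivity), ENNReal.ofReal_le_ofReal_iff (by
      have : 0 < 1 / (2 * M * X) := by positivity
      linarith)] at h2
  have h4 : ∑ p ∈ S, 1 / (p.2 : ℝ) = X * ∑ p ∈ S, 1 / ((p.2 : ℝ) * X) := by
    rw [Finset.mul_sum]
    refine Finset.sum_congr rfl fun p _ => ?_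
    field_simp
  rw [h4]
  calc X * ∑ p ∈ S, 1 / ((p.2 : ℝ) * X) ≤
      X * (θ + η + 1 / (2 * M * X) - (θ - η - 1 / (2 * M * X))) :=
        mul_le_mul_of_nonneg_left h2 hX.le
    _ = 2 * η * X + 1 / M := by
        field_simp
        ring

/-- all fractions in a window, with the reduced denominator bounded from below -/
theorem frac_sum' (S : Finset (ℕ × ℕ)) (θ η X M : ℝ) (hη : 0 ≤ η) (hX : 1 ≤ X) (hM : 0 < M)
    (h : ∀ p ∈ S, 1 ≤ p.2 ∧ (p.2 : ℝ) ≤ X ∧ M ≤ ((p.2 / Nat.gcd p.1 p.2 : ℕ) : ℝ) ∧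
      |(p.1 : ℝ) / p.2 - θ| ≤ η) :
    ∑ p ∈ S, 1 / (p.2 : ℝ) ≤ (1 + Real.log X) * (2 * η * X + 1 / M) := by
  classical
  set g : ℕ × ℕ → ℕ := fun p => Nat.gcd p.1 p.2 with hg
  set red : ℕ × ℕ → ℕ × ℕ := fun p => (p.1 / g p, p.2 / g p) with hred
  set R := S.image red with hR
  have hg0 : ∀ p ∈ S, 1 ≤ g p := by
    intro p hp
    exact Nat.gcd_pos_of_pos_right _ (h p hp).1
  have hmap : ∀ p ∈ S, (g p, red p) ∈ (Finset.Icc 1 ⌊X⌋₊) ×ˢ R := by
    intro p hp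
    rw [Finset.mem_product, Finset.mem_Icc]
    refine ⟨⟨hg0 p hp, ?_⟩, Finset.mem_image_of_mem _ hp⟩
    apply Nat.le_floor
    have h1 : g p ≤ p.2 := Nat.gcd_le_right _ (h p hp).1
    calc ((g p : ℕ) : ℝ) ≤ p.2 := by exact_mod_cast h1
      _ ≤ X := (h p hp).2.1
  have hinj : Set.InjOn (fun p => (g p, red p)) (S : Set (ℕ × ℕ)) := by
    intro p hp q hq hpq
    simp only [Prod.mk.injEq, hred] at hpq
    obtain ⟨h1, h2, h3⟩ := hpq
    have a1 : p.1 = g p * (p.1 / g p) := (Nat.mul_div_cancel' (Nat.gcd_dvd_left _ _)).symm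
    have a2 : p.2 = g p * (p.2 / g p) := (Nat.mul_div_cancel' (Nat.gcd_dvd_right _ _)).symm
    have b1 : q.1 = g q * (q.1 / g q) := (Nat.mul_div_cancel' (Nat.gcd_dvd_left _ _)).symm
    have b2 : q.2 = g q * (q.2 / g q) := (Nat.mul_div_cancel' (Nat.gcd_dvd_right _ _)).symm
    have c1 : p.1 = q.1 := by rw [a1, b1, ← h2, h1]
    have c2 : p.2 = q.2 := by rw [a2, b2, ← h3, h1]
    exact Prod.ext c1 c2
  have hRs := frac_sum R θ η X M hη (by linarith) hM (by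
    intro q hq
    rw [hR, Finset.mem_image] at hq
    obtain ⟨p, hp, rfl⟩ := hq
    obtain ⟨h1, h2, h3, h4⟩ := h p hp
    have hgp := hg0 p hp
    have a1 : p.1 = g p * (p.1 / g p) := (Nat.mul_div_cancel' (Nat.gcd_dvd_left _ _)).symm
    have a2 : p.2 = g p * (p.2 / g p) := (Nat.mul_div_cancel' (Nat.gcd_dvd_right _ _)).symm
    refine ⟨?_, ?_, ?_, h3, ?_⟩
    · exact Nat.div_pos (Nat.gcd_le_right _ h1) hgp
    · exact Nat.coprime_div_gcd_div_gcd hgp
    · refine le_trans ?_ h2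
      exact_mod_cast Nat.div_le_self _ _
    · have hgR : (0 : ℝ) < g p := by exact_mod_cast hgp
      have e1 : (((p.1 / g p : ℕ) : ℝ)) / ((p.2 / g p : ℕ) : ℝ) = (p.1 : ℝ) / p.2 := by
        have c1 : (p.1 : ℝ) = g p * ((p.1 / g p : ℕ) : ℝ) := by exact_mod_cast a1
        have c2 : (p.2 : ℝ) = g p * ((p.2 / g p : ℕ) : ℝ) := by exact_mod_cast a2
        rw [c1, c2, mul_div_mul_left _ _ hgR.ne']
      simp only [hred]
      rw [e1]
      exact h4)
  have hlog : (0 : ℝ) ≤ 1 + Real.log X := by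
    have := Real.log_nonneg hX
    linarith
  have hharm : ∑ n ∈ Finset.Icc 1 ⌊X⌋₊, 1 / (n : ℝ) ≤ 1 + Real.log X := by
    have h1 := harmonic_le_one_add_log ⌊X⌋₊
    have h2 : ((harmonic ⌊X⌋₊ : ℚ) : ℝ) = ∑ n ∈ Finset.Icc 1 ⌊X⌋₊, 1 / (n : ℝ) := by
      rw [harmonic_eq_sum_Icc]
      push_cast
      simp only [one_div]
    rw [h2] at h1
    refine h1.trans ?_
    have h3 : (1 : ℝ) ≤ (⌊X⌋₊ : ℝ) := by
      have : 1 ≤ ⌊X⌋₊ := Nat.le_floor (by exact_mod_cast hX)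
      exact_mod_cast this
    have h4 : Real.log (⌊X⌋₊ : ℝ) ≤ Real.log X :=
      Real.log_le_log (by linarith) (Nat.floor_le (by linarith))
    linarith
  have hRn : 0 ≤ ∑ q ∈ R, 1 / (q.2 : ℝ) := Finset.sum_nonneg fun q _ => by positivity
  calc ∑ p ∈ S, 1 / (p.2 : ℝ) = ∑ p ∈ S, (1 / (g p : ℝ)) * (1 / ((red p).2 : ℝ)) := by
        refine Finset.sum_congr rfl fun p hp => ?_
        have hgp := hg0 p hp
        have a2 : p.2 = g p * (p.2 / g p) := (Nat.mul_div_cancel' (Nat.gcd_dvd_right _ _)).symm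
        have c2 : (p.2 : ℝ) = g p * ((p.2 / g p : ℕ) : ℝ) := by exact_mod_cast a2
        simp only [hred]
        conv_lhs => rw [c2]
        rw [one_div_mul_one_div]
    _ = ∑ z ∈ S.image (fun p => (g p, red p)), (1 / (z.1 : ℝ)) * (1 / (z.2.2 : ℝ)) := by
        rw [Finset.sum_image hinj]
    _ ≤ ∑ z ∈ (Finset.Icc 1 ⌊X⌋₊) ×ˢ R, (1 / (z.1 : ℝ)) * (1 / (z.2.2 : ℝ)) := by
        apply Finset.sum_le_sum_of_subset_of_nonneg
        · intro z hz
          rw [Finset.mem_image] at hz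
          obtain ⟨p, hp, rfl⟩ := hz
          exact hmap p hp
        · intro z _ _
          positivity
    _ = (∑ n ∈ Finset.Icc 1 ⌊X⌋₊, 1 / (n : ℝ)) * ∑ q ∈ R, 1 / (q.2 : ℝ) := by
        rw [Finset.sum_product, Finset.sum_mul_sum]
    _ ≤ (1 + Real.log X) * (2 * η * X + 1 / M) :=
        mul_le_mul hharm hRs hRn hlog

end Helper89G
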