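import Pool.Agent.Helper89G.TW6
import Pool.Agent.W197.Tile
import Pool.Agent.R482.GB.Sm
import Pool.Agent.R482.GB.Fin

/-! Large gaps next to the zeros in a Bohr set, in short intervals. -/

open Complex Filter Topology Set MeasureTheory

namespace Helper89G

open SG (dd ord NZ)
open SP (RHs)
open TH803TW (tp tp_cont APm split_zero haarT torusPt APm_torus)

/-- tiling of `[T, T + H]` by windows of the local theorem -/
theorem tile' (κ K ε T0 : ℝ) (hκ : 0 < κ) (hκ1 : κ < 1 / 2) (hK : 1 ≤ K) (hε : 0 < ε)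
    (hT0 : 10 ≤ T0) (Q : ℝ → ℕ → Prop)
    (hloc : ∀ T : ℝ, T0 ≤ T → ∀ t0 : ℝ, 11 / 10 * T ≤ t0 → t0 ≤ 19 / 10 * T →
      ε * dd κ T * Real.log T ≤ ({n : ℕ | 1 ≤ n ∧ |ord n - t0| ≤ K * dd κ T ∧ Q T n}.ncard : ℝ)) :
    ∃ T1 : ℝ, 100 ≤ T1 ∧ ∀ T : ℝ, T1 ≤ T → ∀ H : ℝ, T ^ (1 - κ / 4) ≤ H → H ≤ T / 2 →
      ε / (12 * K) * (H * Real.log T) ≤
        ({n : ℕ | 1 ≤ n ∧ T ≤ ord n ∧ ord n ≤ T + H ∧ Q (5 / 6 * T) n}.ncard : ℝ) := by
  have hlim : Tendsto (fun T : ℝ => T ^ (κ / 4)) atTop atTop := tendsto_rpow_atTop (by linarith)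
  obtain ⟨T1, hT1⟩ := (tendsto_atTop.mp hlim (100 * K)).exists_forall_of_atTop
  refine ⟨max (max (2 * T0) T1) 1000,
    le_trans (by norm_num) (le_max_right _ _), fun T hT H hH1 hH2 => ?_⟩
  have hTT0 : 2 * T0 ≤ T := ((le_max_left _ _).trans (le_max_left _ _)).trans hT
  have hTT1 : T1 ≤ T := ((le_max_right _ _).trans (le_max_left _ _)).trans hT
  have hT1000 : 1000 ≤ T := (le_max_right _ _).trans hT
  have hTpos : 0 < T := by linarith
  set T' : ℝ := 5 / 6 * T with hT'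
  have hT'pos : 0 < T' := by rw [hT']; linarith
  have hT'0 : T0 ≤ T' := by rw [hT']; linarith
  set Δ : ℝ := dd κ T' with hΔ
  have hΔ0 : 0 < Δ := by rw [hΔ]; unfold dd; positivity
  have hlogT' : Real.log T / 2 ≤ Real.log T' := by
    have h1 : T ≤ T' ^ 2 := by rw [hT']; nlinarith
    have h2 := Real.log_le_log hTpos h1
    rw [Real.log_pow] at h2
    push_cast at h2
    linarith
  have hlogT : 0 < Real.log T := Real.log_pos (by linarith)
  -- `100 K Δ ≤ H`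
  have hKΔ : 100 * (K * Δ) ≤ H := by
    have h1 := hT1 T hTT1
    have h2 : T ^ (κ / 4) * T ^ (1 - κ / 2) = T ^ (1 - κ / 4) := by
      rw [← Real.rpow_add hTpos]
      congr 1
      ring
    have h3 : Δ ≤ T ^ (1 - κ / 2) := by
      rw [hΔ]
      unfold dd
      apply Real.rpow_le_rpow hT'pos.le
      · rw [hT']; linarith
      · linarith
    have h4 : 0 ≤ T ^ (1 - κ / 2) := by positivity
    calc 100 * (K * Δ) = (100 * K) * Δ := by ring
      _ ≤ T ^ (κ / 4) * T ^ (1 - κ / 2) := mul_le_mul h1 h3 hΔ0.le (by positivity)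
      _ = T ^ (1 - κ / 4) := h2
      _ ≤ H := hH1
  set R : ℝ := K * Δ with hR
  have hR0 : 0 < R := by positivity
  have hHpos : 0 < H := by linarith
  set M : ℕ := ⌊H / (3 * R)⌋₊ with hM
  have hM1 : (M : ℝ) ≤ H / (3 * R) := Nat.floor_le (by positivity)
  have hM2 : H / (3 * R) < M + 1 := Nat.lt_floor_add_one _
  have hM3 : H / (6 * R) ≤ M := by
    have h1 : H / (3 * R) = 2 * (H / (6 * R)) := by field_simp; ring
    have h2 : 1 ≤ H / (6 * R) := by
      rw [le_div_iff₀ (by positivity)]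
      linarith
    rw [h1] at hM2
    linarith
  set S : Set ℕ := {n : ℕ | 1 ≤ n ∧ T ≤ ord n ∧ ord n ≤ T + H ∧ Q T' n} with hS
  have hSfin : S.Finite := by
    apply SP.PosProp.fin_ord (T + H)
    intro n hn
    exact ⟨hn.1, hn.2.2.1⟩
  set t : ℕ → ℝ := fun i => T + (3 * i + 3 / 2) * R with ht
  set W : ℕ → Set ℕ := fun i => {n : ℕ | 1 ≤ n ∧ |ord n - t i| ≤ K * dd κ T' ∧ Q T' n} with hW
  have hti : ∀ i < M, T + R ≤ t i ∧ t i + R ≤ T + H := by
    intro i hi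
    have hiM : (i : ℝ) + 1 ≤ M := by exact_mod_cast hi
    have h2 : (i : ℝ) + 1 ≤ H / (3 * R) := hiM.trans hM1
    rw [le_div_iff₀ (by positivity)] at h2
    have h3 : 0 ≤ (i : ℝ) * R := by positivity
    constructor
    · simp only [ht]; nlinarith
    · simp only [ht]; nlinarith
  have hsub : ∀ i < M, W i ⊆ S := by
    intro i hi n hn
    obtain ⟨h1, h2, h3⟩ := hn
    obtain ⟨h4, h5⟩ := hti i hi
    rw [abs_le] at h2
    rw [← hΔ, ← hR] at h2
    exact ⟨h1, by linarith, by linarith, h3⟩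
  have hdisj : ∀ i < M, ∀ j < M, i ≠ j → Disjoint (W i) (W j) := by
    intro i _ j _ hij
    rw [Set.disjoint_left]
    intro n hn hn'
    have h1 := abs_le.mp hn.2.1
    have h2 := abs_le.mp hn'.2.1
    rw [← hΔ, ← hR] at h1 h2
    simp only [ht] at h1 h2
    rcases Nat.lt_or_gt_of_ne hij with h | h
    · have h3 : (i : ℝ) + 1 ≤ j := by exact_mod_cast h
      have h4 : R * ((i : ℝ) + 1) ≤ R * j := mul_le_mul_of_nonneg_left h3 hR0.le
      nlinarith
    · have h3 : (j : ℝ) + 1 ≤ i := by exact_mod_cast h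
      have h4 : R * ((j : ℝ) + 1) ≤ R * i := mul_le_mul_of_nonneg_left h3 hR0.le
      nlinarith
  have hcount : ∀ i < M, ε * Δ * Real.log T' ≤ ((W i).ncard : ℝ) := by
    intro i hi
    obtain ⟨h4, h5⟩ := hti i hi
    apply hloc T' hT'0 (t i)
    · rw [hT']; linarith
    · rw [hT']; linarith
  have hfinal := SP.PosProp.card_windows hSfin M W hsub hdisj _ hcount
  refine le_trans ?_ hfinal
  have h50 : 0 ≤ Real.log T' := by linarith
  have h5 : 0 ≤ ε * Δ * Real.log T' := by positivity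
  calc ε / (12 * K) * (H * Real.log T) = H / (6 * R) * (ε * Δ * (Real.log T / 2)) := by
        rw [hR]
        field_simp
        ring
    _ ≤ H / (6 * R) * (ε * Δ * Real.log T') := by gcongr
    _ ≤ M * (ε * Δ * Real.log T') := mul_le_mul_of_nonneg_right hM3 h5

/-- data attached to an open subset of the torus -/
theorem bohr_data {k : ℕ} {α : Fin k → ℝ}
    (hα : ∀ n : Fin k → ℤ, ∑ j, (n j : ℝ) * α j = 0 → n = 0) {U : Set (UnitAddTorus (Fin k))}
    (hU : IsOpen U) {v : ℝ} (hv : 0 < v) (hvU : v ≤ (haarT k U).toReal) :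
    ∃ (φ : ℝ → ℝ) (M : ℝ), APm φ M ∧ Continuous φ ∧ (∀ t, 0 ≤ φ t) ∧ (∀ t, φ t ≤ 1) ∧ v / 4 ≤ M ∧
      ∃ δ0 : ℝ, 0 < δ0 ∧ ∀ s t : ℝ, |s - t| ≤ δ0 → φ t ≠ 0 → torusPt α s ∈ U := by
  have hpos : 0 < (haarT k U).toReal := by linarith
  obtain ⟨f, hf0, hf1, hfU, hfM⟩ := Pool.Agent.R482.GB.open_inner hU hpos
  have hAf := APm_torus hα f
  obtain ⟨δ0, hδ0, hδ⟩ := Pool.Agent.R482.GB.unif_tp hAf (ω := v / 8) (by positivity)
  set h : C(UnitAddTorus (Fin k), ℝ) := ⟨fun x => max (f x - v / 4) 0, by fun_prop⟩ with hh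
  have hAh := APm_torus hα h
  have hint : ∀ q : C(UnitAddTorus (Fin k), ℝ), Integrable (fun x => q x) (haarT k) := by
    intro q
    exact q.continuous.integrable_of_hasCompactSupport (HasCompactSupport.of_compactSpace _)
  have hM : v / 4 ≤ ∫ x, h x ∂(haarT k) := by
    have h1 : ∫ x, (f x - v / 4) ∂(haarT k) ≤ ∫ x, h x ∂(haarT k) := by
      apply integral_mono ((hint f).sub (integrable_const _)) (hint h)
      intro x
      exact le_max_left _ _
    rw [integral_sub (hint f) (integrable_const _), integral_const] at h1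
    simp only [probReal_univ, smul_eq_mul, one_mul] at h1
    linarith
  refine ⟨fun t => h (torusPt α t), ∫ x, h x ∂(haarT k), hAh, ?_, ?_, ?_, hM, δ0, hδ0, ?_⟩
  · exact (TH803TW.APu.cont (fun ε hε => by
      obtain ⟨S, c, -, h2, -⟩ := hAh ε hε
      exact ⟨S, c, h2⟩))
  · intro t
    exact le_max_right _ _
  · intro t
    change max (f (torusPt α t) - v / 4) 0 ≤ 1
    apply max_le _ zero_le_one
    have := hf1 (torusPt α t)
    linarith
  · intro s t hst hφ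
    have h1 : v / 4 < f (torusPt α t) := by
      by_contra hcon
      push Not at hcon
      apply hφ
      change max (f (torusPt α t) - v / 4) 0 = 0
      exact max_eq_right (by linarith)
    have h2 := (abs_le.1 (hδ s t hst)).1
    by_contra hcon
    have h3 := hfU _ hcon
    linarith

/-- **large gaps in Bohr sets and short intervals** -/
theorem large_bohr (hRH : RHs) : ∃ θ : ℝ, θ < 1 ∧ ∀ v : ℝ, 0 < v → ∃ ε : ℝ, 0 < ε ∧
    ∀ (k : ℕ) (α : Fin k → ℝ), (∀ n : Fin k → ℤ, ∑ j, (n j : ℝ) * α j = 0 → n = 0) →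
    ∀ U : Set (UnitAddTorus (Fin k)), IsOpen U → v ≤ (haarT k U).toReal →
    ∃ T1 : ℝ, ∀ T : ℝ, T1 ≤ T → ∀ H : ℝ, T ^ θ ≤ H → H ≤ T / 2 →
      ε * (H * Real.log T) ≤ ({n : ℕ | 1 ≤ n ∧ T ≤ ord n ∧ ord n ≤ T + H ∧
        torusPt α (ord n) ∈ U ∧ 357 / 100 < W197.del n}.ncard : ℝ) := by
  obtain ⟨P, B0, r, F, q, h1, h2, h3, h4, h5⟩ := LG.PAR
  obtain ⟨η, hη, hloc⟩ := LOCAL_AP hRH P B0 h1 r h2 F q h3 (357 / 100) (by norm_num) h4 h5
  have hκ := P.hκ
  refine ⟨1 - P.κ / 4, by linarith, fun v hv => ?_⟩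
  obtain ⟨ε, K, hε, hK, hloc⟩ := hloc (v / 4) (by positivity)
  -- the constant of the tiling does not depend on the set
  refine ⟨ε / (12 * K), by positivity, fun k α hα U hU hvU => ?_⟩
  obtain ⟨φ, M, hφ, hφc, hφ0, hφ1, hvM, hQ⟩ := bohr_data hα hU hv hvU
  obtain ⟨T0, hT0, hloc⟩ := hloc φ M hφ hφc hφ0 hφ1 hvM (fun s => torusPt α s ∈ U) hQ
  obtain ⟨T1, hT1, h⟩ := tile' P.κ K ε T0 P.hκ P.hκ1 hK hε hT0
    (fun T n => 2 * Real.pi * (357 / 100 + η) / Real.log T < ord (n + 1) - ord n ∧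
      torusPt α (ord n) ∈ U) hloc
  refine ⟨T1, fun T hT H hH1 hH2 => ?_⟩
  have hT100 : 100 ≤ T := hT1.trans hT
  refine (h T hT H hH1 hH2).trans ?_
  have hsub : {n : ℕ | 1 ≤ n ∧ T ≤ ord n ∧ ord n ≤ T + H ∧
      (2 * Real.pi * (357 / 100 + η) / Real.log (5 / 6 * T) < ord (n + 1) - ord n ∧
        torusPt α (ord n) ∈ U)} ⊆
      {n : ℕ | 1 ≤ n ∧ T ≤ ord n ∧ ord n ≤ T + H ∧ torusPt α (ord n) ∈ U ∧
        357 / 100 < W197.del n} := by
    rintro n ⟨h1, h2, h3, h4, hU4⟩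
    refine ⟨h1, h2, h3, hU4, ?_⟩
    have hpi := Real.pi_pos
    have hlog : 0 < Real.log (5 / 6 * T) := Real.log_pos (by linarith)
    have hlog2 : Real.log (5 / 6 * T) ≤ Real.log (ord n) :=
      Real.log_le_log (by linarith) (by linarith)
    have hx0 : 0 < ord n := SG.ord_pos h1
    have hxy : ord n ≤ ord (n + 1) := SG.ord_mono h1 (Nat.le_succ n)
    have h5 := W197.xlogx_low hx0 hxy
    have h6 : (ord (n + 1) - ord n) * Real.log (5 / 6 * T) ≤
        (ord (n + 1) - ord n) * Real.log (ord n) := mul_le_mul_of_nonneg_left hlog2 (by linarith)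
    rw [div_lt_iff₀ hlog] at h4
    unfold W197.del
    rw [lt_div_iff₀ (by positivity)]
    nlinarith
  have hfin : {n : ℕ | 1 ≤ n ∧ T ≤ ord n ∧ ord n ≤ T + H ∧ torusPt α (ord n) ∈ U ∧
      357 / 100 < W197.del n}.Finite :=
    SP.PosProp.fin_ord (T + H) _ fun n hn => ⟨hn.1, hn.2.2.1⟩
  exact_mod_cast Set.ncard_le_ncard hsub hfin

end Helper89G
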