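import Pool.Agent.H382P.Eval0
import Pool.Agent.H382P.FFhor

/-! Gaussian integrals of the Gamma ratio with a frequency. -/

open Complex Filter Topology Set MeasureTheory

namespace Helper89G

open SP SP.DeepAux SP.EvalAux SG.Deep
open SG (phi hh nn dd dl)

/-- the integral with a frequency -/
noncomputable def JJ (c a κ T t0 r : ℝ) : ℂ :=
  ∫ t in (T + 2 * Real.log T)..(2 * T - 2 * Real.log T),
    phi t0 (dd κ T) (⟨6 - a / Real.log T, t⟩ : ℂ) * rho c T (⟨6, t⟩ : ℂ) *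
      cexp ((r : ℂ) * (⟨0, t⟩ : ℂ))

theorem deepJ (c a κ : ℝ) (hc : 0 < c) (hc1 : c < 1) (ha : 0 < a) (hκ : 0 < κ) (hκ1 : κ < 1 / 2) :
    ∃ C T0 : ℝ, 1 ≤ C ∧ 10 ≤ T0 ∧ ∀ T : ℝ, T0 ≤ T → ∀ t0 : ℝ, 11 / 10 * T ≤ t0 →
    t0 ≤ 19 / 10 * T → ∀ r : ℝ, ‖JJ c a κ T t0 r‖ ≤ C * dd κ T ∧
      (T ^ (3 * κ / 4 - 1) ≤ |r| → ‖JJ c a κ T t0 r‖ ≤ T ^ (-(21 : ℝ))) := by
  obtain ⟨Ta, hTa, hgen⟩ := deep_gen c a κ hc hc1 ha hκ hκ1
  obtain ⟨C, Tb, hC, hTb, hrr⟩ := rho_bound c hc hc1
  have ev1 : ∀ᶠ T : ℝ in atTop, T ^ (22 : ℝ) * Real.exp (-1 * T ^ (κ / 4)) <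
      1 / (2 * C * Real.exp 2) :=
    (tendsto_pow_exp' 22 1 (κ / 4) (by norm_num) (by linarith)).eventually_lt_const
      (by positivity)
  obtain ⟨Tc, hTc⟩ := ev1.exists_forall_of_atTop
  refine ⟨3 * (Real.exp 2 * C), max Ta (max Tb Tc), ?_, hTa.trans (le_max_left _ _), ?_⟩
  · have := Real.one_le_exp (show (0 : ℝ) ≤ 2 by norm_num)
    nlinarith
  intro T hT t0 ht1 ht2 r
  simp only [max_le_iff] at hT
  obtain ⟨aa, ab, ac⟩ := hT
  obtain ⟨k1, k2, k3, k4, k5, k6, k8, k7⟩ := hgen T aa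
  obtain ⟨m1, -⟩ := k7 t0 ht1 ht2
  have h22 := hTc T ac
  have hTpos : 0 < T := by linarith
  have hlog : 0 < Real.log T := Real.log_pos (by linarith)
  have haL0 : 0 < a / Real.log T := by positivity
  set D := dd κ T with hD
  have hDpos : 0 < D := by linarith
  set U1 := T + 2 * Real.log T with hU1
  set U2 := 2 * T - 2 * Real.log T with hU2
  have hrb : ∀ x : ℝ, 6 - D ≤ x → x ≤ 6 + D → ∀ y : ℝ, T ≤ y → y ≤ 2 * T →
      ‖rho c T (⟨x, y⟩ : ℂ)‖ ≤ C := by
    intro x hx1 hx2 y hy1 hy2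
    refine (hrr T ab (⟨x, y⟩ : ℂ) hy1 hy2 ?_).2
    simp only
    rw [abs_le]
    constructor <;> linarith
  have hphi1 : ∀ x : ℝ, 6 - D ≤ x → x ≤ 6 + D → ∀ y : ℝ,
      ‖phi t0 D (⟨x - a / Real.log T, y⟩ : ℂ)‖ ≤
        Real.exp 2 * Real.exp (-(y - t0) ^ 2 / (2 * D ^ 2)) := by
    intro x hx1 hx2 y
    rw [SG.phi_norm _ _ hDpos, ← Real.exp_add]
    apply Real.exp_le_exp.mpr
    simp only
    have h1 : (x - a / Real.log T - 1 / 2) ^ 2 ≤ 4 * D ^ 2 := by
      have : |x - a / Real.log T - 1 / 2| ≤ 2 * D := by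
        rw [abs_le]
        constructor <;> linarith
      calc (x - a / Real.log T - 1 / 2) ^ 2 = |x - a / Real.log T - 1 / 2| ^ 2 := (sq_abs _).symm
        _ ≤ (2 * D) ^ 2 := pow_le_pow_left₀ (abs_nonneg _) this 2
        _ = _ := by ring
    have e : (2 : ℝ) + -(y - t0) ^ 2 / (2 * D ^ 2) = (4 * D ^ 2 - (y - t0) ^ 2) / (2 * D ^ 2) := by
      field_simp
      ring
    rw [e]
    apply div_le_div_of_nonneg_right _ (by positivity)
    linarith
  have hgle : ∀ y : ℝ, Real.exp (-(y - t0) ^ 2 / (2 * D ^ 2)) ≤ 1 := by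
    intro y
    rw [Real.exp_le_one_iff]
    apply div_nonpos_of_nonpos_of_nonneg
    · nlinarith [sq_nonneg (y - t0)]
    · positivity
  have hnexp : ∀ (x y : ℝ), ‖cexp ((r : ℂ) * ((⟨x, y⟩ : ℂ) - 6))‖ = Real.exp (r * (x - 6)) := by
    intro x y
    rw [Complex.norm_exp]
    congr 1
    simp
  have e0 : ∀ t : ℝ, (⟨6, t⟩ : ℂ) - 6 = (⟨0, t⟩ : ℂ) := by
    intro t
    apply Complex.ext <;> simp
  constructor
  · -- the trivial bound
    have hgi := gauss_integrable D t0 hDpos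
    have hgI := gauss_integral D t0 hDpos
    have hb : ∀ t ∈ Set.Ioc U1 U2, ‖phi t0 D (⟨6 - a / Real.log T, t⟩ : ℂ) *
        rho c T (⟨6, t⟩ : ℂ) * cexp ((r : ℂ) * (⟨0, t⟩ : ℂ))‖ ≤
        Real.exp 2 * C * Real.exp (-(t - t0) ^ 2 / (2 * D ^ 2)) := by
      intro t ht
      have h1 := hphi1 6 (by linarith) (by linarith) t
      have h2 := hrb 6 (by linarith) (by linarith) t (by linarith [ht.1]) (by linarith [ht.2])
      have h3 := hnexp 6 t
      rw [e0] at h3
      rw [norm_mul, norm_mul, h3, sub_self, mul_zero, Real.exp_zero, mul_one]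
      calc _ ≤ (Real.exp 2 * Real.exp (-(t - t0) ^ 2 / (2 * D ^ 2))) * C :=
            mul_le_mul h1 h2 (norm_nonneg _) (by positivity)
        _ = _ := by ring
    have hs : Real.sqrt (2 * Real.pi) ≤ 3 := by
      rw [Real.sqrt_le_left (by norm_num)]
      have := Real.pi_lt_four
      linarith
    unfold JJ
    calc ‖∫ t in U1..U2, phi t0 D (⟨6 - a / Real.log T, t⟩ : ℂ) * rho c T (⟨6, t⟩ : ℂ) *
          cexp ((r : ℂ) * (⟨0, t⟩ : ℂ))‖
        ≤ ∫ t in U1..U2, Real.exp 2 * C * Real.exp (-(t - t0) ^ 2 / (2 * D ^ 2)) := by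
          apply intervalIntegral.norm_integral_le_of_norm_le k6
          · filter_upwards with t ht using hb t ht
          · exact (hgi.const_mul _).intervalIntegrable
      _ = Real.exp 2 * C * ∫ t in U1..U2, Real.exp (-(t - t0) ^ 2 / (2 * D ^ 2)) :=
          intervalIntegral.integral_const_mul _ _
      _ ≤ Real.exp 2 * C * (D * Real.sqrt (2 * Real.pi)) := by
          apply mul_le_mul_of_nonneg_left _ (by positivity)
          rw [← hgI, intervalIntegral.integral_of_le k6]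
          exact setIntegral_le_integral hgi (ae_of_all _ fun t => (Real.exp_pos _).le)
      _ ≤ Real.exp 2 * C * (D * 3) := by gcongr
      _ = 3 * (Real.exp 2 * C) * D := by ring
  · intro hr
    set G : ℂ → ℂ := fun s => ((T ^ (21 : ℝ) : ℝ) : ℂ) * cexp ((r : ℂ) * (s - 6)) with hG
    have hp21 : (0 : ℝ) < T ^ (21 : ℝ) := Real.rpow_pos_of_pos hTpos _
    have hGn : ∀ s : ℂ, ‖G s‖ = T ^ (21 : ℝ) * Real.exp (r * (s.re - 6)) := by
      intro s
      simp only [hG]
      rw [norm_mul, Complex.norm_real, Real.norm_of_nonneg hp21.le]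
      congr 1
      exact hnexp s.re s.im
    have hGa : ∀ s : ℂ, AnalyticAt ℂ G s := by
      intro s
      have : Differentiable ℂ G := by
        simp only [hG]
        fun_prop
      exact this.analyticAt s
    have hG6 : ∫ t in U1..U2, phi t0 D (⟨6 - a / Real.log T, t⟩ : ℂ) * rho c T (⟨6, t⟩ : ℂ) *
        G (⟨6, t⟩ : ℂ) = ((T ^ (21 : ℝ) : ℝ) : ℂ) * JJ c a κ T t0 r := by
      unfold JJ
      rw [← intervalIntegral.integral_const_mul]
      apply intervalIntegral.integral_congr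
      intro t _
      simp only [hG, e0]
      ring
    have hrd : T ^ (κ / 4) ≤ |r| * D := by
      have e1 : T ^ (κ / 4) = T ^ (3 * κ / 4 - 1) * D := by
        rw [hD]
        unfold dd
        rw [← Real.rpow_add hTpos]
        congr 1
        ring
      rw [e1]
      exact mul_le_mul_of_nonneg_right hr hDpos.le
    have e22 : T ^ (22 : ℝ) = T ^ (21 : ℝ) * T := by
      rw [show (22 : ℝ) = 21 + 1 by norm_num, Real.rpow_add hTpos, Real.rpow_one]
    -- tiny integral at distance `D`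
    have htiny : ∀ x : ℝ, 6 - D ≤ x → x ≤ 6 + D → r * (x - 6) ≤ -(|r| * D) →
        ‖∫ t in U1..U2, phi t0 D (⟨x - a / Real.log T, t⟩ : ℂ) * rho c T (⟨x, t⟩ : ℂ) *
          G (⟨x, t⟩ : ℂ)‖ ≤ 1 / 2 := by
      intro x hx1 hx2 hx3
      have hb : ∀ y ∈ Set.uIoc U1 U2,
          ‖phi t0 D (⟨x - a / Real.log T, y⟩ : ℂ) * rho c T (⟨x, y⟩ : ℂ) * G (⟨x, y⟩ : ℂ)‖ ≤
          Real.exp 2 * C * (T ^ (21 : ℝ) * Real.exp (-1 * T ^ (κ / 4))) := by
        intro y hy
        rw [uIoc_of_le k6] at hy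
        obtain ⟨hy1, hy2⟩ := hy
        rw [norm_mul, norm_mul]
        have b1 : ‖phi t0 D (⟨x - a / Real.log T, y⟩ : ℂ)‖ ≤ Real.exp 2 :=
          (hphi1 x hx1 hx2 y).trans (mul_le_of_le_one_right (Real.exp_pos _).le (hgle y))
        have b2 := hrb x hx1 hx2 y (by linarith) (by linarith)
        have b3 : ‖G (⟨x, y⟩ : ℂ)‖ ≤ T ^ (21 : ℝ) * Real.exp (-1 * T ^ (κ / 4)) := by
          rw [hGn]
          apply mul_le_mul_of_nonneg_left _ hp21.le
          apply Real.exp_le_exp.mpr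
          simp only
          linarith
        apply mul_le_mul _ b3 (norm_nonneg _) (by positivity)
        exact mul_le_mul b1 b2 (norm_nonneg _) (by positivity)
      refine (intervalIntegral.norm_integral_le_of_norm_le_const hb).trans ?_
      have hlen : |U2 - U1| ≤ T := by
        rw [abs_of_nonneg (by linarith)]
        linarith
      calc Real.exp 2 * C * (T ^ (21 : ℝ) * Real.exp (-1 * T ^ (κ / 4))) * |U2 - U1|
          ≤ Real.exp 2 * C * (T ^ (21 : ℝ) * Real.exp (-1 * T ^ (κ / 4))) * T :=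
            mul_le_mul_of_nonneg_left hlen (by positivity)
        _ = Real.exp 2 * C * (T ^ (22 : ℝ) * Real.exp (-1 * T ^ (κ / 4))) := by
            rw [e22]
            ring
        _ ≤ Real.exp 2 * C * (1 / (2 * C * Real.exp 2)) :=
            mul_le_mul_of_nonneg_left h22.le (by positivity)
        _ = 1 / 2 := by field_simp
    have hmain : ‖((T ^ (21 : ℝ) : ℝ) : ℂ) * JJ c a κ T t0 r‖ ≤ 1 := by
      rw [← hG6]
      rcases le_or_gt 0 r with hr0 | hr0
      · rw [abs_of_nonneg hr0] at hrd htiny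
        have d1 := m1 (6 - D) 6 (by linarith) (by linarith) (by linarith) G (by
          intro s hs1 hs2 _
          refine ⟨hGa s, ?_⟩
          rw [hGn]
          apply mul_le_of_le_one_right hp21.le
          rw [Real.exp_le_one_iff]
          nlinarith)
        have d2 := htiny (6 - D) le_rfl (by linarith) (by linarith)
        have := norm_sub_norm_le (∫ t in U1..U2,
          phi t0 D (⟨6 - a / Real.log T, t⟩ : ℂ) * rho c T (⟨6, t⟩ : ℂ) * G (⟨6, t⟩ : ℂ))
          (∫ t in U1..U2,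
          phi t0 D (⟨6 - D - a / Real.log T, t⟩ : ℂ) * rho c T (⟨6 - D, t⟩ : ℂ) *
            G (⟨6 - D, t⟩ : ℂ))
        rw [norm_sub_rev] at this
        linarith
      · rw [abs_of_neg hr0] at hrd htiny
        have d1 := m1 6 (6 + D) (by linarith) (by linarith) (by linarith) G (by
          intro s hs1 hs2 _
          refine ⟨hGa s, ?_⟩
          rw [hGn]
          apply mul_le_of_le_one_right hp21.le
          rw [Real.exp_le_one_iff]
          nlinarith)
        have d2 := htiny (6 + D) (by linarith) le_rfl (by linarith)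
        have := norm_sub_norm_le (∫ t in U1..U2,
          phi t0 D (⟨6 - a / Real.log T, t⟩ : ℂ) * rho c T (⟨6, t⟩ : ℂ) * G (⟨6, t⟩ : ℂ))
          (∫ t in U1..U2,
          phi t0 D (⟨6 + D - a / Real.log T, t⟩ : ℂ) * rho c T (⟨6 + D, t⟩ : ℂ) *
            G (⟨6 + D, t⟩ : ℂ))
        linarith
    rw [norm_mul, Complex.norm_real, Real.norm_of_nonneg hp21.le] at hmain
    rw [Real.rpow_neg hTpos.le, ← one_div, le_div_iff₀ hp21]
    linarith

end Helper89G
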