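import Pool.Agent.Helper89G.SG1

/-! The twisted mean value as a double sum over near pairs. -/

open Complex Filter Topology Set MeasureTheory

namespace Helper89G

open SP SP.DeepAux SP.EvalAux SG.Deep
open SG (phi hh nn dd dl)

/-- weight of the pair `(k, j)` -/
noncomputable def uw (a' ν : ℝ) (k j : ℕ) : ℝ :=
  Real.exp (Real.log k * (5 - a') - 6 * Real.log j + ν * (11 / 2 - a'))

/-- frequency of the pair `(k, j)` -/
noncomputable def rr (ν : ℝ) (k j : ℕ) : ℝ := Real.log k - Real.log j + ν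

/-- indices near `k e^ν` -/
noncomputable def nearS (ν κ T : ℝ) (k : ℕ) : Finset ℕ :=
  (Finset.Icc 1 ⌊Real.exp (|ν| + 1) * T⌋₊).filter (fun j => |rr ν k j| < T ^ (3 * κ / 4 - 1))

lemma osc (a' ν t : ℝ) {k j : ℕ} (hk : 1 ≤ k) (hj : 1 ≤ j) :
    (k : ℂ) ^ ((⟨6, t⟩ : ℂ) - (a' : ℝ) - 1) * (j : ℂ) ^ (-(⟨6, t⟩ : ℂ)) *
      cexp ((ν : ℂ) * ((⟨6, t⟩ : ℂ) - 1 / 2 - (a' : ℝ))) =
    ((uw a' ν k j : ℝ) : ℂ) * cexp ((rr ν k j : ℂ) * (⟨0, t⟩ : ℂ)) := by
  have hk0 : (k : ℂ) ≠ 0 := by exact_mod_cast (by omega : k ≠ 0)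
  have hj0 : (j : ℂ) ≠ 0 := by exact_mod_cast (by omega : j ≠ 0)
  have e0 : (⟨6, t⟩ : ℂ) = 6 + (⟨0, t⟩ : ℂ) := by
    apply Complex.ext <;> simp
  rw [Complex.cpow_def_of_ne_zero hk0, Complex.cpow_def_of_ne_zero hj0, ← Complex.natCast_log,
    ← Complex.natCast_log, ← Complex.exp_add, ← Complex.exp_add]
  unfold uw rr
  rw [Complex.ofReal_exp, ← Complex.exp_add, e0]
  congr 1
  push_cast
  ring

lemma uw_pos (a' ν : ℝ) (k j : ℕ) : 0 < uw a' ν k j := Real.exp_pos _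

lemma uw_eq (a' ν : ℝ) (k j : ℕ) : uw a' ν k j =
    Real.exp (-(1 + a') * Real.log k) * Real.exp (6 * rr ν k j) *
      Real.exp (-ν * (1 / 2 + a')) := by
  unfold uw rr
  rw [← Real.exp_add, ← Real.exp_add]
  congr 1
  ring

lemma uw_le (a' ν T : ℝ) (ha0 : 0 ≤ a') (ha1 : a' ≤ 1) {k j : ℕ} (hk : 1 ≤ k) (hkT : (k : ℝ) ≤ T)
    (hj : 1 ≤ j) :
    uw a' ν k j ≤ T ^ 5 * Real.exp (6 * |ν|) / (j : ℝ) ^ 6 := by
  have hk1 : (1 : ℝ) ≤ k := by exact_mod_cast hk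
  have hj1 : (0 : ℝ) < j := by exact_mod_cast hj
  have hT0 : 0 < T := by linarith
  unfold uw
  have e1 : Real.exp (Real.log k * (5 - a') - 6 * Real.log j + ν * (11 / 2 - a')) =
      Real.exp (Real.log k * (5 - a')) * Real.exp (ν * (11 / 2 - a')) / (j : ℝ) ^ 6 := by
    rw [Real.exp_add, Real.exp_sub]
    have : Real.exp (6 * Real.log j) = (j : ℝ) ^ 6 := by
      rw [show (6 : ℝ) * Real.log j = ((6 : ℕ) : ℝ) * Real.log j by norm_num, Real.exp_nat_mul,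
        Real.exp_log hj1]
    rw [this]
    ring
  rw [e1]
  apply div_le_div_of_nonneg_right _ (by positivity)
  have h0 : 0 ≤ Real.log k := Real.log_nonneg hk1
  apply mul_le_mul _ _ (Real.exp_pos _).le (by positivity)
  · have h1 : Real.exp (Real.log k * (5 - a')) ≤ (k : ℝ) ^ 5 := by
      have : (k : ℝ) ^ 5 = Real.exp (5 * Real.log k) := by
        rw [show (5 : ℝ) * Real.log k = ((5 : ℕ) : ℝ) * Real.log k by norm_num, Real.exp_nat_mul,
          Real.exp_log (by linarith)]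
      rw [this]
      apply Real.exp_le_exp.mpr
      nlinarith
    exact h1.trans (pow_le_pow_left₀ (by linarith) hkT 5)
  · apply Real.exp_le_exp.mpr
    have h1 := le_abs_self ν
    have h2 := abs_nonneg ν
    nlinarith

lemma nrm5 (A x y u e : ℂ) (he : ‖e‖ = 1) :
    ‖A * ((starRingEnd ℂ) x * y * u * e)‖ = ‖A‖ * (‖x‖ * ‖y‖ * ‖u‖) := by
  rw [norm_mul, norm_mul, norm_mul, norm_mul, he, mul_one, RCLike.norm_conj]

/-- termwise integration on the line `Re s = 6` -/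
lemma right_sum (c a κ ν T t0 M : ℝ) (N : ℕ) (d : ℕ → ℂ) (hd : ∀ n, ‖d n‖ ≤ T) (hT : 10 ≤ T)
    (ha0 : 0 ≤ a / Real.log T) (ha1 : a / Real.log T ≤ 1) (hNT : (N : ℝ) ≤ T)
    (hU : T + 2 * Real.log T ≤ 2 * T - 2 * Real.log T)
    (hc : ContinuousOn (fun t : ℝ => phi t0 (dd κ T) (⟨6 - a / Real.log T, t⟩ : ℂ) *
      rho c T (⟨6, t⟩ : ℂ)) (Set.uIcc (T + 2 * Real.log T) (2 * T - 2 * Real.log T)))
    (hM : ∀ t ∈ Set.uIcc (T + 2 * Real.log T) (2 * T - 2 * Real.log T),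
      ‖phi t0 (dd κ T) (⟨6 - a / Real.log T, t⟩ : ℂ) * rho c T (⟨6, t⟩ : ℂ)‖ ≤ M)
    {k : ℕ} (hk : 1 ≤ k) (hkN : k ≤ N) :
    HasSum (fun j : ℕ => (starRingEnd ℂ) (d k) * ec (a / Real.log T) (dl c T) N d j *
        ((uw (a / Real.log T) ν k j : ℝ) : ℂ) * JJ c a κ T t0 (rr ν k j))
      (∫ t in (T + 2 * Real.log T)..(2 * T - 2 * Real.log T),
        phi t0 (dd κ T) (⟨6 - a / Real.log T, t⟩ : ℂ) * rho c T (⟨6, t⟩ : ℂ) *
        ((starRingEnd ℂ) (d k) * (k : ℂ) ^ ((⟨6, t⟩ : ℂ) - (a / Real.log T : ℝ) - 1) *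
          PPr (a / Real.log T) (dl c T) N d (⟨6, t⟩ : ℂ) *
          cexp ((ν : ℂ) * ((⟨6, t⟩ : ℂ) - 1 / 2 - (a / Real.log T : ℝ))))) := by
  set a' := a / Real.log T with ha'
  set U1 := T + 2 * Real.log T with hU1
  set U2 := 2 * T - 2 * Real.log T with hU2
  set A : ℝ → ℂ := fun t => phi t0 (dd κ T) (⟨6 - a', t⟩ : ℂ) * rho c T (⟨6, t⟩ : ℂ) with hA
  have hT0 : 0 < T := by linarith
  have hM0 : 0 ≤ M := (norm_nonneg _).trans (hM U1 Set.left_mem_uIcc)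
  have hkT : (k : ℝ) ≤ T := le_trans (by exact_mod_cast hkN) hNT
  have hcline : Continuous (fun t : ℝ => (⟨0, t⟩ : ℂ)) := by
    have e : (fun t : ℝ => (⟨0, t⟩ : ℂ)) = fun t : ℝ => I * (t : ℂ) := by
      funext t
      apply Complex.ext <;> simp
    rw [e]
    fun_prop
  set F : ℕ → ℝ → ℂ := fun j t => A t * ((starRingEnd ℂ) (d k) * ec a' (dl c T) N d j *
    ((uw a' ν k j : ℝ) : ℂ) * cexp ((rr ν k j : ℂ) * (⟨0, t⟩ : ℂ))) with hF
  have hFc : ∀ j, ContinuousOn (F j) (Set.uIcc U1 U2) := by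
    intro j
    apply hc.mul
    apply Continuous.continuousOn
    fun_prop
  have hn : ∀ (r t : ℝ), ‖cexp ((r : ℂ) * (⟨0, t⟩ : ℂ))‖ = 1 := by
    intro r t
    rw [Complex.norm_exp]
    simp
  set b : ℕ → ℝ := fun j => M * (T * T * (T ^ 5 * Real.exp (6 * |ν|))) * (1 / (j : ℝ) ^ 2) with hb
  have hbs : Summable b := hasSum_zeta_two.summable.mul_left _
  have hFb : ∀ j, ∀ t ∈ Set.uIcc U1 U2, ‖F j t‖ ≤ b j := by
    intro j t ht
    simp only [hF, hb]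
    rcases Nat.eq_zero_or_pos j with hj | hj
    · subst hj
      rw [ec_zero]
      simp only [mul_zero, zero_mul, norm_zero]
      positivity
    · have e3 : ‖A t * ((starRingEnd ℂ) (d k) * ec a' (dl c T) N d j *
          ((uw a' ν k j : ℝ) : ℂ) * cexp ((rr ν k j : ℂ) * (⟨0, t⟩ : ℂ)))‖ =
          ‖A t‖ * (‖d k‖ * ‖ec a' (dl c T) N d j‖ * uw a' ν k j) := by
        rw [nrm5 (A t) _ _ _ _ (hn _ _), Complex.norm_real,
          Real.norm_of_nonneg (uw_pos _ _ _ _).le]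
      refine (le_of_eq e3).trans ?_
      have h1 := hM t ht
      have h2 := ec_bound a' (dl c T) T ha1 hT0.le N d hd j
      have h3 := uw_le a' ν T ha0 ha1 hk hkT hj
      have hj1 : (1 : ℝ) ≤ j := by exact_mod_cast hj
      have h4 : ‖A t‖ * (‖d k‖ * ‖ec a' (dl c T) N d j‖ * uw a' ν k j) ≤
          M * (T * (T * (j : ℝ) ^ 2) * (T ^ 5 * Real.exp (6 * |ν|) / (j : ℝ) ^ 6)) := by
        apply mul_le_mul h1 _ _ hM0
        · apply mul_le_mul _ h3 (uw_pos _ _ _ _).le (by positivity)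
          exact mul_le_mul (hd k) h2 (norm_nonneg _) hT0.le
        · have := (uw_pos a' ν k j).le
          positivity
      refine h4.trans ?_
      have h5 : T * (T * (j : ℝ) ^ 2) * (T ^ 5 * Real.exp (6 * |ν|) / (j : ℝ) ^ 6) =
          (T * T * (T ^ 5 * Real.exp (6 * |ν|))) * (1 / (j : ℝ) ^ 4) := by
        field_simp
      rw [h5, mul_assoc M]
      apply mul_le_mul_of_nonneg_left _ hM0
      apply mul_le_mul_of_nonneg_left _ (by positivity)
      apply one_div_le_one_div_of_le (by positivity)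
      exact pow_le_pow_right₀ hj1 (by norm_num)
  have hlim : ∀ t ∈ Set.uIcc U1 U2, HasSum (fun j => F j t)
      (A t * ((starRingEnd ℂ) (d k) * (k : ℂ) ^ ((⟨6, t⟩ : ℂ) - (a' : ℝ) - 1) *
          PPr a' (dl c T) N d (⟨6, t⟩ : ℂ) *
          cexp ((ν : ℂ) * ((⟨6, t⟩ : ℂ) - 1 / 2 - (a' : ℝ))))) := by
    intro t _
    have h1 := hasSum_ec a' (dl c T) N d (⟨6, t⟩ : ℂ) (by simp only; norm_num)
    have h2 := h1.mul_left (A t * ((starRingEnd ℂ) (d k) *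
      (k : ℂ) ^ ((⟨6, t⟩ : ℂ) - (a' : ℝ) - 1) *
      cexp ((ν : ℂ) * ((⟨6, t⟩ : ℂ) - 1 / 2 - (a' : ℝ)))))
    have e1 : A t * ((starRingEnd ℂ) (d k) * (k : ℂ) ^ ((⟨6, t⟩ : ℂ) - (a' : ℝ) - 1) *
          PPr a' (dl c T) N d (⟨6, t⟩ : ℂ) *
          cexp ((ν : ℂ) * ((⟨6, t⟩ : ℂ) - 1 / 2 - (a' : ℝ)))) =
        A t * ((starRingEnd ℂ) (d k) *
      (k : ℂ) ^ ((⟨6, t⟩ : ℂ) - (a' : ℝ) - 1) *
      cexp ((ν : ℂ) * ((⟨6, t⟩ : ℂ) - 1 / 2 - (a' : ℝ)))) * PPr a' (dl c T) N d (⟨6, t⟩ : ℂ) := by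
      ring
    rw [e1]
    refine h2.congr_fun ?_
    intro j
    rcases Nat.eq_zero_or_pos j with hj | hj
    · subst hj
      simp only [hF]
      rw [ec_zero]
      simp
    · have h3 := osc a' ν t hk hj
      simp only [hF]
      linear_combination (-(A t * (starRingEnd ℂ) (d k) * ec a' (dl c T) N d j)) * h3
  have hsum := intervalIntegral.hasSum_integral_of_dominated_convergence (μ := volume)
    (a := U1) (b := U2) (F := F) (fun j _ => b j)
    (fun j => ((intervalIntegrable_iff.mp ((hFc j).intervalIntegrable)).aestronglyMeasurable))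
    (fun j => Filter.Eventually.of_forall fun t ht => hFb j t (Set.uIoc_subset_uIcc ht))
    (Filter.Eventually.of_forall fun t _ => hbs)
    intervalIntegrable_const
    (Filter.Eventually.of_forall fun t ht => hlim t (Set.uIoc_subset_uIcc ht))
  refine hsum.congr_fun ?_
  intro j
  unfold JJ
  rw [← intervalIntegral.integral_const_mul]
  apply intervalIntegral.integral_congr
  intro t _
  simp only [hF, hA]
  ring

end Helper89G
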