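import Pool.Agent.Helper89G.SG2

/-! The twisted mean value as a double sum over near pairs. -/

open Complex Filter Topology Set MeasureTheory

namespace Helper89G

open SP SP.DeepAux SP.EvalAux SG.Deep
open SG (phi hh nn dd dl)

lemma far_freq (ν κ T : ℝ) (hT : 10 ≤ T) (hκ1 : κ < 1 / 2) {k j : ℕ} (hk : 1 ≤ k)
    (hkT : (k : ℝ) ≤ T) (hj : 1 ≤ j) (hn : j ∉ nearS ν κ T k) :
    T ^ (3 * κ / 4 - 1) ≤ |rr ν k j| := by
  unfold nearS at hn
  rw [Finset.mem_filter, not_and_or] at hn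
  rcases hn with hn | hn
  · have hT0 : 0 < T := by linarith
    have h1 : ⌊Real.exp (|ν| + 1) * T⌋₊ < j := by
      by_contra hcon
      push Not at hcon
      exact hn (Finset.mem_Icc.mpr ⟨hj, hcon⟩)
    have h2 : Real.exp (|ν| + 1) * T < j := (Nat.floor_lt (by positivity)).mp h1
    have h3 := Real.log_lt_log (by positivity) h2
    rw [Real.log_mul (Real.exp_pos _).ne' hT0.ne', Real.log_exp] at h3
    have hk1 : (1 : ℝ) ≤ k := by exact_mod_cast hk
    have h4 : Real.log k ≤ Real.log T := Real.log_le_log (by linarith) hkT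
    have h5 := le_abs_self ν
    have h6 : rr ν k j ≤ -1 := by
      unfold rr
      linarith
    have h7 : T ^ (3 * κ / 4 - 1) ≤ 1 :=
      Real.rpow_le_one_of_one_le_of_nonpos (by linarith) (by linarith)
    rw [abs_of_neg (by linarith)]
    linarith
  · exact not_lt.mp hn

lemma pi_sq_le : Real.pi ^ 2 / 6 ≤ 2 := by
  have := Real.pi_lt_d2
  have := Real.pi_pos
  nlinarith

theorem teval_gen (hRH : RHs) (c a κ : ℝ) (hc : 0 < c) (hc1 : c < 1) (ha : 0 < a) (ha1 : a ≤ 1)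
    (hκ : 0 < κ) (hκ1 : κ < 1 / 2) (ν : ℝ) :
    ∃ T0 : ℝ, 10 ≤ T0 ∧ ∀ T : ℝ, T0 ≤ T → ∀ t0 : ℝ, 11 / 10 * T ≤ t0 →
    t0 ≤ 19 / 10 * T → ∀ d : ℕ → ℂ, (∀ n, ‖d n‖ ≤ T) →
    ‖(∫ t in (T + 2 * Real.log T)..(2 * T - 2 * Real.log T),
      (wt t0 (dd κ T) t * ‖DP (nn κ T) d (⟨1 / 2, t⟩ : ℂ)‖ ^ 2 : ℝ) *
        ff c T (⟨1 / 2 + a / Real.log T, t⟩ : ℂ) * cexp ((ν : ℂ) * (⟨0, t⟩ : ℂ))) -
      ∑ k ∈ Finset.Icc 1 (nn κ T), ∑ j ∈ nearS ν κ T k,
        (starRingEnd ℂ) (d k) * ec (a / Real.log T) (dl c T) (nn κ T) d j *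
        ((uw (a / Real.log T) ν k j : ℝ) : ℂ) * JJ c a κ T t0 (rr ν k j)‖ ≤ 1 := by
  obtain ⟨Ca, Ta, hCa, hTa, hhor⟩ := ff_hor hRH c a hc hc1 ha
  obtain ⟨CJ, Tb, hCJ, hTb, hJ⟩ := deepJ c a κ hc hc1 ha hκ hκ1
  obtain ⟨CR, Tc, hCR, hTc, hrr⟩ := rho_bound c hc hc1
  obtain ⟨Te, hTe, hgen⟩ := deep_gen c a κ hc hc1 ha hκ hκ1
  set E6 := Real.exp (6 * |ν|) with hE6
  have hE60 : 0 < E6 := Real.exp_pos _
  -- asymptotic facts
  have ev1 : ∀ᶠ T : ℝ in atTop, T ^ (9 : ℝ) * Real.exp (-(1 / 1600) * T ^ κ) <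
      1 / (24 * Real.exp 2 * E6) :=
    (tendsto_pow_exp' 9 (1 / 1600) κ (by norm_num) hκ).eventually_lt_const (by positivity)
  have ev2 : ∀ᶠ T : ℝ in atTop, Ca * (Real.log T) ^ 2 ≤ (1 / 1600) * T ^ κ := by
    have h := isLittleO_log_rpow_atTop (show 0 < κ / 2 by linarith)
    rw [Asymptotics.isLittleO_iff] at h
    have hε : 0 < Real.sqrt (1 / (1600 * Ca)) := Real.sqrt_pos.mpr (by positivity)
    filter_upwards [h hε, eventually_ge_atTop 1] with T hT h1
    rw [Real.norm_of_nonneg (Real.log_nonneg h1),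
      Real.norm_of_nonneg (Real.rpow_nonneg (by linarith) _)] at hT
    have h2 := pow_le_pow_left₀ (Real.log_nonneg h1) hT 2
    rw [mul_pow, Real.sq_sqrt (by positivity), ← Real.rpow_natCast (T ^ (κ / 2)),
      ← Real.rpow_mul (by linarith)] at h2
    have e : κ / 2 * ((2 : ℕ) : ℝ) = κ := by push_cast; ring
    rw [e] at h2
    calc Ca * (Real.log T) ^ 2 ≤ Ca * (1 / (1600 * Ca) * T ^ κ) :=
          mul_le_mul_of_nonneg_left h2 hCa.le
      _ = (1 / 1600) * T ^ κ := by field_simp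
  have ev6 : ∀ᶠ T : ℝ in atTop, Real.log T ≤ T / 40 := by
    have h := Real.isLittleO_log_id_atTop
    rw [Asymptotics.isLittleO_iff] at h
    filter_upwards [h (show (0 : ℝ) < 1 / 40 by norm_num), eventually_ge_atTop 1] with T hT h1
    simp only [id] at hT
    rw [Real.norm_of_nonneg (Real.log_nonneg h1), Real.norm_of_nonneg (by linarith)] at hT
    linarith
  have ev7 : ∀ᶠ T : ℝ in atTop, Real.log T ≤ dd κ T := by
    have h := isLittleO_log_rpow_atTop (show 0 < 1 - κ / 2 by linarith)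
    rw [Asymptotics.isLittleO_iff] at h
    filter_upwards [h (show (0 : ℝ) < 1 by norm_num), eventually_ge_atTop 1] with T hT h1
    rw [Real.norm_of_nonneg (Real.log_nonneg h1),
      Real.norm_of_nonneg (Real.rpow_nonneg (by linarith) _), one_mul] at hT
    exact hT
  have ev8 : ∀ᶠ T : ℝ in atTop, 1 ≤ Real.log T := Real.tendsto_log_atTop.eventually_ge_atTop _
  obtain ⟨Tf, hTf⟩ := eventually_atTop.mp (ev1.and (ev2.and (ev6.and (ev7.and (ev8.and
    ((eventually_ge_atTop Ta).and ((eventually_ge_atTop Tb).and ((eventually_ge_atTop Tc).and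
    ((eventually_ge_atTop (4 * E6)).and (eventually_ge_atTop Te))))))))))
  refine ⟨max Tf 10, le_max_right _ _, ?_⟩
  intro T hT t0 ht1 ht2 d hd
  obtain ⟨f1, f2, f3, f4, f5, f6, f7, f8, f9, f10⟩ := hTf T ((le_max_left _ _).trans hT)
  have hT10 : 10 ≤ T := (le_max_right _ _).trans hT
  obtain ⟨k1, k2, k3, k4, k5, k6, k8, -⟩ := hgen T f10
  have hTpos : 0 < T := by linarith
  have hlog : 0 < Real.log T := by linarith
  have haL0 : 0 < a / Real.log T := by positivity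
  have hD : 0 < dd κ T := by linarith
  have hDK := D2 κ T hTpos
  have hNT : (nn κ T : ℝ) ≤ T := by
    calc (nn κ T : ℝ) ≤ T ^ (1 - κ) := Nat.floor_le (Real.rpow_nonneg hTpos.le _)
      _ ≤ T ^ (1 : ℝ) := Real.rpow_le_rpow_of_exponent_le (by linarith) (by linarith)
      _ = T := Real.rpow_one _
  set U1 := T + 2 * Real.log T with hU1
  set U2 := 2 * T - 2 * Real.log T with hU2
  set D := dd κ T with hDdef
  set N := nn κ T with hNdef
  set a' := a / Real.log T with ha'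
  -- the integrand
  set K : ℂ → ℂ := fun s => phi t0 D (s - (a' : ℝ)) * (DP N d (s - (a' : ℝ)) *
    DPs N d (s - (a' : ℝ))) * ff c T s * cexp ((ν : ℂ) * (s - 1 / 2 - (a' : ℝ))) with hK
  have hKan : AnalyticOnNhd ℂ K (Set.Icc (1 / 2 + a') 6 ×ℂ Set.Icc U1 U2) := by
    intro s hs
    rw [mem_reProdIm] at hs
    obtain ⟨⟨hs1, hs2⟩, hs3, hs4⟩ := hs
    have a1 : AnalyticAt ℂ (fun s : ℂ => s - ((a' : ℝ) : ℂ)) s := by fun_prop
    have a2 : AnalyticAt ℂ (fun s : ℂ => phi t0 D (s - ((a' : ℝ) : ℂ))) s :=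
      AnalyticAt.fun_comp (phi_analytic _ _ _) a1
    have a3 : AnalyticAt ℂ (fun s : ℂ => DP N d (s - ((a' : ℝ) : ℂ))) s :=
      AnalyticAt.fun_comp ((dp_analytic N d).analyticAt _) a1
    have a4 : AnalyticAt ℂ (fun s : ℂ => DPs N d (s - ((a' : ℝ) : ℂ))) s :=
      AnalyticAt.fun_comp ((dps_analytic N d).analyticAt _) a1
    have a5 : AnalyticAt ℂ (fun s : ℂ => cexp ((ν : ℂ) * (s - 1 / 2 - (a' : ℝ)))) s := by
      have : Differentiable ℂ (fun s : ℂ => cexp ((ν : ℂ) * (s - 1 / 2 - (a' : ℝ)))) := by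
        fun_prop
      exact this.analyticAt s
    refine ((a2.mul (a3.mul a4)).mul (hhor T f6 s hs1 hs2 (by linarith) (by linarith)).1).mul a5
  have hrect := SG.rect_zero K (1 / 2 + a') 6 U1 U2 (by linarith) (by linarith) hKan
  -- horizontal sides
  have hhorK : ∀ U : ℝ, (U = U1 ∨ U = U2) → ‖∫ x in (1 / 2 + a')..6, K (⟨x, U⟩ : ℂ)‖ ≤ 1 / 4 := by
    intro U hU
    have hUa : T + 1 ≤ U := by rcases hU with h | h <;> rw [h] <;> linarith
    have hUb : U ≤ 2 * T - 1 := by rcases hU with h | h <;> rw [h] <;> linarith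
    have hUt : (T / 20) ^ 2 ≤ (U - t0) ^ 2 := by
      rcases hU with h | h
      · have h1 : T / 20 ≤ t0 - U := by rw [h, hU1]; linarith
        calc (T / 20) ^ 2 ≤ (t0 - U) ^ 2 := pow_le_pow_left₀ (by positivity) h1 2
          _ = (U - t0) ^ 2 := by ring
      · have h1 : T / 20 ≤ U - t0 := by rw [h, hU2]; linarith
        exact pow_le_pow_left₀ (by positivity) h1 2
    have hb : ∀ x ∈ Set.uIoc (1 / 2 + a') 6, ‖K (⟨x, U⟩ : ℂ)‖ ≤
        (Real.exp 2 * Real.exp (-(1 / 800) * T ^ κ)) * (T ^ 9) *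
          Real.exp (Ca * (Real.log T) ^ 2) * E6 := by
      intro x hx
      rw [uIoc_of_le (by linarith)] at hx
      obtain ⟨hx1, hx2⟩ := hx
      have hre : ((⟨x, U⟩ : ℂ) - (a' : ℝ)).re = x - a' := by simp
      have him : ((⟨x, U⟩ : ℂ) - (a' : ℝ)).im = U := by simp
      have b1 : ‖phi t0 D ((⟨x, U⟩ : ℂ) - (a' : ℝ))‖ ≤
          Real.exp 2 * Real.exp (-(1 / 800) * T ^ κ) := by
        rw [SG.phi_norm _ _ hD, ← Real.exp_add]
        apply Real.exp_le_exp.mpr
        rw [hre, him, div_le_iff₀ (by positivity)]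
        have e : (2 + -(1 / 800) * T ^ κ) * (2 * D ^ 2) = 4 * D ^ 2 - (T / 20) ^ 2 := by
          have : (T / 20) ^ 2 = T ^ 2 / 400 := by ring
          rw [this, ← hDK]
          ring
        rw [e]
        have : (x - a' - 1 / 2) ^ 2 ≤ 4 * D ^ 2 := by
          have h1 : |x - a' - 1 / 2| ≤ 2 * D := by
            rw [abs_le]
            constructor <;> linarith
          calc (x - a' - 1 / 2) ^ 2 = |x - a' - 1 / 2| ^ 2 := (sq_abs _).symm
            _ ≤ (2 * D) ^ 2 := pow_le_pow_left₀ (abs_nonneg _) h1 2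
            _ = _ := by ring
        linarith
      have b2 := norm_dp N d T hd ((⟨x, U⟩ : ℂ) - (a' : ℝ)) (by rw [hre]; linarith)
      have b3 := norm_dps N d T hd ((⟨x, U⟩ : ℂ) - (a' : ℝ)) (by rw [hre]; linarith)
      have b4 := (hhor T f6 (⟨x, U⟩ : ℂ) hx1.le hx2 hUa hUb).2
      have b5 : ‖cexp ((ν : ℂ) * ((⟨x, U⟩ : ℂ) - 1 / 2 - (a' : ℝ)))‖ ≤ E6 := by
        rw [Complex.norm_exp, hE6]
        apply Real.exp_le_exp.mpr
        have e1 : ((ν : ℂ) * ((⟨x, U⟩ : ℂ) - 1 / 2 - (a' : ℝ))).re = ν * (x - 1 / 2 - a') := by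
          rw [Complex.re_ofReal_mul]
          congr 1
          simp
        rw [e1]
        have h1 := le_abs_self ν
        have h2 : 0 ≤ x - 1 / 2 - a' := by linarith
        have h3 : ν * (x - 1 / 2 - a') ≤ |ν| * (x - 1 / 2 - a') :=
          mul_le_mul_of_nonneg_right h1 h2
        have h4 : |ν| * (x - 1 / 2 - a') ≤ |ν| * 6 :=
          mul_le_mul_of_nonneg_left (by linarith) (abs_nonneg ν)
        linarith
      simp only [hK]
      rw [norm_mul, norm_mul, norm_mul, norm_mul]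
      apply mul_le_mul _ b5 (norm_nonneg _) (by positivity)
      apply mul_le_mul _ b4 (norm_nonneg _) (by positivity)
      apply mul_le_mul b1 _ (by positivity) (by positivity)
      calc ‖DP N d ((⟨x, U⟩ : ℂ) - (a' : ℝ))‖ * ‖DPs N d ((⟨x, U⟩ : ℂ) - (a' : ℝ))‖
          ≤ (N * T) * (N * (T * (N : ℝ) ^ 5)) := mul_le_mul b2 b3 (norm_nonneg _) (by positivity)
        _ ≤ (T * T) * (T * (T * T ^ 5)) := by gcongr
        _ = T ^ 9 := by ring
    refine (intervalIntegral.norm_integral_le_of_norm_le_const hb).trans ?_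
    have hlen : |6 - (1 / 2 + a')| ≤ 6 := by
      rw [abs_of_nonneg (by linarith)]
      linarith
    have h9 : T ^ (9 : ℝ) = T ^ 9 := by norm_cast
    rw [h9] at f1
    have hexp : Real.exp (-(1 / 800) * T ^ κ) * Real.exp (Ca * (Real.log T) ^ 2) ≤
        Real.exp (-(1 / 1600) * T ^ κ) := by
      rw [← Real.exp_add]
      apply Real.exp_le_exp.mpr
      linarith
    calc (Real.exp 2 * Real.exp (-(1 / 800) * T ^ κ)) * (T ^ 9) *
          Real.exp (Ca * (Real.log T) ^ 2) * E6 * |6 - (1 / 2 + a')|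
        ≤ (Real.exp 2 * Real.exp (-(1 / 800) * T ^ κ)) * (T ^ 9) *
          Real.exp (Ca * (Real.log T) ^ 2) * E6 * 6 :=
          mul_le_mul_of_nonneg_left hlen (by positivity)
      _ = 6 * Real.exp 2 * E6 * (T ^ 9 * (Real.exp (-(1 / 800) * T ^ κ) *
          Real.exp (Ca * (Real.log T) ^ 2))) := by ring
      _ ≤ 6 * Real.exp 2 * E6 * (T ^ 9 * Real.exp (-(1 / 1600) * T ^ κ)) := by
          apply mul_le_mul_of_nonneg_left _ (by positivity)
          exact mul_le_mul_of_nonneg_left hexp (by positivity)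
      _ ≤ 6 * Real.exp 2 * E6 * (1 / (24 * Real.exp 2 * E6)) :=
          mul_le_mul_of_nonneg_left f1.le (by positivity)
      _ = 1 / 4 := by
          field_simp
          norm_num
  have hb1 := hhorK U1 (Or.inl rfl)
  have hb2 := hhorK U2 (Or.inr rfl)
  unfold SG.rectI at hrect
  have hdiff : I * ((∫ t in U1..U2, K (⟨1 / 2 + a', t⟩ : ℂ)) - ∫ t in U1..U2, K (⟨6, t⟩ : ℂ)) =
      (∫ x in (1 / 2 + a')..6, K (⟨x, U1⟩ : ℂ)) - (∫ x in (1 / 2 + a')..6, K (⟨x, U2⟩ : ℂ)) := by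
    linear_combination -hrect
  have hn : ‖(∫ t in U1..U2, K (⟨1 / 2 + a', t⟩ : ℂ)) - ∫ t in U1..U2, K (⟨6, t⟩ : ℂ)‖ ≤ 1 / 2 := by
    have : ‖I * ((∫ t in U1..U2, K (⟨1 / 2 + a', t⟩ : ℂ)) - ∫ t in U1..U2, K (⟨6, t⟩ : ℂ))‖ =
        ‖(∫ t in U1..U2, K (⟨1 / 2 + a', t⟩ : ℂ)) - ∫ t in U1..U2, K (⟨6, t⟩ : ℂ)‖ := by
      rw [norm_mul, norm_I, one_mul]
    rw [← this, hdiff]
    have := norm_sub_le (∫ x in (1 / 2 + a')..6, K (⟨x, U1⟩ : ℂ))
      (∫ x in (1 / 2 + a')..6, K (⟨x, U2⟩ : ℂ))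
    linarith
  -- the left side
  have hKleft : ∀ t : ℝ, K (⟨1 / 2 + a', t⟩ : ℂ) =
      (wt t0 D t * ‖DP N d (⟨1 / 2, t⟩ : ℂ)‖ ^ 2 : ℝ) * ff c T (⟨1 / 2 + a', t⟩ : ℂ) *
        cexp ((ν : ℂ) * (⟨0, t⟩ : ℂ)) := by
    intro t
    have e0 : (⟨1 / 2 + a', t⟩ : ℂ) - (a' : ℝ) = (⟨1 / 2, t⟩ : ℂ) := by
      apply Complex.ext <;> simp
    have e00 : (⟨1 / 2 + a', t⟩ : ℂ) - 1 / 2 - (a' : ℝ) = (⟨0, t⟩ : ℂ) := by
      apply Complex.ext <;> simp
    simp only [hK]
    rw [e0, e00]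
    congr 2
    have e1 : phi t0 D (⟨1 / 2, t⟩ : ℂ) = ((wt t0 D t : ℝ) : ℂ) := by
      unfold phi wt
      rw [Complex.ofReal_exp]
      congr 1
      have : (⟨1 / 2, t⟩ : ℂ) - 1 / 2 - I * t0 = I * ((t - t0 : ℝ) : ℂ) := by
        apply Complex.ext
        · simp
        · simp
      rw [this]
      push_cast
      rw [mul_pow, I_sq]
      ring
    have e2 : DPs N d (⟨1 / 2, t⟩ : ℂ) = (starRingEnd ℂ) (DP N d (⟨1 / 2, t⟩ : ℂ)) := by
      unfold DPs DP
      rw [map_sum]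
      apply Finset.sum_congr rfl
      intro k hk
      rw [Finset.mem_Icc] at hk
      rw [map_mul]
      congr 1
      have h1 : (k : ℂ).arg ≠ Real.pi := by
        rw [Complex.natCast_arg]
        exact Real.pi_pos.ne
      have h2 := Complex.conj_cpow (k : ℂ) ((starRingEnd ℂ) (-(⟨1 / 2, t⟩ : ℂ))) h1
      rw [Complex.conj_natCast, Complex.conj_conj] at h2
      rw [← h2]
      congr 1
      apply Complex.ext
      · simp
        norm_num
      · simp
    rw [e1, e2, Complex.mul_conj]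
    rw [Complex.normSq_eq_norm_sq]
    push_cast
    ring
  -- the right side
  set A : ℝ → ℂ := fun t => phi t0 D (⟨6 - a', t⟩ : ℂ) * rho c T (⟨6, t⟩ : ℂ) with hA
  set B : ℕ → ℝ → ℂ := fun k t => (starRingEnd ℂ) (d k) * (k : ℂ) ^ ((⟨6, t⟩ : ℂ) - (a' : ℝ) - 1) *
    PPr a' (dl c T) N d (⟨6, t⟩ : ℂ) * cexp ((ν : ℂ) * ((⟨6, t⟩ : ℂ) - 1 / 2 - (a' : ℝ))) with hB
  have hKright : ∀ t ∈ Set.uIcc U1 U2, K (⟨6, t⟩ : ℂ) =
      ∑ k ∈ Finset.Icc 1 N, A t * B k t := by
    intro t ht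
    have e0 : (⟨6, t⟩ : ℂ) - (a' : ℝ) = (⟨6 - a', t⟩ : ℂ) := by
      apply Complex.ext <;> simp
    rw [← Finset.mul_sum]
    simp only [hK, hA, hB]
    rw [ff_eq c T _ (by simp only; norm_num)]
    unfold DPs PPr
    rw [e0, ← Finset.sum_mul, ← Finset.sum_mul]
    ring
  have hcline : Continuous (fun t : ℝ => (⟨6, t⟩ : ℂ)) := by
    have e : (fun t : ℝ => (⟨6, t⟩ : ℂ)) = fun t : ℝ => ((6 : ℝ) : ℂ) + I * (t : ℂ) := by
      funext t
      apply Complex.ext <;> simp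
    rw [e]
    fun_prop
  have hcline' : Continuous (fun t : ℝ => (⟨6 - a', t⟩ : ℂ)) := by
    have e : (fun t : ℝ => (⟨6 - a', t⟩ : ℂ)) = fun t : ℝ => ((6 - a' : ℝ) : ℂ) + I * (t : ℂ) := by
      funext t
      apply Complex.ext <;> simp
    rw [e]
    fun_prop
  have hcphi : ContinuousOn A (Set.uIcc U1 U2) := by
    apply ContinuousOn.mul
    · have hp : Continuous (phi t0 D) :=
        continuous_iff_continuousAt.mpr fun s => (phi_analytic t0 D s).continuousAt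
      exact (hp.comp hcline').continuousOn
    · intro t ht
      rw [uIcc_of_le (by linarith)] at ht
      have h1 := (rho_analytic c T (by linarith) k8 (⟨6, t⟩ : ℂ)
        (by simp only; linarith [ht.1])).continuousAt
      exact (ContinuousAt.comp (f := fun t : ℝ => (⟨6, t⟩ : ℂ)) h1
        hcline.continuousAt).continuousWithinAt
  have hAM : ∀ t ∈ Set.uIcc U1 U2, ‖A t‖ ≤ Real.exp 2 * CR := by
    intro t ht
    rw [uIcc_of_le (by linarith)] at ht
    simp only [hA]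
    rw [norm_mul]
    apply mul_le_mul _ _ (norm_nonneg _) (Real.exp_pos _).le
    · rw [SG.phi_norm _ _ hD]
      apply Real.exp_le_exp.mpr
      simp only
      rw [div_le_iff₀ (by positivity)]
      have q1 : (6 - a' - 1 / 2) ^ 2 ≤ (2 * D) ^ 2 :=
        pow_le_pow_left₀ (by linarith) (by linarith) 2
      have q2 : (2 * D) ^ 2 = 2 * (2 * D ^ 2) := by ring
      have q3 := sq_nonneg (t - t0)
      linarith
    · refine (hrr T f8 (⟨6, t⟩ : ℂ) (by simp only; linarith [ht.1]) (by simp only; linarith [ht.2])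
        ?_).2
      simp only
      rw [abs_of_pos (by norm_num)]
      linarith
  have hPc : ContinuousOn (fun t : ℝ => PPr a' (dl c T) N d (⟨6, t⟩ : ℂ)) (Set.uIcc U1 U2) := by
    intro t _
    have h1 := (PPr_analytic a' (dl c T) N d (⟨6, t⟩ : ℂ) (by simp only; norm_num)).continuousAt
    exact (ContinuousAt.comp (f := fun t : ℝ => (⟨6, t⟩ : ℂ)) h1
      hcline.continuousAt).continuousWithinAt
  have hint : ∀ k ∈ Finset.Icc 1 N, IntervalIntegrable (fun t => A t * B k t) volume U1 U2 := by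
    intro k hk
    apply ContinuousOn.intervalIntegrable
    apply hcphi.mul
    simp only [hB]
    have hk0 : (k : ℂ) ≠ 0 := by
      have := (Finset.mem_Icc.mp hk).1
      exact_mod_cast (by omega : k ≠ 0)
    have h1 : Continuous (fun t : ℝ => (starRingEnd ℂ) (d k) *
        (k : ℂ) ^ ((⟨6, t⟩ : ℂ) - (a' : ℝ) - 1)) := by
      apply Continuous.mul continuous_const
      apply Continuous.const_cpow
      · exact (hcline.sub continuous_const).sub continuous_const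
      · exact Or.inl hk0
    have h2 : Continuous (fun t : ℝ => cexp ((ν : ℂ) * ((⟨6, t⟩ : ℂ) - 1 / 2 - (a' : ℝ)))) := by
      apply Continuous.cexp
      apply Continuous.mul continuous_const
      exact (hcline.sub continuous_const).sub continuous_const
    exact (h1.continuousOn.mul hPc).mul h2.continuousOn
  have hright : ∫ t in U1..U2, K (⟨6, t⟩ : ℂ) =
      ∑ k ∈ Finset.Icc 1 N, ∫ t in U1..U2, A t * B k t := by
    rw [intervalIntegral.integral_congr hKright, intervalIntegral.integral_finsetSum hint]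
  -- far terms
  have hk_close : ∀ k ∈ Finset.Icc 1 N, ‖(∫ t in U1..U2, A t * B k t) -
      ∑ j ∈ nearS ν κ T k, (starRingEnd ℂ) (d k) * ec a' (dl c T) N d j *
        ((uw a' ν k j : ℝ) : ℂ) * JJ c a κ T t0 (rr ν k j)‖ ≤
      T * T * (T ^ 5 * E6) * T ^ (-(21 : ℝ)) * (Real.pi ^ 2 / 6) := by
    intro k hk
    rw [Finset.mem_Icc] at hk
    have hkT : (k : ℝ) ≤ T := le_trans (by exact_mod_cast hk.2) hNT
    have hS := right_sum c a κ ν T t0 (Real.exp 2 * CR) N d hd hT10 haL0.le k5 hNT k6 hcphi hAM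
      hk.1 hk.2
    set g : ℕ → ℂ := fun j => (starRingEnd ℂ) (d k) * ec a' (dl c T) N d j *
        ((uw a' ν k j : ℝ) : ℂ) * JJ c a κ T t0 (rr ν k j) with hg
    have hf : HasSum (fun j : ℕ => if j ∈ nearS ν κ T k then g j else 0)
        (∑ j ∈ nearS ν κ T k, g j) := by
      have h := hasSum_sum_of_ne_finset_zero (L := SummationFilter.unconditional ℕ)
        (f := fun j : ℕ => if j ∈ nearS ν κ T k then g j else 0)
        (s := nearS ν κ T k) (fun b hb => if_neg hb)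
      have e : ∑ j ∈ nearS ν κ T k, (if j ∈ nearS ν κ T k then g j else 0) =
          ∑ j ∈ nearS ν κ T k, g j :=
        Finset.sum_congr rfl fun j hj => if_pos hj
      rwa [e] at h
    have hd1 := hS.sub hf
    have hgb : HasSum (fun j : ℕ => T * T * (T ^ 5 * E6) * T ^ (-(21 : ℝ)) * (1 / (j : ℝ) ^ 2))
        (T * T * (T ^ 5 * E6) * T ^ (-(21 : ℝ)) * (Real.pi ^ 2 / 6)) := hasSum_zeta_two.mul_left _
    have hp21 : 0 < T ^ (-(21 : ℝ)) := Real.rpow_pos_of_pos hTpos _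
    have hb : ∀ j : ℕ, ‖g j - (if j ∈ nearS ν κ T k then g j else 0)‖ ≤
        T * T * (T ^ 5 * E6) * T ^ (-(21 : ℝ)) * (1 / (j : ℝ) ^ 2) := by
      intro j
      by_cases hj : j ∈ nearS ν κ T k
      · rw [if_pos hj, sub_self, norm_zero]
        positivity
      · rw [if_neg hj, sub_zero]
        rcases Nat.eq_zero_or_pos j with hj0 | hj0
        · subst hj0
          simp only [hg]
          rw [ec_zero]
          simp only [mul_zero, zero_mul, norm_zero]
          positivity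
        · have h1 := far_freq ν κ T hT10 hκ1 hk.1 hkT hj0 hj
          have h2 := (hJ T f7 t0 ht1 ht2 (rr ν k j)).2 h1
          have h3 := ec_bound a' (dl c T) T k5 hTpos.le N d hd j
          have h4 := uw_le a' ν T haL0.le k5 hk.1 hkT hj0
          have hj1 : (1 : ℝ) ≤ j := by exact_mod_cast hj0
          simp only [hg]
          rw [norm_mul, norm_mul, norm_mul, RCLike.norm_conj, Complex.norm_real,
            Real.norm_of_nonneg (uw_pos _ _ _ _).le]
          have h5 : ‖d k‖ * ‖ec a' (dl c T) N d j‖ * uw a' ν k j * ‖JJ c a κ T t0 (rr ν k j)‖ ≤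
              T * (T * (j : ℝ) ^ 2) * (T ^ 5 * E6 / (j : ℝ) ^ 6) * T ^ (-(21 : ℝ)) := by
            apply mul_le_mul _ h2 (norm_nonneg _) (by positivity)
            apply mul_le_mul _ h4 (uw_pos _ _ _ _).le (by positivity)
            exact mul_le_mul (hd k) h3 (norm_nonneg _) hTpos.le
          refine h5.trans ?_
          have h6 : T * (T * (j : ℝ) ^ 2) * (T ^ 5 * E6 / (j : ℝ) ^ 6) * T ^ (-(21 : ℝ)) =
              (T * T * (T ^ 5 * E6) * T ^ (-(21 : ℝ))) * (1 / (j : ℝ) ^ 4) := by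
            field_simp
          rw [h6]
          apply mul_le_mul_of_nonneg_left _ (by positivity)
          apply one_div_le_one_div_of_le (by positivity)
          exact pow_le_pow_right₀ hj1 (by norm_num)
    rw [← hd1.tsum_eq]
    exact tsum_of_norm_bounded hgb hb
  have hleft : (∫ t in U1..U2, (wt t0 D t * ‖DP N d (⟨1 / 2, t⟩ : ℂ)‖ ^ 2 : ℝ) *
      ff c T (⟨1 / 2 + a', t⟩ : ℂ) * cexp ((ν : ℂ) * (⟨0, t⟩ : ℂ))) =
      ∫ t in U1..U2, K (⟨1 / 2 + a', t⟩ : ℂ) := by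
    apply intervalIntegral.integral_congr
    intro t _
    exact (hKleft t).symm
  rw [hleft]
  have hsumclose : ‖(∫ t in U1..U2, K (⟨6, t⟩ : ℂ)) - ∑ k ∈ Finset.Icc 1 N, ∑ j ∈ nearS ν κ T k,
        (starRingEnd ℂ) (d k) * ec a' (dl c T) N d j *
        ((uw a' ν k j : ℝ) : ℂ) * JJ c a κ T t0 (rr ν k j)‖ ≤ 1 / 2 := by
    rw [hright, ← Finset.sum_sub_distrib]
    refine (norm_sum_le_of_le _ hk_close).trans ?_
    rw [Finset.sum_const, nsmul_eq_mul, Nat.card_Icc, Nat.add_sub_cancel]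
    have hpi : Real.pi ^ 2 / 6 ≤ 2 := pi_sq_le
    have e21 : T ^ (-(21 : ℝ)) = 1 / T ^ 21 := by
      rw [Real.rpow_neg hTpos.le, one_div]
      norm_cast
    rw [e21]
    calc (N : ℝ) * (T * T * (T ^ 5 * E6) * (1 / T ^ 21) * (Real.pi ^ 2 / 6)) ≤
          T * (T * T * (T ^ 5 * (T / 4)) * (1 / T ^ 21) * 2) := by
          gcongr
          linarith
      _ = 1 / (2 * T ^ 12) := by
          field_simp
          norm_num
      _ ≤ 1 / 2 := by
          apply one_div_le_one_div_of_le (by norm_num)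
          have : (1 : ℝ) ≤ T ^ 12 := one_le_pow₀ (by linarith)
          linarith
  calc _ ≤ ‖(∫ t in U1..U2, K (⟨1 / 2 + a', t⟩ : ℂ)) - ∫ t in U1..U2, K (⟨6, t⟩ : ℂ)‖ +
        ‖(∫ t in U1..U2, K (⟨6, t⟩ : ℂ)) - ∑ k ∈ Finset.Icc 1 N, ∑ j ∈ nearS ν κ T k,
        (starRingEnd ℂ) (d k) * ec a' (dl c T) N d j *
        ((uw a' ν k j : ℝ) : ℂ) * JJ c a κ T t0 (rr ν k j)‖ :=
        norm_sub_le_norm_sub_add_norm_sub _ _ _
    _ ≤ 1 := by linarith

end Helper89G
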