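import Pool.Agent.Helper89G.SG3
import Pool.Agent.H382P.DpId
import Pool.Agent.H510R2.Div

/-! Coefficients: bounds and the exceptional pairs. -/

open Complex Filter Topology Set MeasureTheory

namespace Helper89G

open SP SP.DeepAux SP.EvalAux SG.Deep SP.DpAux
open SG (phi hh nn dd dl)

lemma fm_card (δ : ℝ) (m : ℕ) : ‖fm δ m‖ ≤ (m.divisors.card : ℝ) := by
  rw [fm]
  calc ‖∑ x ∈ m.divisors, (x : ℂ) ^ (hh δ) * ((ArithmeticFunction.moebius (m / x) : ℤ) : ℂ) *
      ((m / x : ℕ) : ℂ) ^ (-(hh δ))‖ ≤ ∑ x ∈ m.divisors, (1 : ℝ) := by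
        apply norm_sum_le_of_le
        intro x hx
        have hx0 : 0 < x := Nat.pos_of_mem_divisors hx
        have hm0 : 0 < m / x := Nat.div_pos (Nat.divisor_le hx) hx0
        rw [norm_mul, norm_mul, fm_norm_pow δ hx0, fm_norm_pow_neg δ hm0, one_mul, mul_one]
        have h1 : |ArithmeticFunction.moebius (m / x)| ≤ 1 := ArithmeticFunction.abs_moebius_le_one
        rw [Complex.norm_intCast]
        exact_mod_cast h1
    _ = (m.divisors.card : ℝ) := by simp

/-- multiplicativity of `fm` -/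
lemma fm_mul (δ : ℝ) {m n : ℕ} (hm : m ≠ 0) (hn : n ≠ 0) (hmn : Nat.Coprime m n) :
    fm δ (m * n) = fm δ m * fm δ n := by
  set F : ArithmeticFunction ℂ := ⟨fun n => if n = 0 then 0 else (n : ℂ) ^ (hh δ), by simp⟩ with hF
  set G : ArithmeticFunction ℂ := ⟨fun n => if n = 0 then 0 else
    ((ArithmeticFunction.moebius n : ℤ) : ℂ) * (n : ℂ) ^ (-(hh δ)), by simp⟩ with hG
  have hFv : ∀ n, F n = if n = 0 then 0 else (n : ℂ) ^ (hh δ) := fun n => rfl
  have hGv : ∀ n, G n = if n = 0 then 0 else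
    ((ArithmeticFunction.moebius n : ℤ) : ℂ) * (n : ℂ) ^ (-(hh δ)) := fun n => rfl
  have hFm : F.IsMultiplicative := by
    refine ArithmeticFunction.IsMultiplicative.iff_ne_zero.mpr ⟨?_, ?_⟩
    · rw [hFv]; simp
    · intro a b ha hb _
      rw [hFv, hFv, hFv, if_neg ha, if_neg hb, if_neg (mul_ne_zero ha hb)]
      push_cast
      rw [Complex.natCast_mul_natCast_cpow]
  have hGm : G.IsMultiplicative := by
    refine ArithmeticFunction.IsMultiplicative.iff_ne_zero.mpr ⟨?_, ?_⟩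
    · rw [hGv]; simp
    · intro a b ha hb hab
      rw [hGv, hGv, hGv, if_neg ha, if_neg hb, if_neg (mul_ne_zero ha hb),
        ArithmeticFunction.isMultiplicative_moebius.map_mul_of_coprime hab]
      push_cast
      rw [Complex.natCast_mul_natCast_cpow]
      ring
  have hval : ∀ q : ℕ, q ≠ 0 → (F * G) q = fm δ q := by
    intro q hq
    rw [ArithmeticFunction.mul_apply, fm]
    rw [← Nat.sum_divisorsAntidiagonal (fun a b : ℕ => (a : ℂ) ^ (hh δ) *
      ((ArithmeticFunction.moebius b : ℤ) : ℂ) * ((b : ℕ) : ℂ) ^ (-(hh δ))) (n := q)]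
    apply Finset.sum_congr rfl
    intro p hp
    rw [Nat.mem_divisorsAntidiagonal] at hp
    have h1 : p.1 ≠ 0 := by
      rintro h0
      rw [h0, zero_mul] at hp
      exact hp.2 hp.1.symm
    have h2 : p.2 ≠ 0 := by
      rintro h0
      rw [h0, mul_zero] at hp
      exact hp.2 hp.1.symm
    rw [hFv, hGv, if_neg h1, if_neg h2]
    ring
  rw [← hval _ (mul_ne_zero hm hn), ← hval _ hm, ← hval _ hn]
  exact (hFm.mul hGm).map_mul_of_coprime hmn

/-- `fm` is small at a fixed integer -/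
lemma fm_small (m : ℕ) (hm : 2 ≤ m) : ∃ C : ℝ, 0 < C ∧ ∀ δ : ℝ, ‖fm δ m‖ ≤ C * |δ| := by
  refine ⟨∑ x ∈ m.divisors, (1 + |Real.log x - Real.log ((m / x : ℕ) : ℝ)|), ?_, ?_⟩
  · apply Finset.sum_pos
    · intro x _
      have := abs_nonneg (Real.log x - Real.log ((m / x : ℕ) : ℝ))
      linarith
    · exact ⟨1, Nat.one_mem_divisors.mpr (by omega)⟩
  intro δ
  have h0 : ∑ x ∈ m.divisors, ((ArithmeticFunction.moebius (m / x) : ℤ) : ℂ) = 0 := by
    have h1 : ∑ x ∈ m.divisors, ArithmeticFunction.moebius x = 0 := by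
      have := ArithmeticFunction.coe_zeta_mul_apply (f := ArithmeticFunction.moebius) (x := m)
      rw [ArithmeticFunction.coe_zeta_mul_moebius] at this
      rw [← this, ArithmeticFunction.one_apply_ne (by omega)]
    have h2 : ∑ x ∈ m.divisors, ArithmeticFunction.moebius (m / x) = 0 := by
      rw [Nat.sum_div_divisors m (fun x => ArithmeticFunction.moebius x)]
      exact h1
    exact_mod_cast h2
  rw [fm, ← sub_zero (∑ x ∈ m.divisors, _), ← h0, ← Finset.sum_sub_distrib, Finset.sum_mul]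
  apply norm_sum_le_of_le
  intro x hx
  have hx0 : 0 < x := Nat.pos_of_mem_divisors hx
  have hm0 : 0 < m / x := Nat.div_pos (Nat.divisor_le hx) hx0
  have hxc : (x : ℂ) ≠ 0 := by exact_mod_cast hx0.ne'
  have hmc : ((m / x : ℕ) : ℂ) ≠ 0 := by exact_mod_cast hm0.ne'
  have e1 : (x : ℂ) ^ (hh δ) * ((ArithmeticFunction.moebius (m / x) : ℤ) : ℂ) *
      ((m / x : ℕ) : ℂ) ^ (-(hh δ)) - ((ArithmeticFunction.moebius (m / x) : ℤ) : ℂ) =
      ((ArithmeticFunction.moebius (m / x) : ℤ) : ℂ) *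
      (cexp (I * ((δ / 2 * (Real.log x - Real.log ((m / x : ℕ) : ℝ)) : ℝ) : ℂ)) - 1) := by
    rw [Complex.cpow_def_of_ne_zero hxc, Complex.cpow_def_of_ne_zero hmc, ← Complex.natCast_log,
      ← Complex.natCast_log]
    have e2 : I * ((δ / 2 * (Real.log x - Real.log ((m / x : ℕ) : ℝ)) : ℝ) : ℂ) =
      ((Real.log x : ℝ) : ℂ) * hh δ + ((Real.log ((m / x : ℕ) : ℝ) : ℝ) : ℂ) * (-(hh δ)) := by
      unfold hh
      push_cast
      ring
    rw [e2, Complex.exp_add]
    ring
  rw [e1, norm_mul]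
  have h1 : |ArithmeticFunction.moebius (m / x)| ≤ 1 := ArithmeticFunction.abs_moebius_le_one
  have h2 : ‖((ArithmeticFunction.moebius (m / x) : ℤ) : ℂ)‖ ≤ 1 := by
    rw [Complex.norm_intCast]
    exact_mod_cast h1
  have h3 := Real.norm_exp_I_mul_ofReal_sub_one_le
    (x := δ / 2 * (Real.log x - Real.log ((m / x : ℕ) : ℝ)))
  rw [Real.norm_eq_abs, abs_mul, abs_div, abs_of_pos (show (0 : ℝ) < 2 by norm_num)] at h3
  calc _ ≤ 1 * (|δ| / 2 * |Real.log x - Real.log ((m / x : ℕ) : ℝ)|) :=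
        mul_le_mul h2 h3 (norm_nonneg _) (by norm_num)
    _ ≤ (1 + |Real.log x - Real.log ((m / x : ℕ) : ℝ)|) * |δ| := by
        have h4 := abs_nonneg δ
        have h5 := abs_nonneg (Real.log x - Real.log ((m / x : ℕ) : ℝ))
        have h6 : 0 ≤ |δ| * |Real.log x - Real.log ((m / x : ℕ) : ℝ)| := by positivity
        nlinarith

/-- bound for the coefficients of the detector -/
lemma dco_le (P : Par) : ∃ T0 : ℝ, 10 ≤ T0 ∧ ∀ T : ℝ, T0 ≤ T → ∀ n, ‖dco P T n‖ ≤ 2 ^ P.B := by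
  obtain ⟨C, T1, hC, hT1, hchi⟩ := chi_approx P
  refine ⟨T1, hT1, ?_⟩
  intro T hT n
  obtain ⟨hc, -⟩ := hchi T hT
  by_cases h : Squarefree n ∧ n.primeFactors ⊆ PS P T ∧ ∑ p ∈ n.primeFactors, Eb P T p ≤ P.B
  · unfold dco
    rw [if_pos h, norm_prod]
    have h1 : ∀ p ∈ n.primeFactors, ‖-(chi P T p : ℂ) * (p : ℂ) ^ (hh (dl P.c T))‖ ≤ 2 := by
      intro p hp
      have hps := h.2.1 hp
      have hp0 : 0 < p := (prime_of_PS hps).pos
      rw [norm_mul, norm_neg, Complex.norm_real, Real.norm_eq_abs]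
      have h2 : ‖(p : ℂ) ^ (hh (dl P.c T))‖ = 1 := by
        rw [Complex.norm_natCast_cpow_of_pos hp0]
        simp [hh]
      rw [h2, mul_one]
      exact (hc p hps).2.2
    calc ∏ p ∈ n.primeFactors, ‖-(chi P T p : ℂ) * (p : ℂ) ^ (hh (dl P.c T))‖ ≤
          ∏ p ∈ n.primeFactors, (2 : ℝ) := Finset.prod_le_prod (fun _ _ => norm_nonneg _) h1
      _ = 2 ^ n.primeFactors.card := by rw [Finset.prod_const]
      _ ≤ 2 ^ P.B := by
          apply pow_le_pow_right₀ (by norm_num)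
          calc n.primeFactors.card = ∑ p ∈ n.primeFactors, 1 := by simp
            _ ≤ ∑ p ∈ n.primeFactors, Eb P T p := by
                apply Finset.sum_le_sum
                intro p hp
                have := h.2.1 hp
                rw [PS, Finset.mem_filter] at this
                omega
            _ ≤ P.B := h.2.2
  · rw [dco_zero P T n h, norm_zero]
    positivity

/-- bound for the coefficients of the product -/
lemma ec_le (a' δ T R : ℝ) (hT : 1 ≤ T) (ha0 : 0 ≤ a') (haT : T ^ a' ≤ R) (N : ℕ)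
    (hNT : (N : ℝ) ≤ T) (d : ℕ → ℂ) (Q : ℝ) (hd : ∀ n, ‖d n‖ ≤ Q) (j : ℕ) :
    ‖ec a' δ N d j‖ ≤ Q * R * (j.divisors.card : ℝ) ^ 2 := by
  have hQ : 0 ≤ Q := (norm_nonneg _).trans (hd 0)
  have hR : 0 ≤ R := (Real.rpow_nonneg (by linarith) _).trans haT
  unfold ec
  calc ‖∑ x ∈ j.divisors.filter (fun x => x ≤ N), d x * (x : ℂ) ^ (a' : ℂ) * fm δ (j / x)‖
      ≤ ∑ x ∈ j.divisors.filter (fun x => x ≤ N), Q * R * (j.divisors.card : ℝ) := by
        apply norm_sum_le_of_le
        intro x hx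
        rw [Finset.mem_filter] at hx
        have hx0 : 0 < x := Nat.pos_of_mem_divisors hx.1
        have hxj : x ∣ j := Nat.dvd_of_mem_divisors hx.1
        have hj0 : j ≠ 0 := (Nat.mem_divisors.mp hx.1).2
        rw [norm_mul, norm_mul, Complex.norm_natCast_cpow_of_pos hx0, Complex.ofReal_re]
        have hx1 : (1 : ℝ) ≤ x := by exact_mod_cast hx0
        have hxT : (x : ℝ) ≤ T := le_trans (by exact_mod_cast hx.2) hNT
        have h1 : (x : ℝ) ^ a' ≤ R :=
          (Real.rpow_le_rpow (by linarith) hxT ha0).trans haT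
        have h2 : ‖fm δ (j / x)‖ ≤ (j.divisors.card : ℝ) := by
          refine (fm_card δ _).trans ?_
          exact_mod_cast Finset.card_le_card
            (Nat.divisors_subset_of_dvd hj0 (Nat.div_dvd_of_dvd hxj))
        apply mul_le_mul _ h2 (norm_nonneg _) (by positivity)
        exact mul_le_mul (hd x) h1 (by positivity) hQ
    _ = (j.divisors.filter (fun x => x ≤ N)).card * (Q * R * (j.divisors.card : ℝ)) := by
        rw [Finset.sum_const, nsmul_eq_mul]
    _ ≤ j.divisors.card * (Q * R * (j.divisors.card : ℝ)) := by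
        apply mul_le_mul_of_nonneg_right _ (by positivity)
        exact_mod_cast Finset.card_filter_le _ _
    _ = _ := by ring

/-- coefficient of the product at a multiple by a fixed integer -/
lemma ec_mul (P : Par) (T a' : ℝ) (m0 : ℕ) (hm0 : 1 ≤ m0)
    (hbig : ∀ p ∈ PS P T, m0 < p) {k : ℕ} (hk : 1 ≤ k) (hkN : k ≤ nn P.κ T)
    (hsup : dco P T k ≠ 0) :
    ec a' (dl P.c T) (nn P.κ T) (dco P T) (m0 * k) =
      fm (dl P.c T) m0 * ∑ x ∈ k.divisors, dco P T x * (x : ℂ) ^ (a' : ℂ) *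
        fm (dl P.c T) (k / x) := by
  classical
  have hcopP : ∀ x : ℕ, x ≠ 0 → x.primeFactors ⊆ PS P T → Nat.Coprime m0 x := by
    intro x hx0 hx
    apply Nat.coprime_of_dvd
    intro p hp h1 h2
    have h3 : p ∈ PS P T := hx (Nat.mem_primeFactors.mpr ⟨hp, h2, hx0⟩)
    have h4 := hbig p h3
    have h5 := Nat.le_of_dvd (by omega) h1
    omega
  have hks : Squarefree k ∧ k.primeFactors ⊆ PS P T ∧ ∑ p ∈ k.primeFactors, Eb P T p ≤ P.B := by
    by_contra hcon
    exact hsup (dco_zero P T k hcon)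
  unfold ec
  rw [Finset.mul_sum]
  have hsub : k.divisors ⊆ (m0 * k).divisors.filter (fun x => x ≤ nn P.κ T) := by
    intro x hx
    rw [Finset.mem_filter, Nat.mem_divisors]
    rw [Nat.mem_divisors] at hx
    refine ⟨⟨hx.1.mul_left m0, by positivity⟩, (Nat.le_of_dvd (by omega) hx.1).trans hkN⟩
  rw [← Finset.sum_subset hsub]
  · apply Finset.sum_congr rfl
    intro x hx
    rw [Nat.mem_divisors] at hx
    have hx0 : 0 < x := Nat.pos_of_dvd_of_pos hx.1 (by omega)
    have e1 : m0 * k / x = m0 * (k / x) := Nat.mul_div_assoc m0 hx.1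
    have hkx : k / x ≠ 0 := (Nat.div_pos (Nat.le_of_dvd (by omega) hx.1) hx0).ne'
    have hdvd : k / x ∣ k := Nat.div_dvd_of_dvd hx.1
    rw [e1, fm_mul (dl P.c T) (by omega) hkx
      (hcopP _ hkx ((Nat.primeFactors_mono hdvd (by omega)).trans hks.2.1))]
    ring
  · intro x hx hnx
    rw [Finset.mem_filter, Nat.mem_divisors] at hx
    have hx0 : x ≠ 0 := by
      rintro rfl
      have := hx.1.1
      rw [zero_dvd_iff] at this
      exact hx.1.2 this
    have : dco P T x = 0 := by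
      apply dco_zero
      rintro ⟨h1, h2, h3⟩
      apply hnx
      rw [Nat.mem_divisors]
      refine ⟨?_, by omega⟩
      exact ((hcopP x hx0 h2).symm).dvd_of_dvd_mul_left hx.1.1
    rw [this, zero_mul, zero_mul]

end Helper89G
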