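import Pool.Agent.Helper89G.SG4
import Pool.Agent.Helper89G.Frac
import Pool.Agent.H382P.TT

/-! Twisted mean value of the detector. -/

open Complex Filter Topology Set MeasureTheory

namespace Helper89G

open SP SP.DeepAux SP.EvalAux SG.Deep SP.DpAux
open SG (phi hh nn dd dl)

lemma isolated (ν : ℝ) : ∃ ω : ℝ, 0 < ω ∧ ∀ m : ℕ, 1 ≤ m → |ν - Real.log m| < ω →
    ν = Real.log m := by
  classical
  obtain ⟨M, hM⟩ := exists_nat_ge (Real.exp (ν + 1))
  set S := (Finset.Icc 1 M).filter (fun m : ℕ => ν ≠ Real.log m) with hS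
  have hlarge : ∀ m : ℕ, 1 ≤ m → |ν - Real.log m| < 1 → m ≤ M := by
    intro m hm h
    have h1 : Real.log m < ν + 1 := by
      rw [abs_lt] at h
      linarith
    have hm0 : (0 : ℝ) < m := by exact_mod_cast hm
    have h2 : (m : ℝ) < Real.exp (ν + 1) := (Real.log_lt_iff_lt_exp hm0).mp h1
    have h3 : (m : ℝ) < M := lt_of_lt_of_le h2 hM
    exact_mod_cast h3.le
  rcases S.eq_empty_or_nonempty with he | hne
  · refine ⟨1, one_pos, fun m hm h => ?_⟩
    by_contra hcon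
    have : m ∈ S := by
      rw [hS, Finset.mem_filter, Finset.mem_Icc]
      exact ⟨⟨hm, hlarge m hm h⟩, hcon⟩
    rw [he] at this
    simp at this
  · obtain ⟨m1, hm1, hmin⟩ := Finset.exists_min_image S (fun m : ℕ => |ν - Real.log m|) hne
    have hpos : 0 < |ν - Real.log m1| := by
      rw [hS, Finset.mem_filter] at hm1
      exact abs_pos.mpr (sub_ne_zero.mpr hm1.2)
    refine ⟨min 1 |ν - Real.log m1|, lt_min one_pos hpos, fun m hm h => ?_⟩
    by_contra hcon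
    have hmS : m ∈ S := by
      rw [hS, Finset.mem_filter, Finset.mem_Icc]
      exact ⟨⟨hm, hlarge m hm (lt_of_lt_of_le h (min_le_left _ _))⟩, hcon⟩
    have h1 := hmin m hmS
    have h2 := lt_of_lt_of_le h (min_le_right _ _)
    linarith

lemma near_ratio (ν ρ : ℝ) (hρ : ρ ≤ 1) {k j : ℕ} (hk : 1 ≤ k) (hj : 1 ≤ j)
    (h : |rr ν k j| < ρ) : |(j : ℝ) / k - Real.exp ν| ≤ 2 * Real.exp ν * ρ := by
  have hk0 : (0 : ℝ) < k := by exact_mod_cast hk
  have hj0 : (0 : ℝ) < j := by exact_mod_cast hj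
  have e1 : (j : ℝ) / k = Real.exp ν * Real.exp (-rr ν k j) := by
    unfold rr
    rw [← Real.exp_add, show ν + -(Real.log k - Real.log j + ν) = Real.log j - Real.log k by ring,
      Real.exp_sub, Real.exp_log hj0, Real.exp_log hk0]
  have e2 : (j : ℝ) / k - Real.exp ν = Real.exp ν * (Real.exp (-rr ν k j) - 1) := by
    rw [e1]; ring
  have h1 := Real.abs_exp_sub_one_le (x := -rr ν k j) (by rw [abs_neg]; linarith)
  rw [abs_neg] at h1
  rw [e2, abs_mul, abs_of_pos (Real.exp_pos ν)]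
  have := Real.exp_pos ν
  nlinarith

lemma uw_near (a' ν : ℝ) (ha0 : 0 ≤ a') (ha1 : a' ≤ 1) {k j : ℕ} (hk : 1 ≤ k)
    (h : |rr ν k j| ≤ 1) : uw a' ν k j ≤ Real.exp (6 + 2 * |ν|) * (1 / (k : ℝ)) := by
  have hk0 : (0 : ℝ) < k := by exact_mod_cast hk
  have hk1 : (1 : ℝ) ≤ k := by exact_mod_cast hk
  rw [uw_eq]
  have h0 : 0 ≤ Real.log k := Real.log_nonneg hk1
  have h1 : Real.exp (-(1 + a') * Real.log k) ≤ 1 / (k : ℝ) := by
    have e : 1 / (k : ℝ) = Real.exp (-Real.log k) := by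
      rw [Real.exp_neg, Real.exp_log hk0, one_div]
    rw [e]
    apply Real.exp_le_exp.mpr
    nlinarith
  have h2 : Real.exp (6 * rr ν k j) * Real.exp (-ν * (1 / 2 + a')) ≤ Real.exp (6 + 2 * |ν|) := by
    rw [← Real.exp_add]
    apply Real.exp_le_exp.mpr
    have h3 := (abs_le.mp h).2
    have h4 := neg_abs_le ν
    have h5 := abs_nonneg ν
    have h6 : -ν * (1 / 2 + a') ≤ |ν| * (1 / 2 + a') :=
      mul_le_mul_of_nonneg_right (by linarith) (by linarith)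
    nlinarith
  calc Real.exp (-(1 + a') * Real.log k) * Real.exp (6 * rr ν k j) *
      Real.exp (-ν * (1 / 2 + a')) = Real.exp (-(1 + a') * Real.log k) *
      (Real.exp (6 * rr ν k j) * Real.exp (-ν * (1 / 2 + a'))) := by ring
    _ ≤ 1 / (k : ℝ) * Real.exp (6 + 2 * |ν|) :=
        mul_le_mul h1 h2 (by positivity) (by positivity)
    _ = _ := by ring

/-- sum over the pairs which are not exceptional -/
lemma nonexc (P : Par) (ν : ℝ) : ∃ K T0 : ℝ, 0 < K ∧ 10 ≤ T0 ∧ ∀ T : ℝ, T0 ≤ T →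
    ∑ k ∈ Finset.Icc 1 (nn P.κ T), ∑ j ∈ (nearS ν P.κ T k).filter (fun j => ¬ k ∣ j),
      ‖dco P T k‖ * ‖ec (P.a / Real.log T) (dl P.c T) (nn P.κ T) (dco P T) j‖ *
        uw (P.a / Real.log T) ν k j ≤ K / Real.log T := by
  classical
  have hκ := P.hκ
  have hκ1 := P.hκ1
  have ha := P.ha
  have ha1 := P.ha1
  have hB0 : (0 : ℝ) < P.B := by
    have := P.hB
    exact_mod_cast (by omega : 0 < P.B)
  obtain ⟨T1, hT1, hdle⟩ := dco_le P
  set Q : ℝ := 2 ^ P.B with hQ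
  have hQ0 : 0 < Q := by positivity
  set e0 : ℝ := min (P.κ / 4) ((1 - P.κ) / P.B) / 4 with he0
  have he00 : 0 < e0 := by
    rw [he0]
    have : 0 < min (P.κ / 4) ((1 - P.κ) / P.B) := lt_min (by positivity)
      (div_pos (by linarith) hB0)
    positivity
  have he01 : 4 * e0 ≤ P.κ / 4 := by
    rw [he0]
    have := min_le_left (P.κ / 4) ((1 - P.κ) / P.B)
    linarith
  have he02 : 4 * e0 ≤ (1 - P.κ) / P.B := by
    rw [he0]
    have := min_le_right (P.κ / 4) ((1 - P.κ) / P.B)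
    linarith
  obtain ⟨Cd, hCd, hdiv⟩ := Pool.Agent.H510R2.divisor_bound e0 he00
  set K1 : ℝ := Q * (Q * Real.exp 1 * (Cd ^ 2 * (Real.exp (|ν| + 1)) ^ (2 * e0))) *
    Real.exp (6 + 2 * |ν|) with hK1
  have hK10 : 0 < K1 := by positivity
  set K2 : ℝ := 4 * Real.exp ν + 1 with hK2
  have hK20 : 0 < K2 := by positivity
  have ev1 : ∀ᶠ T : ℝ in atTop, (1 + Real.log T) ≤ T ^ e0 := by
    have h := isLittleO_log_rpow_atTop he00
    rw [Asymptotics.isLittleO_iff] at h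
    have h2 := (tendsto_rpow_atTop he00).eventually_ge_atTop 2
    filter_upwards [h (show (0 : ℝ) < 1 / 2 by norm_num), h2, eventually_ge_atTop 1]
      with T hT h3 h1
    rw [Real.norm_of_nonneg (Real.log_nonneg h1),
      Real.norm_of_nonneg (Real.rpow_nonneg (by linarith) _)] at hT
    linarith
  have ev2 : ∀ᶠ T : ℝ in atTop, 1 ≤ Real.log T := Real.tendsto_log_atTop.eventually_ge_atTop _
  obtain ⟨T2, hT2⟩ := (ev1.and ev2).exists_forall_of_atTop
  refine ⟨K1 * K2, max T1 (max T2 10), by positivity, hT1.trans (le_max_left _ _), ?_⟩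
  intro T hT
  simp only [max_le_iff] at hT
  obtain ⟨t1, t2, hT10⟩ := hT
  obtain ⟨g1, g2⟩ := hT2 T t2
  have hT0 : 0 < T := by linarith
  have hT1' : 1 ≤ T := by linarith
  set L := Real.log T with hL
  have hL0 : 0 < L := by linarith
  set a' := P.a / L with ha'
  have ha'0 : 0 ≤ a' := by positivity
  have ha'1 : a' ≤ 1 := by
    rw [ha', div_le_one hL0]
    linarith
  have haT : T ^ a' ≤ Real.exp 1 := by
    rw [Real.rpow_def_of_pos hT0]
    apply Real.exp_le_exp.mpr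
    rw [← hL, ha']
    have : L * (P.a / L) = P.a := by field_simp
    rw [this]
    exact ha1
  have hNle : (nn P.κ T : ℝ) ≤ T ^ (1 - P.κ) := Nat.floor_le (Real.rpow_nonneg hT0.le _)
  have hXT : T ^ (1 - P.κ) ≤ T := by
    calc T ^ (1 - P.κ) ≤ T ^ (1 : ℝ) :=
          Real.rpow_le_rpow_of_exponent_le hT1' (by linarith)
      _ = T := Real.rpow_one _
  have hNT : (nn P.κ T : ℝ) ≤ T := hNle.trans hXT
  set ρ := T ^ (3 * P.κ / 4 - 1) with hρ
  have hρ0 : 0 < ρ := Real.rpow_pos_of_pos hT0 _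
  have hρ1 : ρ ≤ 1 := Real.rpow_le_one_of_one_le_of_nonpos hT1' (by linarith)
  -- the set of pairs
  set Sg : Finset (Σ _ : ℕ, ℕ) := (Finset.Icc 1 (nn P.κ T)).sigma
    (fun k => ((nearS ν P.κ T k).filter (fun j => ¬ k ∣ j)).filter (fun _ => dco P T k ≠ 0))
    with hSg
  set S : Finset (ℕ × ℕ) := Sg.image (fun q => (q.2, q.1)) with hS
  have hmem : ∀ q ∈ Sg, 1 ≤ q.1 ∧ q.1 ≤ nn P.κ T ∧ 1 ≤ q.2 ∧ (q.2 : ℝ) ≤ Real.exp (|ν| + 1) * T ∧
      |rr ν q.1 q.2| < ρ ∧ ¬ q.1 ∣ q.2 ∧ dco P T q.1 ≠ 0 := by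
    intro q hq
    rw [hSg, Finset.mem_sigma, Finset.mem_filter, Finset.mem_filter, nearS, Finset.mem_filter,
      Finset.mem_Icc, Finset.mem_Icc] at hq
    obtain ⟨⟨q1, q2⟩, ⟨⟨⟨q3, q4⟩, q5⟩, q6⟩, q7⟩ := hq
    refine ⟨q1, q2, q3, ?_, q5, q6, q7⟩
    exact (Nat.le_floor_iff (by positivity)).mp q4
  have hfrac := frac_sum' S (Real.exp ν) (2 * Real.exp ν * ρ) (T ^ (1 - P.κ))
    (T ^ ((1 - P.κ) / P.B)) (by positivity) (Real.one_le_rpow hT1' (by linarith))
    (Real.rpow_pos_of_pos hT0 _) (by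
      intro p hp
      rw [hS, Finset.mem_image] at hp
      obtain ⟨q, hq, rfl⟩ := hp
      obtain ⟨q1, q2, q3, q4, q5, q6, q7⟩ := hmem q hq
      refine ⟨q1, le_trans (by exact_mod_cast q2) hNle, ?_, near_ratio ν ρ hρ1 q1 q3 q5⟩
      simp only
      have hg : Nat.gcd q.2 q.1 ∣ q.1 := Nat.gcd_dvd_right _ _
      have hgpos : 0 < Nat.gcd q.2 q.1 := Nat.gcd_pos_of_pos_right _ q1
      have hne : q.1 / Nat.gcd q.2 q.1 ≠ 1 := by
        intro h1
        have h2 := Nat.div_mul_cancel hg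
        rw [h1, one_mul] at h2
        apply q6
        rw [← h2]
        exact Nat.gcd_dvd_left _ _
      obtain ⟨p, hp, hpd⟩ := Nat.exists_prime_and_dvd hne
      have hpk : p ∣ q.1 := hpd.trans (Nat.div_dvd_of_dvd hg)
      have hks : Squarefree q.1 ∧ q.1.primeFactors ⊆ PS P T ∧
          ∑ p ∈ q.1.primeFactors, Eb P T p ≤ P.B := by
        by_contra hcon
        exact q7 (dco_zero P T q.1 hcon)
      have hpPS : p ∈ PS P T := hks.2.1 (Nat.mem_primeFactors.mpr ⟨hp, hpk, by omega⟩)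
      have h3 := SP.TTAux.lower P T hT10 p hpPS
      refine h3.trans ?_
      have h4 : p ≤ q.1 / Nat.gcd q.2 q.1 :=
        Nat.le_of_dvd (Nat.div_pos (Nat.le_of_dvd q1 hg) hgpos) hpd
      exact_mod_cast h4)
  have hSsum : ∑ p ∈ S, 1 / (p.2 : ℝ) = ∑ q ∈ Sg, 1 / (q.1 : ℝ) := by
    rw [hS, Finset.sum_image]
    intro x _ y _ hxy
    simp only [Prod.mk.injEq] at hxy
    ext
    · exact hxy.2
    · simpa using hxy.1
  have hstep1 : ∑ k ∈ Finset.Icc 1 (nn P.κ T), ∑ j ∈ (nearS ν P.κ T k).filter (fun j => ¬ k ∣ j),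
      ‖dco P T k‖ * ‖ec a' (dl P.c T) (nn P.κ T) (dco P T) j‖ * uw a' ν k j =
      ∑ q ∈ Sg, ‖dco P T q.1‖ * ‖ec a' (dl P.c T) (nn P.κ T) (dco P T) q.2‖ *
        uw a' ν q.1 q.2 := by
    rw [hSg, Finset.sum_sigma]
    apply Finset.sum_congr rfl
    intro k _
    by_cases hk : dco P T k = 0
    · rw [hk]
      simp
    · rw [Finset.filter_true_of_mem (s := (nearS ν P.κ T k).filter (fun j => ¬ k ∣ j))
        (p := fun _ => dco P T k ≠ 0) (fun _ _ => hk)]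
  rw [hstep1]
  have hterm : ∀ q ∈ Sg, ‖dco P T q.1‖ * ‖ec a' (dl P.c T) (nn P.κ T) (dco P T) q.2‖ *
        uw a' ν q.1 q.2 ≤ K1 * T ^ (2 * e0) * (1 / (q.1 : ℝ)) := by
    intro q hq
    obtain ⟨q1, q2, q3, q4, q5, q6, q7⟩ := hmem q hq
    have b1 := hdle T t1 q.1
    have b2 := ec_le a' (dl P.c T) T (Real.exp 1) hT1' ha'0 haT (nn P.κ T) hNT (dco P T) Q
      (hdle T t1) q.2
    have b3 := uw_near a' ν ha'0 ha'1 q1 (q5.le.trans hρ1)
    have hq20 : (0 : ℝ) < q.2 := by exact_mod_cast q3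
    have b4 : (q.2.divisors.card : ℝ) ^ 2 ≤ Cd ^ 2 * (Real.exp (|ν| + 1)) ^ (2 * e0) *
        T ^ (2 * e0) := by
      have h1 := hdiv q.2 q3
      have h2 := pow_le_pow_left₀ (by positivity) h1 2
      refine h2.trans ?_
      rw [mul_pow, mul_assoc]
      apply mul_le_mul_of_nonneg_left _ (by positivity)
      rw [← Real.rpow_natCast ((q.2 : ℝ) ^ e0), ← Real.rpow_mul hq20.le,
        ← Real.mul_rpow (Real.exp_pos _).le hT0.le]
      have : e0 * ((2 : ℕ) : ℝ) = 2 * e0 := by push_cast; ring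
      rw [this]
      exact Real.rpow_le_rpow hq20.le q4 (by linarith)
    have b5 : ‖ec a' (dl P.c T) (nn P.κ T) (dco P T) q.2‖ ≤
        Q * Real.exp 1 * (Cd ^ 2 * (Real.exp (|ν| + 1)) ^ (2 * e0) * T ^ (2 * e0)) :=
      b2.trans (mul_le_mul_of_nonneg_left b4 (by positivity))
    calc _ ≤ Q * (Q * Real.exp 1 * (Cd ^ 2 * (Real.exp (|ν| + 1)) ^ (2 * e0) * T ^ (2 * e0))) *
          (Real.exp (6 + 2 * |ν|) * (1 / (q.1 : ℝ))) := by
          apply mul_le_mul _ b3 (uw_pos _ _ _ _).le (by positivity)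
          exact mul_le_mul b1 b5 (norm_nonneg _) hQ0.le
      _ = _ := by rw [hK1]; ring
  refine (Finset.sum_le_sum hterm).trans ?_
  rw [← Finset.mul_sum, ← hSsum]
  have hlogX : Real.log (T ^ (1 - P.κ)) ≤ L := Real.log_le_log (Real.rpow_pos_of_pos hT0 _) hXT
  have hA : 2 * (2 * Real.exp ν * ρ) * T ^ (1 - P.κ) ≤ 4 * Real.exp ν * T ^ (-(4 * e0)) := by
    have e1 : ρ * T ^ (1 - P.κ) = T ^ (-(P.κ / 4)) := by
      rw [hρ, ← Real.rpow_add hT0]
      congr 1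
      ring
    calc 2 * (2 * Real.exp ν * ρ) * T ^ (1 - P.κ) = 4 * Real.exp ν * (ρ * T ^ (1 - P.κ)) := by ring
      _ = 4 * Real.exp ν * T ^ (-(P.κ / 4)) := by rw [e1]
      _ ≤ _ := by
        apply mul_le_mul_of_nonneg_left _ (by positivity)
        exact Real.rpow_le_rpow_of_exponent_le hT1' (by linarith)
  have hBb : 1 / T ^ ((1 - P.κ) / P.B) ≤ T ^ (-(4 * e0)) := by
    rw [one_div, ← Real.rpow_neg hT0.le]
    exact Real.rpow_le_rpow_of_exponent_le hT1' (by linarith)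
  have hfin : ∑ p ∈ S, 1 / (p.2 : ℝ) ≤ (1 + L) * (K2 * T ^ (-(4 * e0))) := by
    refine hfrac.trans ?_
    have h1 : 0 < T ^ (1 - P.κ) := Real.rpow_pos_of_pos hT0 _
    have h2 : 0 ≤ 2 * (2 * Real.exp ν * ρ) * T ^ (1 - P.κ) + 1 / T ^ ((1 - P.κ) / P.B) := by
      positivity
    apply mul_le_mul (by linarith) _ h2 (by linarith)
    rw [hK2]
    linarith
  calc K1 * T ^ (2 * e0) * ∑ p ∈ S, 1 / (p.2 : ℝ) ≤
      K1 * T ^ (2 * e0) * ((1 + L) * (K2 * T ^ (-(4 * e0)))) :=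
        mul_le_mul_of_nonneg_left hfin (by positivity)
    _ ≤ K1 * T ^ (2 * e0) * (T ^ e0 * (K2 * T ^ (-(4 * e0)))) := by gcongr
    _ = K1 * K2 * (T ^ (2 * e0) * T ^ e0 * T ^ (-(4 * e0))) := by ring
    _ = K1 * K2 * T ^ (-e0) := by
        rw [← Real.rpow_add hT0, ← Real.rpow_add hT0]
        congr 2
        ring
    _ ≤ K1 * K2 * (1 / L) := by
        apply mul_le_mul_of_nonneg_left _ (by positivity)
        rw [Real.rpow_neg hT0.le, ← one_div]
        apply one_div_le_one_div_of_le hL0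
        linarith
    _ = K1 * K2 / L := by ring

end Helper89G
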