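import Pool.Agent.Helper89G.SG5

/-! Twisted mean value of the detector times the ratio of the completed zeta functions. -/

open Complex Filter Topology Set MeasureTheory

namespace Helper89G

open SP SP.DeepAux SP.EvalAux SG.Deep SP.DpAux
open SG (phi hh nn dd dl)

/-- **twisted mean value** -/
theorem teval (hRH : RHs) (P : Par) (hSS : ∃ CS TS : ℝ, ∀ T : ℝ, TS ≤ T → ‖SS P T‖ ≤ CS) {ν : ℝ}
    (hν : ν ≠ 0) : ∃ C T0 : ℝ, 0 < C ∧ 10 ≤ T0 ∧ ∀ T : ℝ, T0 ≤ T → ∀ t0 : ℝ, 11 / 10 * T ≤ t0 →
    t0 ≤ 19 / 10 * T →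
    ‖∫ t in (T + 2 * Real.log T)..(2 * T - 2 * Real.log T),
      (wt t0 (dd P.κ T) t * ‖DP (nn P.κ T) (dco P T) (⟨1 / 2, t⟩ : ℂ)‖ ^ 2 : ℝ) *
        ff P.c T (⟨1 / 2 + P.a / Real.log T, t⟩ : ℂ) * cexp ((ν : ℂ) * (⟨0, t⟩ : ℂ))‖ ≤
      C * dd P.κ T / Real.log T := by
  classical
  have hκ := P.hκ
  have hκ1 := P.hκ1
  have ha := P.ha
  have ha1 := P.ha1
  have hc0 : 0 < P.c := by linarith [P.hc]
  have hB0 : (0 : ℝ) < P.B := by
    have := P.hB
    exact_mod_cast (by omega : 0 < P.B)
  obtain ⟨CS, TS, hSS⟩ := hSS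
  obtain ⟨TG, hTG, hgen⟩ := teval_gen hRH P.c P.a P.κ hc0 P.hc1 ha ha1 hκ hκ1 ν
  obtain ⟨CJ, TJ, hCJ, hTJ, hJ⟩ := deepJ P.c P.a P.κ hc0 P.hc1 ha hκ hκ1
  obtain ⟨K, TK, hK, hTK, hnon⟩ := nonexc P ν
  obtain ⟨Tb, hTb, hb⟩ := dco_bound P
  obtain ⟨ω, hω, hiso⟩ := isolated ν
  -- the exceptional integer
  have hexc : ∃ Cf : ℝ, 0 < Cf ∧ ∀ m : ℕ, 1 ≤ m → ν = Real.log m →
      ∀ δ : ℝ, ‖fm δ m‖ ≤ Cf * |δ| := by
    by_cases h : ∃ m : ℕ, 1 ≤ m ∧ ν = Real.log m
    · obtain ⟨m, hm, hνm⟩ := h
      have hm2 : 2 ≤ m := by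
        by_contra hcon
        have : m = 1 := by omega
        rw [this] at hνm
        simp at hνm
        exact hν hνm
      obtain ⟨Cf, hCf, hf⟩ := fm_small m hm2
      refine ⟨Cf, hCf, ?_⟩
      intro m' hm' hνm'
      have hlog : Real.log m' = Real.log m := by rw [← hνm', ← hνm]
      have h1 : (0 : ℝ) < m := by exact_mod_cast (by omega : 0 < m)
      have h2 : (0 : ℝ) < m' := by exact_mod_cast (by omega : 0 < m')
      have h3 : (m' : ℝ) = m := Real.log_injOn_pos (Set.mem_Ioi.mpr h2) (Set.mem_Ioi.mpr h1) hlog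
      have h4 : m' = m := by exact_mod_cast h3
      rw [h4]
      exact hf
    · refine ⟨1, one_pos, ?_⟩
      intro m hm hνm
      exact absurd ⟨m, hm, hνm⟩ h
  obtain ⟨Cf, hCf, hfm⟩ := hexc
  have ev1 : ∀ᶠ T : ℝ in atTop, T ^ (3 * P.κ / 4 - 1) ≤ ω := by
    have h := tendsto_rpow_neg_atTop (show 0 < 1 - 3 * P.κ / 4 by linarith)
    have h2 := h.eventually_lt_const hω
    filter_upwards [h2] with T hT
    have e : 3 * P.κ / 4 - 1 = -(1 - 3 * P.κ / 4) := by ring
    rw [e]
    exact hT.le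
  have ev2 : ∀ᶠ T : ℝ in atTop, Real.exp |ν| + 1 ≤ T ^ ((1 - P.κ) / P.B) :=
    (tendsto_rpow_atTop (div_pos (by linarith) hB0)).eventually_ge_atTop _
  have ev7 : ∀ᶠ T : ℝ in atTop, Real.log T ≤ dd P.κ T := by
    have h := isLittleO_log_rpow_atTop (show 0 < 1 - P.κ / 2 by linarith)
    rw [Asymptotics.isLittleO_iff] at h
    filter_upwards [h (show (0 : ℝ) < 1 by norm_num), eventually_ge_atTop 1] with T hT h1
    rw [Real.norm_of_nonneg (Real.log_nonneg h1),
      Real.norm_of_nonneg (Real.rpow_nonneg (by linarith) _), one_mul] at hT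
    exact hT
  have ev8 : ∀ᶠ T : ℝ in atTop, 1 ≤ Real.log T := Real.tendsto_log_atTop.eventually_ge_atTop _
  obtain ⟨T1, hT1⟩ := (ev1.and (ev2.and (ev7.and ev8))).exists_forall_of_atTop
  set K2 : ℝ := Cf * (2 * Real.pi * P.c) * Real.exp (2 * |ν|) * CJ * |CS| with hK2
  have hK20 : 0 ≤ K2 := by
    have := Real.pi_pos
    positivity
  refine ⟨1 + K * CJ + K2, max (max TG TJ) (max (max TK Tb) (max TS T1)), by positivity,
    hTG.trans ((le_max_left _ _).trans (le_max_left _ _)), ?_⟩
  intro T hT t0 ht1 ht2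
  simp only [max_le_iff] at hT
  obtain ⟨⟨aG, aJ⟩, ⟨aK, ab⟩, aS, a1⟩ := hT
  obtain ⟨g1, g2, g3, g4⟩ := hT1 T a1
  have hT10 : 10 ≤ T := hTG.trans aG
  have hT0 : 0 < T := by linarith
  set L := Real.log T with hL
  have hL0 : 0 < L := by linarith
  set D := dd P.κ T with hD
  have hD0 : 0 < D := by linarith
  set a' := P.a / L with ha'
  have ha'0 : 0 ≤ a' := by positivity
  have ha'1 : a' ≤ 1 := by
    rw [ha', div_le_one hL0]
    linarith
  set N := nn P.κ T with hN
  have hNT : (N : ℝ) ≤ T := by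
    calc (N : ℝ) ≤ T ^ (1 - P.κ) := Nat.floor_le (Real.rpow_nonneg hT0.le _)
      _ ≤ T ^ (1 : ℝ) := Real.rpow_le_rpow_of_exponent_le (by linarith) (by linarith)
      _ = T := Real.rpow_one _
  have hmain := hgen T aG t0 ht1 ht2 (dco P T) (hb T ab)
  rw [← ha', ← hN, ← hD, ← hL] at hmain
  set g : ℕ → ℕ → ℂ := fun k j => (starRingEnd ℂ) (dco P T k) *
    ec a' (dl P.c T) N (dco P T) j * ((uw a' ν k j : ℝ) : ℂ) *
    JJ P.c P.a P.κ T t0 (rr ν k j) with hg
  -- splitting
  have hsplit : ∑ k ∈ Finset.Icc 1 N, ∑ j ∈ nearS ν P.κ T k, g k j =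
      (∑ k ∈ Finset.Icc 1 N, ∑ j ∈ (nearS ν P.κ T k).filter (fun j => ¬ k ∣ j), g k j) +
      ∑ k ∈ Finset.Icc 1 N, ∑ j ∈ (nearS ν P.κ T k).filter (fun j => k ∣ j), g k j := by
    rw [← Finset.sum_add_distrib]
    apply Finset.sum_congr rfl
    intro k _
    rw [add_comm]
    exact (Finset.sum_filter_add_sum_filter_not _ _ _).symm
  have h1 : ‖∑ k ∈ Finset.Icc 1 N, ∑ j ∈ (nearS ν P.κ T k).filter (fun j => ¬ k ∣ j), g k j‖ ≤
      K * CJ * D / L := by
    have hn := hnon T aK
    rw [← hL, ← ha', ← hN] at hn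
    calc _ ≤ ∑ k ∈ Finset.Icc 1 N, ∑ j ∈ (nearS ν P.κ T k).filter (fun j => ¬ k ∣ j),
          (‖dco P T k‖ * ‖ec a' (dl P.c T) N (dco P T) j‖ * uw a' ν k j) * (CJ * D) := by
          apply norm_sum_le_of_le
          intro k _
          apply norm_sum_le_of_le
          intro j _
          simp only [hg]
          rw [norm_mul, norm_mul, norm_mul, RCLike.norm_conj, Complex.norm_real,
            Real.norm_of_nonneg (uw_pos _ _ _ _).le]
          apply mul_le_mul_of_nonneg_left (hJ T aJ t0 ht1 ht2 (rr ν k j)).1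
          have := (uw_pos a' ν k j).le
          positivity
      _ = (∑ k ∈ Finset.Icc 1 N, ∑ j ∈ (nearS ν P.κ T k).filter (fun j => ¬ k ∣ j),
          ‖dco P T k‖ * ‖ec a' (dl P.c T) N (dco P T) j‖ * uw a' ν k j) * (CJ * D) := by
          rw [Finset.sum_mul]
          apply Finset.sum_congr rfl
          intro k _
          rw [Finset.sum_mul]
      _ ≤ K / L * (CJ * D) := mul_le_mul_of_nonneg_right hn (by positivity)
      _ = _ := by ring
  have h2 : ‖∑ k ∈ Finset.Icc 1 N, ∑ j ∈ (nearS ν P.κ T k).filter (fun j => k ∣ j), g k j‖ ≤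
      K2 * D / L := by
    by_cases hex : ∃ m : ℕ, 1 ≤ m ∧ ν = Real.log m
    · obtain ⟨m, hm, hνm⟩ := hex
      have hm0 : (0 : ℝ) < m := by exact_mod_cast hm
      have hmexp : (m : ℝ) = Real.exp ν := by rw [hνm, Real.exp_log hm0]
      have hmle : (m : ℝ) ≤ Real.exp |ν| := by
        rw [hmexp]
        exact Real.exp_le_exp.mpr (le_abs_self ν)
      have hbig : ∀ p ∈ PS P T, m < p := by
        intro p hp
        have h3 := SP.TTAux.lower P T hT10 p hp
        have h4 : (m : ℝ) < p := by linarith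
        exact_mod_cast h4
      have hset : ∀ k ∈ Finset.Icc 1 N, (nearS ν P.κ T k).filter (fun j => k ∣ j) = {m * k} := by
        intro k hk
        rw [Finset.mem_Icc] at hk
        have hk0 : (0 : ℝ) < k := by exact_mod_cast (by omega : 0 < k)
        ext j
        rw [Finset.mem_filter, Finset.mem_singleton, nearS, Finset.mem_filter, Finset.mem_Icc]
        constructor
        · rintro ⟨⟨⟨j1, -⟩, j3⟩, ⟨q, hq⟩⟩
          have hq1 : 1 ≤ q := by
            rcases Nat.eq_zero_or_pos q with h | h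
            · rw [h, mul_zero] at hq
              omega
            · exact h
          have hq0 : (0 : ℝ) < q := by exact_mod_cast hq1
          have e1 : rr ν k j = ν - Real.log q := by
            unfold rr
            rw [hq]
            push_cast
            rw [Real.log_mul hk0.ne' hq0.ne']
            ring
          rw [e1] at j3
          have h3 := hiso q hq1 (lt_of_lt_of_le j3 g1)
          have h4 : (q : ℝ) = m := by
            rw [hmexp, h3, Real.exp_log hq0]
          have h5 : q = m := by exact_mod_cast h4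
          rw [hq, h5, mul_comm]
        · rintro rfl
          refine ⟨⟨⟨Nat.mul_pos hm (by omega), ?_⟩, ?_⟩, Dvd.intro_left m rfl⟩
          · apply (Nat.le_floor_iff (by positivity)).mpr
            push_cast
            have h3 : (k : ℝ) ≤ T := le_trans (by exact_mod_cast hk.2) hNT
            have h4 : Real.exp |ν| ≤ Real.exp (|ν| + 1) := Real.exp_le_exp.mpr (by linarith)
            exact mul_le_mul (hmle.trans h4) h3 hk0.le (Real.exp_pos _).le
          · have e1 : rr ν k (m * k) = 0 := by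
              unfold rr
              push_cast
              rw [Real.log_mul hm0.ne' hk0.ne', hνm]
              ring
            rw [e1, abs_zero]
            exact Real.rpow_pos_of_pos hT0 _
      have e2 : ∑ k ∈ Finset.Icc 1 N, ∑ j ∈ (nearS ν P.κ T k).filter (fun j => k ∣ j), g k j =
          fm (dl P.c T) m * (Real.exp (-ν * (1 / 2 + a')) : ℂ) * JJ P.c P.a P.κ T t0 0 *
            SD P.c P.a T N (dco P T) := by
        unfold SD
        rw [Finset.mul_sum]
        apply Finset.sum_congr rfl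
        intro k hk
        rw [hset k hk, Finset.sum_singleton]
        rw [Finset.mem_Icc] at hk
        have hk0 : (0 : ℝ) < k := by exact_mod_cast (by omega : 0 < k)
        have hkc : (k : ℂ) ≠ 0 := by exact_mod_cast (by omega : k ≠ 0)
        have e1 : rr ν k (m * k) = 0 := by
          unfold rr
          push_cast
          rw [Real.log_mul hm0.ne' hk0.ne', hνm]
          ring
        simp only [hg]
        by_cases hdk : dco P T k = 0
        · rw [hdk]
          simp
        · rw [ec_mul P T a' m hm hbig hk.1 hk.2 hdk, e1, uw_eq, e1, mul_zero, Real.exp_zero,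
            mul_one, ← hL, ← ha']
          have e3 : ((Real.exp (-(1 + a') * Real.log k) : ℝ) : ℂ) =
              (k : ℂ) ^ (-(1 : ℂ) - ((a' : ℝ) : ℂ)) := by
            rw [Complex.cpow_def_of_ne_zero hkc, ← Complex.natCast_log, Complex.ofReal_exp]
            congr 1
            push_cast
            ring
          rw [Complex.ofReal_mul, e3]
          ring
      rw [e2, SD_eq P T hT10, norm_mul, norm_mul, norm_mul]
      have b1 := hfm m hm hνm (dl P.c T)
      have b2 : ‖((Real.exp (-ν * (1 / 2 + a')) : ℝ) : ℂ)‖ ≤ Real.exp (2 * |ν|) := by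
        rw [Complex.norm_real, Real.norm_of_nonneg (Real.exp_pos _).le]
        apply Real.exp_le_exp.mpr
        have h4 := neg_abs_le ν
        have h5 := abs_nonneg ν
        have h6 : -ν * (1 / 2 + a') ≤ |ν| * (1 / 2 + a') :=
          mul_le_mul_of_nonneg_right (by linarith) (by linarith)
        nlinarith
      have b3 := (hJ T aJ t0 ht1 ht2 0).1
      have b4 : ‖SS P T‖ ≤ |CS| := (hSS T aS).trans (le_abs_self _)
      have hdl : |dl P.c T| = 2 * Real.pi * P.c / L := by
        unfold SG.dl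
        rw [← hL, abs_of_pos]
        have := Real.pi_pos
        positivity
      rw [hdl] at b1
      have hpi := Real.pi_pos
      calc _ ≤ (Cf * (2 * Real.pi * P.c / L)) * Real.exp (2 * |ν|) * (CJ * D) * |CS| := by
            apply mul_le_mul _ b4 (norm_nonneg _) (by positivity)
            apply mul_le_mul _ b3 (norm_nonneg _) (by positivity)
            exact mul_le_mul b1 b2 (norm_nonneg _) (by positivity)
        _ = K2 * D / L := by rw [hK2]; ring
    · have hzero : ∑ k ∈ Finset.Icc 1 N, ∑ j ∈ (nearS ν P.κ T k).filter (fun j => k ∣ j), g k j =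
          0 := by
        apply Finset.sum_eq_zero
        intro k hk
        rw [Finset.mem_Icc] at hk
        have hk0 : (0 : ℝ) < k := by exact_mod_cast (by omega : 0 < k)
        have hempty : (nearS ν P.κ T k).filter (fun j => k ∣ j) = ∅ := by
          ext j
          rw [Finset.mem_filter, nearS, Finset.mem_filter, Finset.mem_Icc]
          constructor
          · rintro ⟨⟨⟨j1, -⟩, j3⟩, ⟨q, hq⟩⟩
            exfalso
            have hq1 : 1 ≤ q := by
              rcases Nat.eq_zero_or_pos q with h | h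
              · rw [h, mul_zero] at hq
                omega
              · exact h
            have hq0 : (0 : ℝ) < q := by exact_mod_cast hq1
            have e1 : rr ν k j = ν - Real.log q := by
              unfold rr
              rw [hq]
              push_cast
              rw [Real.log_mul hk0.ne' hq0.ne']
              ring
            rw [e1] at j3
            exact hex ⟨q, hq1, hiso q hq1 (lt_of_lt_of_le j3 g1)⟩
          · intro h
            simp at h
        rw [hempty, Finset.sum_empty]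
      rw [hzero, norm_zero]
      positivity
  rw [hsplit] at hmain
  have h3 : (1 : ℝ) ≤ D / L := by
    rw [le_div_iff₀ hL0]
    linarith
  set X := ∫ t in (T + 2 * L)..(2 * T - 2 * L),
      (wt t0 D t * ‖DP N (dco P T) (⟨1 / 2, t⟩ : ℂ)‖ ^ 2 : ℝ) *
        ff P.c T (⟨1 / 2 + a', t⟩ : ℂ) * cexp ((ν : ℂ) * (⟨0, t⟩ : ℂ)) with hX
  set S1 := ∑ k ∈ Finset.Icc 1 N, ∑ j ∈ (nearS ν P.κ T k).filter (fun j => ¬ k ∣ j), g k j
  set S2 := ∑ k ∈ Finset.Icc 1 N, ∑ j ∈ (nearS ν P.κ T k).filter (fun j => k ∣ j), g k j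
  have e5 : X = (X - (S1 + S2)) + S1 + S2 := by ring
  rw [e5]
  calc ‖(X - (S1 + S2)) + S1 + S2‖ ≤ ‖X - (S1 + S2)‖ + ‖S1‖ + ‖S2‖ := by
        refine (norm_add_le _ _).trans (add_le_add_left ?_ _)
        exact norm_add_le _ _
    _ ≤ 1 + K * CJ * D / L + K2 * D / L := by linarith
    _ ≤ D / L + K * CJ * D / L + K2 * D / L := by linarith
    _ = (1 + K * CJ + K2) * D / L := by ring

end Helper89G
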