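import Pool.Agent.Helper89G.TW4
import Pool.Agent.H403R2.LGLocal
import Pool.Agent.TH803.TW.Core
import Pool.Agent.TH803.TW.Wt

/-! Lower bound for the difference of the mean values with an almost periodic weight. -/

open Complex Filter Topology Set MeasureTheory

namespace Helper89G

open LG
open SG (hh nn dd dl ord NZ)
open SP (RHs ZZ mu wt Mk Par Eb PS chi qq tt)
open TH803TW (tp tp_cont APm split_zero)

lemma int_tp (a : ℝ → ℝ) (ha : Continuous a) (S : Finset ℝ) (c : ℝ → ℂ) (V1 V2 : ℝ) :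
    ∫ t in V1..V2, a t * tp S c t =
      (∑ τ ∈ S, c τ * ∫ t in V1..V2, ((a t : ℝ) : ℂ) * cexp (I * (τ : ℂ) * (t : ℂ))).re := by
  have e2 : (∫ t in V1..V2, ((a t : ℝ) : ℂ) * ∑ τ ∈ S, c τ * cexp (I * τ * t)) =
      ∑ τ ∈ S, c τ * ∫ t in V1..V2, ((a t : ℝ) : ℂ) * cexp (I * (τ : ℂ) * (t : ℂ)) := by
    have h1 : ∀ t : ℝ, ((a t : ℝ) : ℂ) * ∑ τ ∈ S, c τ * cexp (I * τ * t) =
        ∑ τ ∈ S, c τ * (((a t : ℝ) : ℂ) * cexp (I * (τ : ℂ) * (t : ℂ))) := by
      intro t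
      rw [Finset.mul_sum]
      refine Finset.sum_congr rfl fun τ _ => ?_
      ring
    simp_rw [h1]
    rw [intervalIntegral.integral_finsetSum]
    · refine Finset.sum_congr rfl fun τ _ => ?_
      rw [intervalIntegral.integral_const_mul]
    · intro τ _
      apply Continuous.intervalIntegrable
      fun_prop
  rw [← e2]
  have hc : Continuous fun t : ℝ => ((a t : ℝ) : ℂ) * ∑ τ ∈ S, c τ * cexp (I * τ * t) := by
    fun_prop
  have h3 := Complex.reCLM.intervalIntegral_comp_comm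
    (hc.intervalIntegrable (μ := volume) V1 V2)
  have h4 : (∫ t in V1..V2, a t * tp S c t) =
      ∫ t in V1..V2, Complex.reCLM (((a t : ℝ) : ℂ) * ∑ τ ∈ S, c τ * cexp (I * τ * t)) := by
    congr 1
    funext t
    rw [Complex.reCLM_apply, Complex.re_ofReal_mul]
    rfl
  rw [h4, h3]
  rfl

/-- the weighted integral is close to the mean value times the integral -/
lemma tp_close (a : ℝ → ℝ) (ha : Continuous a) {S : Finset ℝ} (h0 : (0 : ℝ) ∈ S) (c : ℝ → ℂ)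
    (V1 V2 : ℝ) (b : ℝ → ℝ) (X : ℝ)
    (hb : ∀ τ ∈ S.erase 0, ‖∫ t in V1..V2, ((a t : ℝ) : ℂ) * cexp (I * (τ : ℂ) * (t : ℂ))‖ ≤
      b τ * X) :
    |(∫ t in V1..V2, a t * tp S c t) - (c 0).re * ∫ t in V1..V2, a t| ≤
      (∑ τ ∈ S.erase 0, ‖c τ‖ * b τ) * X := by
  rw [int_tp a ha]
  have h1 := split_zero h0 c (fun τ => ∫ t in V1..V2, ((a t : ℝ) : ℂ) *
    cexp (I * (τ : ℂ) * (t : ℂ))) (∫ t in V1..V2, a t) (by
      rw [← intervalIntegral.integral_ofReal]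
      congr 1
      funext t
      simp)
  refine h1.trans ?_
  rw [Finset.sum_mul]
  refine Finset.sum_le_sum fun τ hτ => ?_
  rw [mul_assoc]
  exact mul_le_mul_of_nonneg_left (hb τ hτ) (norm_nonneg _)

/-- lower bound with weight -/
theorem weighted_lower (a Z φ : ℝ → ℝ) (ha : Continuous a) (ha0 : ∀ t, 0 ≤ a t)
    (hZ : Continuous Z) (hZ0 : ∀ t, 0 ≤ Z t) (hφ : Continuous φ) {S : Finset ℝ}
    (h0 : (0 : ℝ) ∈ S) (c : ℝ → ℂ) (M v ε ρ g C6 D L V1 V2 : ℝ) (b : ℝ → ℝ)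
    (hS : ∀ t, |φ t - tp S c t| ≤ ε) (hM : |(c 0).re - M| ≤ ε) (hvM : v ≤ M) (hv : 0 < v)
    (hε0 : 0 ≤ ε) (hε1 : ε ≤ v / 8) (hε2 : ε * C6 ≤ v * ρ / 8) (hg : 0 ≤ g) (hρ : 0 < ρ)
    (hD : 0 < D) (hV : V1 ≤ V2)
    (hb1 : ∀ τ ∈ S.erase 0, ‖∫ t in V1..V2, ((a t : ℝ) : ℂ) * cexp (I * (τ : ℂ) * (t : ℂ))‖ ≤
      b τ * (D / L))
    (hb2 : ∀ τ ∈ S.erase 0, ‖∫ t in V1..V2, ((a t * Z t : ℝ) : ℂ) *
      cexp (I * (τ : ℂ) * (t : ℂ))‖ ≤ b τ * (D / L))
    (hL : (1 + g) * (∑ τ ∈ S.erase 0, ‖c τ‖ * b τ) * (1 / L) ≤ v * ρ / 8)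
    (hlow : ρ * D ≤ (∫ t in V1..V2, a t) - g * ∫ t in V1..V2, a t * Z t)
    (hup : (∫ t in V1..V2, a t) + g * ∫ t in V1..V2, a t * Z t ≤ C6 * D) :
    v * ρ / 2 * D ≤ (∫ t in V1..V2, a t * φ t) - g * ∫ t in V1..V2, a t * Z t * φ t := by
  have haZ : Continuous fun t => a t * Z t := ha.mul hZ
  have hc1 := tp_close a ha h0 c V1 V2 b (D / L) hb1
  have hc2 := tp_close (fun t => a t * Z t) haZ h0 c V1 V2 b (D / L) hb2
  have htp := tp_cont S c
  set I0 := ∫ t in V1..V2, a t with hI0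
  set I1 := ∫ t in V1..V2, a t * Z t with hI1
  set Sb := ∑ τ ∈ S.erase 0, ‖c τ‖ * b τ with hSb
  have e1 : (∫ t in V1..V2, a t * tp S c t) - ε * I0 ≤ ∫ t in V1..V2, a t * φ t := by
    rw [hI0, ← intervalIntegral.integral_const_mul, ← intervalIntegral.integral_sub]
    · apply intervalIntegral.integral_mono_on hV
      · apply Continuous.intervalIntegrable; fun_prop
      · apply Continuous.intervalIntegrable; fun_prop
      · intro t _
        have h1 := (abs_le.1 (hS t)).1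
        have h2 := mul_le_mul_of_nonneg_left h1 (ha0 t)
        linarith
    · apply Continuous.intervalIntegrable; fun_prop
    · apply Continuous.intervalIntegrable; fun_prop
  have e2 : (∫ t in V1..V2, a t * Z t * φ t) ≤ (∫ t in V1..V2, a t * Z t * tp S c t) + ε * I1 := by
    rw [hI1, ← intervalIntegral.integral_const_mul, ← intervalIntegral.integral_add]
    · apply intervalIntegral.integral_mono_on hV
      · apply Continuous.intervalIntegrable; fun_prop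
      · apply Continuous.intervalIntegrable; fun_prop
      · intro t _
        have h1 := (abs_le.1 (hS t)).2
        have h2 := mul_le_mul_of_nonneg_left h1 (mul_nonneg (ha0 t) (hZ0 t))
        linarith
    · apply Continuous.intervalIntegrable; fun_prop
    · apply Continuous.intervalIntegrable; fun_prop
  have f1 := (abs_le.1 hc1).1
  have f2 := (abs_le.1 hc2).2
  have f3 := mul_le_mul_of_nonneg_left e2 hg
  have f4 := mul_le_mul_of_nonneg_left f2 hg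
  have f5 : ε * (I0 + g * I1) ≤ v * ρ / 8 * D := by
    calc ε * (I0 + g * I1) ≤ ε * (C6 * D) := mul_le_mul_of_nonneg_left hup hε0
      _ = (ε * C6) * D := by ring
      _ ≤ v * ρ / 8 * D := mul_le_mul_of_nonneg_right hε2 hD.le
  have f6 : (1 + g) * (Sb * (D / L)) ≤ v * ρ / 8 * D := by
    calc (1 + g) * (Sb * (D / L)) = ((1 + g) * Sb * (1 / L)) * D := by ring
      _ ≤ v * ρ / 8 * D := mul_le_mul_of_nonneg_right hL hD.le
  have hc0 : 7 / 8 * v ≤ (c 0).re := by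
    have := (abs_le.1 hM).1
    linarith
  have f7 : 7 / 8 * v * (ρ * D) ≤ (c 0).re * (I0 - g * I1) := by
    have h1 : 0 < ρ * D := by positivity
    exact mul_le_mul hc0 hlow h1.le (by linarith)
  have f8 : (c 0).re * (I0 - g * I1) = (c 0).re * I0 - g * ((c 0).re * I1) := by ring
  have f9 : ε * (I0 + g * I1) = ε * I0 + g * (ε * I1) := by ring
  have f10 : (1 + g) * (Sb * (D / L)) = Sb * (D / L) + g * (Sb * (D / L)) := by ring
  rw [mul_sub] at f4
  rw [mul_add] at f3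
  have hpos : 0 < v * (ρ * D) := by positivity
  have f11 : v * ρ / 2 * D = 1 / 2 * (v * (ρ * D)) := by ring
  have f12 : v * ρ / 8 * D = 1 / 8 * (v * (ρ * D)) := by ring
  have f13 : 7 / 8 * v * (ρ * D) = 7 / 8 * (v * (ρ * D)) := by ring
  rw [f11]
  rw [f12] at f5 f6
  rw [f13] at f7
  linarith

/-- lower bound for the difference of the mean values with an almost periodic weight -/
theorem mean_lower_ap (hRH : RHs) (P : Par) (B0 : ℕ) (hB : P.B = 2 * B0) (r : ℝ) (F q : ℕ → ℝ)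
    (A c δ e1 : ℝ) (hA : 0 < A) (hc : 0 < c)
    (hCOMB1 : Tendsto (fun T : ℝ => Cn P B0 r F T 1) atTop (𝓝 (SF B0 F q ^ 2)))
    (hCOMB2 : Tendsto (fun T : ℝ => (2 / Real.log T) * ∑' n : ℕ, lk A c T n * Cn P B0 r F T n) atTop
      (𝓝 (4 * r / Real.pi * (SF B0 F q * ∑ m ∈ Finset.Icc 2 B0, sm P A c m * SM B0 F q m))))
    (hSF : 0 < SF B0 F q) (hδ : 0 < δ) (he1 : 0 < e1) (he1' : e1 ≤ 1 / 4)
    (hδe : 2 * e1 * SF B0 F q ≤ δ)
    (hst : c * SF B0 F q + 3 * δ ≤ SF B0 F q +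
        4 * r / Real.pi * ∑ m ∈ Finset.Icc 2 B0, sm P A c m * SM B0 F q m)
    {φ : ℝ → ℝ} {M v : ℝ} (hφ : APm φ M) (hφc : Continuous φ) (hv : 0 < v) (hvM : v ≤ M) :
    ∃ T0 : ℝ, 10 ≤ T0 ∧ ∀ T : ℝ, T0 ≤ T → ∀ t0 : ℝ, 11 / 10 * T ≤ t0 → t0 ≤ 19 / 10 * T →
      v * (SF B0 F q * δ) / 2 * dd P.κ T ≤
      (∫ t in (T + 2 * Real.log T)..(2 * T - 2 * Real.log T),
        wt t0 (dd P.κ T) t * ‖EE P B0 r F T t‖ ^ 2 * φ t) -
      1 / (1 - 2 * e1) * ∫ t in (T + 2 * Real.log T)..(2 * T - 2 * Real.log T),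
        wt t0 (dd P.κ T) t * ‖EE P B0 r F T t‖ ^ 2 * Zs A c T t * φ t := by
  obtain ⟨TL, hTL, hlow⟩ := LocAux.mean_lower P B0 r F q A c δ e1 (MEAN hRH P B0 hB r F A c hA hc)
    hCOMB1 hCOMB2 hSF hδ he1 he1' hδe hst
  obtain ⟨C4, T4, hC4, hT4, hmean⟩ := MEAN hRH P B0 hB r F A c hA hc
  set S0 := SF B0 F q with hS0
  set ρ := S0 * δ with hρ
  have hρ0 : 0 < ρ := by positivity
  set g := 1 / (1 - 2 * e1) with hg
  have hg0 : 0 < 1 - 2 * e1 := by linarith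
  have hgpos : 0 < g := by positivity
  set c2 := 4 * r / Real.pi * (S0 * ∑ m ∈ Finset.Icc 2 B0, sm P A c m * SM B0 F q m) with hc2
  -- eventual bounds
  have ev1 : ∀ᶠ T : ℝ in atTop, |Cn P B0 r F T 1| ≤ S0 ^ 2 + 1 := by
    have h1 := hCOMB1.abs
    have h2 : |S0 ^ 2| < S0 ^ 2 + 1 := by rw [abs_of_nonneg (sq_nonneg _)]; linarith
    filter_upwards [h1.eventually_lt_const h2] with T hT using hT.le
  have ev2 : ∀ᶠ T : ℝ in atTop,
      |(2 / Real.log T) * ∑' n : ℕ, lk A c T n * Cn P B0 r F T n| ≤ |c2| + 1 := by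
    have h1 := hCOMB2.abs
    have h2 : |c2| < |c2| + 1 := by linarith
    filter_upwards [h1.eventually_lt_const h2] with T hT using hT.le
  set C5 : ℝ := S0 ^ 2 + 1 with hC5
  have hC50 : 0 < C5 := by positivity
  set C6 : ℝ := (3 * C5 + C4 * (1 + C5)) + g * (3 * (c * C5 + (|c2| + 1)) + C4 * (1 + C5)) with hC6
  have hC60 : 0 < C6 := by positivity
  -- the approximation
  set ε := min (v / 8) (v * ρ / (8 * C6)) with hε
  have hε0 : 0 < ε := lt_min (by positivity) (by positivity)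
  have hε1 : ε ≤ v / 8 := min_le_left _ _
  have hε2 : ε * C6 ≤ v * ρ / 8 := by
    have h1 : ε ≤ v * ρ / (8 * C6) := min_le_right _ _
    rw [le_div_iff₀ (by positivity)] at h1
    linarith
  obtain ⟨S, cc, h0, hS, hM⟩ := hφ ε hε0
  -- the twisted mean values
  have htw : ∀ τ : ℝ, ∃ C T0 : ℝ, 0 < C ∧ (τ ≠ 0 → ∀ T : ℝ, T0 ≤ T →
      ∀ t0 : ℝ, 11 / 10 * T ≤ t0 → t0 ≤ 19 / 10 * T →
      ‖∫ t in (T + 2 * Real.log T)..(2 * T - 2 * Real.log T),
        ((wt t0 (dd P.κ T) t * ‖EE P B0 r F T t‖ ^ 2 : ℝ) : ℂ) * cexp (I * (τ : ℂ) * (t : ℂ))‖ ≤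
        C * dd P.κ T / Real.log T ∧
      ‖∫ t in (T + 2 * Real.log T)..(2 * T - 2 * Real.log T),
        ((wt t0 (dd P.κ T) t * ‖EE P B0 r F T t‖ ^ 2 * Zs A c T t : ℝ) : ℂ) *
          cexp (I * (τ : ℂ) * (t : ℂ))‖ ≤ C * dd P.κ T / Real.log T) := by
    intro τ
    by_cases hτ : τ = 0
    · exact ⟨1, 0, one_pos, fun h => absurd hτ h⟩
    · obtain ⟨C, T0, hC, -, h⟩ := TMEAN hRH P B0 hB r F A c hA hc ⟨C5, ev1⟩ hτ
      exact ⟨C, T0, hC, fun _ => h⟩
  choose b Tb hb htw using htw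
  set Sb := ∑ τ ∈ S.erase 0, ‖cc τ‖ * b τ with hSb
  have hSb0 : 0 ≤ Sb := Finset.sum_nonneg fun τ _ => mul_nonneg (norm_nonneg _) (hb τ).le
  set Tm := ∑ τ ∈ S, |Tb τ| with hTm
  obtain ⟨T5, hT5⟩ := (ev1.and ev2).exists_forall_of_atTop
  obtain ⟨T6, hT6⟩ := (Real.tendsto_log_atTop.eventually_ge_atTop
    (max 1 ((1 + g) * Sb * (8 / (v * ρ))))).exists_forall_of_atTop
  obtain ⟨T7, hT7⟩ := (Real.isLittleO_log_id_atTop.bound
    (by norm_num : (0 : ℝ) < 1 / 4)).exists_forall_of_atTop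
  refine ⟨max (max TL T4) (max (max T5 T6) (max T7 Tm)), ?_, ?_⟩
  · exact hTL.trans ((le_max_left _ _).trans (le_max_left _ _))
  intro T hT t0 ht1 ht2
  simp only [max_le_iff] at hT
  obtain ⟨⟨aL, a4⟩, ⟨a5, a6⟩, a7, a8⟩ := hT
  have hT10 : 10 ≤ T := hTL.trans aL
  have hT0 : 0 < T := by linarith
  have hlogs := hT6 T a6
  simp only [max_le_iff] at hlogs
  obtain ⟨hL1, hLS⟩ := hlogs
  have hLT := hT7 T a7
  simp only [id, Real.norm_eq_abs] at hLT
  rw [abs_of_pos hT0, abs_of_nonneg (by linarith)] at hLT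
  obtain ⟨b1, b2⟩ := hT5 T a5
  obtain ⟨m1, m2⟩ := hmean T a4 t0 ht1 ht2
  have hlowT := hlow T aL t0 ht1 ht2
  set D := dd P.κ T with hD
  have hD0 : 0 < D := Real.rpow_pos_of_pos hT0 _
  set L := Real.log T with hL
  have hL0 : 0 < L := by linarith
  set a : ℝ → ℝ := fun t => wt t0 D t * ‖EE P B0 r F T t‖ ^ 2 with ha
  have hac : Continuous a := by
    have := MeanAux.wt_cont t0 D
    have := MeanAux.EE_cont P B0 r F T
    rw [ha]
    fun_prop
  have ha0 : ∀ t, 0 ≤ a t := fun t => by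
    have := MeanAux.wt_pos t0 D t
    rw [ha]
    positivity
  have hTτ : ∀ τ ∈ S.erase 0, Tb τ ≤ T := by
    intro τ hτ
    have h1 : |Tb τ| ≤ Tm := Finset.single_le_sum (f := fun τ => |Tb τ|)
      (fun i _ => abs_nonneg _) (Finset.mem_of_mem_erase hτ)
    exact (le_abs_self _).trans (h1.trans a8)
  have hq := sqrt_le3
  have hq0 : 0 ≤ Real.sqrt (2 * Real.pi) := Real.sqrt_nonneg _
  have hX1 : 1 + |Cn P B0 r F T 1| ≤ 1 + C5 := by linarith
  have hX0 : C4 * D / L * (1 + |Cn P B0 r F T 1|) ≤ C4 * (1 + C5) * D := by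
    have q6 : C4 * D / L ≤ C4 * D := div_le_self (by positivity) hL1
    calc C4 * D / L * (1 + |Cn P B0 r F T 1|) ≤ C4 * D * (1 + C5) := by gcongr
      _ = _ := by ring
  refine weighted_lower a (Zs A c T) φ hac ha0 (MeanAux.Zs_cont A c T (by linarith)) (fun t =>
    LocAux.Zs_nonneg A c T t (by linarith) (fun x => (gK_bounds A c x hA hc).1)) hφc h0 cc
    M v ε ρ g C6 D L (T + 2 * L) (2 * T - 2 * L) b hS hM hvM hv hε0.le hε1 hε2 hgpos.le hρ0 hD0
    (by linarith) ?_ ?_ ?_ hlowT ?_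
  · intro τ hτ
    have h1 := (htw τ (Finset.ne_of_mem_erase hτ) T (hTτ τ hτ) t0 ht1 ht2).1
    rw [mul_div_assoc] at h1
    exact h1
  · intro τ hτ
    have h1 := (htw τ (Finset.ne_of_mem_erase hτ) T (hTτ τ hτ) t0 ht1 ht2).2
    rw [mul_div_assoc] at h1
    exact h1
  · have h1 : (1 + g) * Sb * (8 / (v * ρ)) = ((1 + g) * Sb) / (v * ρ / 8) := by
      field_simp
    rw [h1, div_le_iff₀ (by positivity)] at hLS
    rw [mul_one_div, div_le_iff₀ hL0]
    linarith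
  · have n1 := (abs_le.1 m1).2
    have n2 := (abs_le.1 m2).2
    have n3 : Real.sqrt (2 * Real.pi) * D * Cn P B0 r F T 1 ≤ 3 * C5 * D := by
      calc Real.sqrt (2 * Real.pi) * D * Cn P B0 r F T 1 ≤
          Real.sqrt (2 * Real.pi) * D * C5 := by
            have := (le_abs_self (Cn P B0 r F T 1)).trans b1
            gcongr
        _ ≤ 3 * D * C5 := by gcongr
        _ = 3 * C5 * D := by ring
    have n4 : Real.sqrt (2 * Real.pi) * D * (c * Cn P B0 r F T 1 -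
        (2 / L) * ∑' n : ℕ, lk A c T n * Cn P B0 r F T n) ≤
        3 * (c * C5 + (|c2| + 1)) * D := by
      have h5 : c * Cn P B0 r F T 1 - (2 / L) * ∑' n : ℕ, lk A c T n * Cn P B0 r F T n ≤
          c * C5 + (|c2| + 1) := by
        have h6 := (abs_le.1 b2).1
        have h7 : c * Cn P B0 r F T 1 ≤ c * C5 :=
          mul_le_mul_of_nonneg_left ((le_abs_self _).trans b1) hc.le
        linarith
      have h8 : 0 ≤ c * C5 + (|c2| + 1) := by positivity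
      calc Real.sqrt (2 * Real.pi) * D * (c * Cn P B0 r F T 1 -
        (2 / L) * ∑' n : ℕ, lk A c T n * Cn P B0 r F T n) ≤
          Real.sqrt (2 * Real.pi) * D * (c * C5 + (|c2| + 1)) := by gcongr
        _ ≤ 3 * D * (c * C5 + (|c2| + 1)) := by gcongr
        _ = _ := by ring
    have n5 : ∫ t in (T + 2 * L)..(2 * T - 2 * L), a t * Zs A c T t ≤
        (3 * (c * C5 + (|c2| + 1)) + C4 * (1 + C5)) * D := by
      have h9 : ∫ t in (T + 2 * L)..(2 * T - 2 * L), a t * Zs A c T t =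
        ∫ t in (T + 2 * L)..(2 * T - 2 * L), wt t0 D t * ‖EE P B0 r F T t‖ ^ 2 * Zs A c T t := rfl
      rw [h9, add_mul]
      linarith
    have n6 : ∫ t in (T + 2 * L)..(2 * T - 2 * L), a t ≤ (3 * C5 + C4 * (1 + C5)) * D := by
      have h9 : ∫ t in (T + 2 * L)..(2 * T - 2 * L), a t =
        ∫ t in (T + 2 * L)..(2 * T - 2 * L), wt t0 D t * ‖EE P B0 r F T t‖ ^ 2 := rfl
      rw [h9, add_mul]
      linarith
    have n7 := mul_le_mul_of_nonneg_left n5 hgpos.le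
    calc (∫ t in (T + 2 * L)..(2 * T - 2 * L), a t) +
        g * ∫ t in (T + 2 * L)..(2 * T - 2 * L), a t * Zs A c T t ≤
        (3 * C5 + C4 * (1 + C5)) * D + g * ((3 * (c * C5 + (|c2| + 1)) + C4 * (1 + C5)) * D) :=
          add_le_add n6 n7
      _ = C6 * D := by rw [hC6]; ring

end Helper89G
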