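import Pool.Agent.Helper89G.SG6
import Pool.Agent.Helper89G.TW5
import Pool.Agent.H382P.Many

/-! Lower bound for the mean value of the detector with an almost periodic weight. -/

open Complex Filter Topology Set MeasureTheory

namespace Helper89G

open SP SP.ManyAux
open SG (phi hh nn dd dl ord NZ zmult)
open TH803TW (tp tp_cont APm split_zero)

/-- continuous extension from an interval -/
lemma ext_cont {V1 V2 : ℝ} (hV : V1 ≤ V2) (f : ℝ → ℂ) (hf : ContinuousOn f (Set.Icc V1 V2)) :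
    ∃ g : ℝ → ℂ, Continuous g ∧ ∀ t ∈ Set.Icc V1 V2, g t = f t := by
  refine ⟨Set.IccExtend hV (fun x => f x), ?_, ?_⟩
  · exact Continuous.Icc_extend' (continuousOn_iff_continuous_domRestrict.mp hf)
  · intro t ht
    rw [Set.IccExtend_of_mem hV _ ht]

/-- twisted integral of an imaginary part -/
lemma im_twist (a : ℝ → ℝ) (f : ℝ → ℂ) (ha : Continuous a) (hf : Continuous f) (V1 V2 τ : ℝ) :
    ‖∫ t in V1..V2, ((a t * (f t).im : ℝ) : ℂ) * cexp (I * (τ : ℂ) * (t : ℂ))‖ ≤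
      (‖∫ t in V1..V2, ((a t : ℝ) : ℂ) * f t * cexp ((τ : ℂ) * (⟨0, t⟩ : ℂ))‖ +
        ‖∫ t in V1..V2, ((a t : ℝ) : ℂ) * f t * cexp (((-τ : ℝ) : ℂ) * (⟨0, t⟩ : ℂ))‖) / 2 := by
  have e0 : ∀ t : ℝ, (⟨0, t⟩ : ℂ) = I * (t : ℂ) := by
    intro t
    apply Complex.ext <;> simp
  simp_rw [e0]
  set F : ℝ → ℂ := fun t => ((a t : ℝ) : ℂ) * f t * cexp ((τ : ℂ) * (I * (t : ℂ))) with hF
  set G : ℝ → ℂ := fun t => ((a t : ℝ) : ℂ) * f t * cexp (((-τ : ℝ) : ℂ) * (I * (t : ℂ))) with hG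
  have hFc : Continuous F := by rw [hF]; fun_prop
  have hGc : Continuous G := by rw [hG]; fun_prop
  have hconj : ∫ t in V1..V2, (starRingEnd ℂ) (G t) = (starRingEnd ℂ) (∫ t in V1..V2, G t) := by
    have h := Complex.conjCLE.toContinuousLinearMap.intervalIntegral_comp_comm
      (hGc.intervalIntegrable (μ := volume) V1 V2)
    simpa using h
  have hGc' : Continuous (fun t => (starRingEnd ℂ) (G t)) := Complex.continuous_conj.comp hGc
  have e1 : ∀ t : ℝ, ((a t * (f t).im : ℝ) : ℂ) * cexp (I * (τ : ℂ) * (t : ℂ)) =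
      (1 / (2 * I)) * F t - (1 / (2 * I)) * (starRingEnd ℂ) (G t) := by
    intro t
    simp only [hF, hG]
    rw [map_mul, map_mul, Complex.conj_ofReal, ← Complex.exp_conj, map_mul, map_mul,
      Complex.conj_ofReal, Complex.conj_ofReal, Complex.conj_I]
    have e2 : ((-τ : ℝ) : ℂ) * (-I * (t : ℂ)) = (τ : ℂ) * (I * (t : ℂ)) := by
      push_cast
      ring
    have e3 : I * (τ : ℂ) * (t : ℂ) = (τ : ℂ) * (I * (t : ℂ)) := by ring
    have e4 : (((f t).im : ℝ) : ℂ) = (f t - (starRingEnd ℂ) (f t)) / (2 * I) := by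
      rw [Complex.sub_conj]
      field_simp
      push_cast
      ring
    rw [e2, e3]
    push_cast
    rw [e4]
    ring
  simp_rw [e1]
  have j1 : IntervalIntegrable (fun t => (1 / (2 * I)) * F t) volume V1 V2 :=
    (continuous_const.mul hFc).intervalIntegrable _ _
  have j2 : IntervalIntegrable (fun t => (1 / (2 * I)) * (starRingEnd ℂ) (G t)) volume V1 V2 :=
    (continuous_const.mul hGc').intervalIntegrable _ _
  rw [intervalIntegral.integral_sub j1 j2,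
    intervalIntegral.integral_const_mul, intervalIntegral.integral_const_mul, hconj]
  have e5 : ‖(1 / (2 * I) : ℂ)‖ = 1 / 2 := by
    rw [norm_div, norm_mul, norm_one, Complex.norm_I]
    norm_num
  refine (norm_sub_le _ _).trans ?_
  rw [norm_mul, norm_mul, e5, RCLike.norm_conj]
  linarith

/-- lower bound with weight -/
theorem low_abs (a φ : ℝ → ℝ) (ha : Continuous a) (hφ : Continuous φ) {S : Finset ℝ}
    (h0 : (0 : ℝ) ∈ S) (c : ℝ → ℂ) (M v ε ρ C6 D L V1 V2 : ℝ) (b : ℝ → ℝ)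
    (hS : ∀ t, |φ t - tp S c t| ≤ ε) (hM : |(c 0).re - M| ≤ ε) (hvM : v ≤ M) (hv : 0 < v)
    (hε0 : 0 ≤ ε) (hε1 : ε ≤ v / 8) (hε2 : ε * C6 ≤ v * ρ / 8) (hρ : 0 < ρ)
    (hD : 0 < D) (hV : V1 ≤ V2)
    (hb1 : ∀ τ ∈ S.erase 0, ‖∫ t in V1..V2, ((a t : ℝ) : ℂ) * cexp (I * (τ : ℂ) * (t : ℂ))‖ ≤
      b τ * (D / L))
    (hL : (∑ τ ∈ S.erase 0, ‖c τ‖ * b τ) * (1 / L) ≤ v * ρ / 8)
    (hlow : ρ * D ≤ ∫ t in V1..V2, a t) (hup : ∫ t in V1..V2, |a t| ≤ C6 * D) :
    v * ρ / 2 * D ≤ ∫ t in V1..V2, a t * φ t := by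
  have hc1 := tp_close a ha h0 c V1 V2 b (D / L) hb1
  have htp := tp_cont S c
  set I0 := ∫ t in V1..V2, a t with hI0
  set I1 := ∫ t in V1..V2, |a t| with hI1
  set Sb := ∑ τ ∈ S.erase 0, ‖c τ‖ * b τ with hSb
  have habs : Continuous fun t => |a t| := ha.abs
  have e1 : (∫ t in V1..V2, a t * tp S c t) - ε * I1 ≤ ∫ t in V1..V2, a t * φ t := by
    rw [hI1, ← intervalIntegral.integral_const_mul, ← intervalIntegral.integral_sub]
    · apply intervalIntegral.integral_mono_on hV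
      · apply Continuous.intervalIntegrable; fun_prop
      · apply Continuous.intervalIntegrable; fun_prop
      · intro t _
        have h1 : |a t * (φ t - tp S c t)| ≤ |a t| * ε := by
          rw [abs_mul]
          exact mul_le_mul_of_nonneg_left (hS t) (abs_nonneg _)
        have h2 := (abs_le.1 h1).1
        linarith
    · apply Continuous.intervalIntegrable; fun_prop
    · apply Continuous.intervalIntegrable; fun_prop
  have f1 := (abs_le.1 hc1).1
  have f5 : ε * I1 ≤ v * ρ / 8 * D := by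
    calc ε * I1 ≤ ε * (C6 * D) := mul_le_mul_of_nonneg_left hup hε0
      _ = (ε * C6) * D := by ring
      _ ≤ v * ρ / 8 * D := mul_le_mul_of_nonneg_right hε2 hD.le
  have f6 : Sb * (D / L) ≤ v * ρ / 8 * D := by
    calc Sb * (D / L) = (Sb * (1 / L)) * D := by ring
      _ ≤ v * ρ / 8 * D := mul_le_mul_of_nonneg_right hL hD.le
  have hc0 : 7 / 8 * v ≤ (c 0).re := by
    have := (abs_le.1 hM).1
    linarith
  have f7 : 7 / 8 * v * (ρ * D) ≤ (c 0).re * I0 := by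
    have h1 : 0 < ρ * D := by positivity
    exact mul_le_mul hc0 hlow h1.le (by linarith)
  have hpos : 0 < v * (ρ * D) := by positivity
  have f11 : v * ρ / 2 * D = 1 / 2 * (v * (ρ * D)) := by ring
  have f12 : v * ρ / 8 * D = 1 / 8 * (v * (ρ * D)) := by ring
  have f13 : 7 / 8 * v * (ρ * D) = 7 / 8 * (v * (ρ * D)) := by ring
  rw [f11]
  rw [f12] at f5 f6
  rw [f13] at f7
  linarith

/-- lower bound for the mean value with an almost periodic weight -/
theorem low_ap (hRH : RHs) (P : Par) (c3 CS TS : ℝ) (hc3 : 0 < c3) (hCS : 0 < CS)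
    (hS : ∀ T : ℝ, TS ≤ T →
      c3 ≤ (cexp (-(Real.pi * P.c : ℝ) * I) * SS P T).im ∧ ‖SS P T‖ ≤ CS)
    {φ : ℝ → ℝ} {M v : ℝ} (hφ : APm φ M) (hφc : Continuous φ) (hv : 0 < v) (hvM : v ≤ M) :
    ∃ T0 : ℝ, 10 ≤ T0 ∧ ∀ T : ℝ, T0 ≤ T → ∀ t0 : ℝ, 11 / 10 * T ≤ t0 → t0 ≤ 19 / 10 * T →
      v * c3 / 2 * dd P.κ T ≤ ∫ t in (T + 2 * Real.log T)..(2 * T - 2 * Real.log T),
        wt t0 (dd P.κ T) t * ‖DP (nn P.κ T) (dco P T) (⟨1 / 2, t⟩ : ℂ)‖ ^ 2 *
          (ff P.c T (⟨1 / 2 + P.a / Real.log T, t⟩ : ℂ)).im * φ t := by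
  have hPc0 : 0 < P.c := by linarith [P.hc]
  obtain ⟨CE, TE, hCE, hTE, hE⟩ := eval_gen hRH P.c P.a P.κ hPc0 P.hc1 P.ha P.ha1
    P.hκ P.hκ1
  obtain ⟨CD, TD, hCD, hTD, hD⟩ := Dp_mom hRH P
  obtain ⟨CF, TF, hCF, hTF, hF⟩ := ff_mom hRH P.c P.a P.κ hPc0 P.hc1 P.ha P.hκ P.hκ1
  obtain ⟨CH, TH, hCH, hTH, hH⟩ := ff_hor hRH P.c P.a hPc0 P.hc1 P.ha
  obtain ⟨Tb, hTb, hb⟩ := dco_bound P
  set C5 := CD + CF with hC5
  have hC50 : 0 < C5 := by positivity
  set C6 := 3 + C5 with hC6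
  have hC60 : 0 < C6 := by positivity
  -- the approximation
  set ε := min (v / 8) (v * c3 / (8 * C6)) with hε
  have hε0 : 0 < ε := lt_min (by positivity) (by positivity)
  have hε1 : ε ≤ v / 8 := min_le_left _ _
  have hε2 : ε * C6 ≤ v * c3 / 8 := by
    have h1 : ε ≤ v * c3 / (8 * C6) := min_le_right _ _
    rw [le_div_iff₀ (by positivity)] at h1
    linarith
  obtain ⟨S, cc, h0, hSa, hM⟩ := hφ ε hε0
  -- the twisted mean values
  have htw : ∀ τ : ℝ, ∃ C T0 : ℝ, 0 < C ∧ (τ ≠ 0 → ∀ T : ℝ, T0 ≤ T →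
      ∀ t0 : ℝ, 11 / 10 * T ≤ t0 → t0 ≤ 19 / 10 * T →
      ‖∫ t in (T + 2 * Real.log T)..(2 * T - 2 * Real.log T),
        (wt t0 (dd P.κ T) t * ‖DP (nn P.κ T) (dco P T) (⟨1 / 2, t⟩ : ℂ)‖ ^ 2 : ℝ) *
        ff P.c T (⟨1 / 2 + P.a / Real.log T, t⟩ : ℂ) * cexp ((τ : ℂ) * (⟨0, t⟩ : ℂ))‖ ≤
        C * dd P.κ T / Real.log T ∧
      ‖∫ t in (T + 2 * Real.log T)..(2 * T - 2 * Real.log T),
        (wt t0 (dd P.κ T) t * ‖DP (nn P.κ T) (dco P T) (⟨1 / 2, t⟩ : ℂ)‖ ^ 2 : ℝ) *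
        ff P.c T (⟨1 / 2 + P.a / Real.log T, t⟩ : ℂ) *
          cexp (((-τ : ℝ) : ℂ) * (⟨0, t⟩ : ℂ))‖ ≤
        C * dd P.κ T / Real.log T) := by
    intro τ
    by_cases hτ : τ = 0
    · exact ⟨1, 0, one_pos, fun h => absurd hτ h⟩
    · obtain ⟨C1, T1, hC1, hT1, h1⟩ := teval hRH P ⟨CS, TS, fun T hT => (hS T hT).2⟩ hτ
      obtain ⟨C2, T2, hC2, hT2, h2⟩ := teval hRH P ⟨CS, TS, fun T hT => (hS T hT).2⟩
        (neg_ne_zero.mpr hτ)
      refine ⟨C1 + C2, max (max T1 T2) 10, by positivity, fun _ T hT t0 ht1 ht2 => ?_⟩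
      simp only [max_le_iff] at hT
      have hT0 : 0 < T := by linarith [hT.2]
      have hlog : 0 < Real.log T := Real.log_pos (by linarith [hT.2])
      have hD0 : 0 < dd P.κ T := Real.rpow_pos_of_pos hT0 _
      constructor
      · refine (h1 T hT.1.1 t0 ht1 ht2).trans ?_
        gcongr
        linarith
      · refine (h2 T hT.1.2 t0 ht1 ht2).trans ?_
        gcongr
        linarith
  choose b Tb' hb' htw using htw
  set Sb := ∑ τ ∈ S.erase 0, ‖cc τ‖ * b τ with hSb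
  have hSb0 : 0 ≤ Sb := Finset.sum_nonneg fun τ _ => mul_nonneg (norm_nonneg _) (hb' τ).le
  set Tm := ∑ τ ∈ S, |Tb' τ| with hTm
  set B : ℝ := max 2 (max (Sb * (8 / (v * c3))) (CE * (1 + CS) / c3)) with hB
  obtain ⟨T1, hT1⟩ := (Real.tendsto_log_atTop.eventually_ge_atTop B).exists_forall_of_atTop
  obtain ⟨T2, hT2⟩ := (Real.isLittleO_log_id_atTop.bound
    (by norm_num : (0 : ℝ) < 1 / 4)).exists_forall_of_atTop
  refine ⟨max (max (max TS TE) (max TD TF)) (max (max TH Tb) (max Tm (max T1 T2))), ?_, ?_⟩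
  · exact hTE.trans ((le_max_right _ _).trans ((le_max_left _ _).trans (le_max_left _ _)))
  intro T hT t0 ht0 ht1
  simp only [max_le_iff] at hT
  obtain ⟨⟨⟨eS, eE⟩, eD, eF⟩, ⟨eH, eb⟩, eM, e1, e2⟩ := hT
  have hT10 : 10 ≤ T := hTE.trans eE
  have hTone : 1 ≤ T := by linarith
  have hTpos : 0 < T := by linarith
  have hLB := hT1 T e1
  rw [hB] at hLB
  simp only [max_le_iff] at hLB
  obtain ⟨hL2, hLS, hLE⟩ := hLB
  set L := Real.log T with hL
  have hL0 : 0 < L := by linarith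
  have hLT : 4 * L ≤ T := by
    have := hT2 T e2
    simp only [id, Real.norm_eq_abs] at this
    rw [abs_of_pos hTpos] at this
    have h := le_abs_self (Real.log T)
    rw [← hL] at h this
    linarith
  set Δ := dd P.κ T with hΔ
  have hΔ1 : 1 ≤ Δ := by
    rw [hΔ]; unfold dd
    exact Real.one_le_rpow hTone (by linarith [P.hκ1])
  have hΔ0 : 0 < Δ := by linarith
  set V1 := T + 2 * L with hV1
  set V2 := 2 * T - 2 * L with hV2
  have hV : V1 ≤ V2 := by rw [hV1, hV2]; linarith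
  set w : ℝ → ℝ := wt t0 Δ with hw
  have hw0 : ∀ t, 0 ≤ w t := fun t => wt_nonneg _ _ _
  have hwc : Continuous w := wt_cont _ _
  set Dn : ℝ → ℝ := fun t => ‖DP (nn P.κ T) (dco P T) (⟨1 / 2, t⟩ : ℂ)‖ with hDn
  have hDc : Continuous Dn := (DP_cont _ _).norm
  set f : ℝ → ℂ := fun t => ff P.c T (⟨1 / 2 + P.a / L, t⟩ : ℂ) with hf
  have hfc : ContinuousOn f (Set.Icc V1 V2) := by
    intro t ht
    have h1 := (hH T eH (⟨1 / 2 + P.a / L, t⟩ : ℂ) (by simp [hL])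
      (by
        have : P.a / L ≤ 1 := by
          rw [div_le_one hL0]; linarith [P.ha1]
        simp only
        linarith)
      (by simp only; rw [hV1] at ht; linarith [ht.1])
      (by simp only; rw [hV2] at ht; linarith [ht.2])).1
    have h2 : ContinuousAt f t :=
      ContinuousAt.comp (f := fun t : ℝ => (⟨1 / 2 + P.a / L, t⟩ : ℂ)) (g := ff P.c T)
        h1.continuousAt (mk_cont _).continuousAt
    exact h2.continuousWithinAt
  obtain ⟨g, hgc, hgf⟩ := ext_cont hV f hfc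
  have huIcc : Set.uIcc V1 V2 = Set.Icc V1 V2 := Set.uIcc_of_le hV
  set a : ℝ → ℝ := fun t => w t * Dn t ^ 2 with ha
  have hac : Continuous a := hwc.mul (hDc.pow 2)
  have ha0 : ∀ t, 0 ≤ a t := fun t => mul_nonneg (hw0 t) (by positivity)
  have hgim : Continuous fun t => (g t).im := Complex.continuous_im.comp hgc
  have hac2 : Continuous fun t => a t * (g t).im := hac.mul hgim
  -- lower bound without weight
  have hX : ∀ τ : ℝ, ∫ t in V1..V2, ((a t : ℝ) : ℂ) * f t * cexp ((τ : ℂ) * (⟨0, t⟩ : ℂ)) =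
      ∫ t in V1..V2, ((a t : ℝ) : ℂ) * g t * cexp ((τ : ℂ) * (⟨0, t⟩ : ℂ)) := by
    intro τ
    apply intervalIntegral.integral_congr
    intro t ht
    rw [huIcc] at ht
    simp only
    rw [hgf t ht]
  have hlow : c3 * Δ ≤ ∫ t in V1..V2, a t * (g t).im := by
    have h1 := hE T eE t0 ht0 ht1 (dco P T) (hb T eb)
    rw [SD_eq P T hT10] at h1
    obtain ⟨h2, h3⟩ := hS T eS
    set X : ℂ := ∫ t in V1..V2, ((a t : ℝ) : ℂ) * f t with hX
    have h4 : ‖X - (Real.sqrt (2 * Real.pi) * Δ : ℝ) * cexp (-(Real.pi * P.c : ℝ) * I) * SS P T‖ ≤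
        CE * Δ / L * (1 + ‖SS P T‖) := h1
    have hXg : X = ∫ t in V1..V2, ((a t : ℝ) : ℂ) * g t := by
      rw [hX]
      apply intervalIntegral.integral_congr
      intro t ht
      rw [huIcc] at ht
      simp only
      rw [hgf t ht]
    have hXim : X.im = ∫ t in V1..V2, a t * (g t).im := by
      have hint : IntervalIntegrable (fun t => ((a t : ℝ) : ℂ) * g t) volume V1 V2 := by
        apply Continuous.intervalIntegrable
        fun_prop
      have := Complex.imCLM.intervalIntegral_comp_comm hint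
      simp only [Complex.imCLM_apply, Complex.im_ofReal_mul] at this
      rw [hXg, ← this]
    set Y : ℂ := (Real.sqrt (2 * Real.pi) * Δ : ℝ) * cexp (-(Real.pi * P.c : ℝ) * I) * SS P T
      with hY
    have hYim : Real.sqrt (2 * Real.pi) * Δ * c3 ≤ Y.im := by
      have hY2 : Y = ((Real.sqrt (2 * Real.pi) * Δ : ℝ) : ℂ) *
          (cexp (-(Real.pi * P.c : ℝ) * I) * SS P T) := by rw [hY]; ring
      rw [hY2, Complex.im_ofReal_mul]
      exact mul_le_mul_of_nonneg_left h2 (by positivity)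
    have h5 : |(X - Y).im| ≤ ‖X - Y‖ := Complex.abs_im_le_norm _
    rw [Complex.sub_im] at h5
    have h6 := (abs_le.mp (h5.trans h4)).1
    have h7 : CE * Δ / L * (1 + ‖SS P T‖) ≤ c3 * Δ := by
      have e3 : CE * (1 + CS) ≤ c3 * L := by
        rw [div_le_iff₀ hc3] at hLE
        linarith
      calc CE * Δ / L * (1 + ‖SS P T‖) ≤ CE * Δ / L * (1 + CS) := by gcongr
        _ = CE * (1 + CS) * Δ / L := by ring
        _ ≤ c3 * L * Δ / L := by gcongr
        _ = c3 * Δ := by field_simp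
    have h8 : 2 * (Δ * c3) ≤ Real.sqrt (2 * Real.pi) * (Δ * c3) :=
      mul_le_mul_of_nonneg_right two_le_sqrt_two_pi (by positivity)
    rw [← hXim]
    linarith
  -- upper bound
  have i2 : IntervalIntegrable (fun t => w t * Dn t ^ 8) volume V1 V2 :=
    (hwc.mul (hDc.pow 8)).intervalIntegrable _ _
  have i3 : IntervalIntegrable (fun t => w t * ‖f t‖ ^ 4) volume V1 V2 := by
    apply ContinuousOn.intervalIntegrable
    rw [huIcc]
    exact hwc.continuousOn.mul (hfc.norm.pow 4)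
  have I1 : ∫ t in V1..V2, w t ≤ 3 * Δ :=
    (wt_int t0 Δ V1 V2 hΔ0 hV).trans (mul_le_mul_of_nonneg_right sqrt_two_pi_le hΔ0.le)
  have I2 : ∫ t in V1..V2, w t * Dn t ^ 8 ≤ CD * Δ := by
    have h1 := hD T eD t0
    have h2 : ∀ t : ℝ, Dp P T (⟨1 / 2, t⟩ : ℂ) = DP (nn P.κ T) (dco P T) (⟨1 / 2, t⟩ : ℂ) :=
      fun t => Dp_eq P T hT10 _
    simp only [h2] at h1
    exact h1
  have I3 : ∫ t in V1..V2, w t * ‖f t‖ ^ 4 ≤ CF * Δ := hF T eF t0
  have hup : ∫ t in V1..V2, |a t * (g t).im| ≤ C6 * Δ := by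
    have h1 : ∫ t in V1..V2, |a t * (g t).im| ≤
        ∫ t in V1..V2, (w t + (w t * Dn t ^ 8 + w t * ‖f t‖ ^ 4)) := by
      apply intervalIntegral.integral_mono_on hV
      · exact (hac2.abs).intervalIntegrable _ _
      · exact (hwc.intervalIntegrable _ _).add (i2.add i3)
      · intro t ht
        rw [hgf t ht, abs_mul, abs_of_nonneg (ha0 t)]
        have h2 : |(f t).im| ≤ ‖f t‖ := Complex.abs_im_le_norm _
        have h3 : Dn t ^ 2 * ‖f t‖ ≤ 1 + (Dn t ^ 8 + ‖f t‖ ^ 4) := by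
          have h4 : (Dn t ^ 2 * ‖f t‖) ^ 2 ≤ Dn t ^ 8 + ‖f t‖ ^ 4 := by
            nlinarith [sq_nonneg (Dn t ^ 4 - ‖f t‖ ^ 2), sq_nonneg (Dn t ^ 4),
              sq_nonneg (‖f t‖ ^ 2)]
          nlinarith [sq_nonneg (Dn t ^ 2 * ‖f t‖ - 1)]
        have h5 : a t * |(f t).im| ≤ a t * ‖f t‖ := mul_le_mul_of_nonneg_left h2 (ha0 t)
        have h6 := mul_le_mul_of_nonneg_left h3 (hw0 t)
        have h7 : a t * ‖f t‖ = w t * (Dn t ^ 2 * ‖f t‖) := by rw [ha]; ring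
        linarith
    rw [intervalIntegral.integral_add (hwc.intervalIntegrable _ _) (i2.add i3),
      intervalIntegral.integral_add i2 i3] at h1
    rw [hC6, hC5]
    linarith
  -- conclusion
  have hTτ : ∀ τ ∈ S.erase 0, Tb' τ ≤ T := by
    intro τ hτ
    have h1 : |Tb' τ| ≤ Tm := Finset.single_le_sum (f := fun τ => |Tb' τ|)
      (fun i _ => abs_nonneg _) (Finset.mem_of_mem_erase hτ)
    exact (le_abs_self _).trans (h1.trans eM)
  have hmain := low_abs (fun t => a t * (g t).im) φ hac2 hφc h0 cc M v ε c3 C6 Δ L V1 V2 b hSa hM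
    hvM hv hε0.le hε1 hε2 hc3 hΔ0 hV (by
      intro τ hτ
      obtain ⟨h1, h2⟩ := htw τ (Finset.ne_of_mem_erase hτ) T (hTτ τ hτ) t0 ht0 ht1
      have h3 := im_twist a g hac hgc V1 V2 τ
      rw [← hX τ, ← hX (-τ)] at h3
      refine h3.trans ?_
      have h1' : ‖∫ t in V1..V2, ((a t : ℝ) : ℂ) * f t * cexp ((τ : ℂ) * (⟨0, t⟩ : ℂ))‖ ≤
        b τ * Δ / L := h1
      have h2' : ‖∫ t in V1..V2, ((a t : ℝ) : ℂ) * f t *
        cexp (((-τ : ℝ) : ℂ) * (⟨0, t⟩ : ℂ))‖ ≤ b τ * Δ / L := h2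
      rw [mul_div_assoc] at h1' h2'
      linarith) (by
      have h1 : Sb * (8 / (v * c3)) = Sb / (v * c3 / 8) := by
        field_simp
      rw [h1, div_le_iff₀ (by positivity)] at hLS
      rw [mul_one_div, div_le_iff₀ hL0]
      linarith) hlow hup
  refine hmain.trans (le_of_eq ?_)
  apply intervalIntegral.integral_congr
  intro t ht
  rw [huIcc] at ht
  simp only
  rw [hgf t ht]

end Helper89G
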