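import Pool.Agent.Helper89G.SG7

/-! Many small gaps in every window, among the zeros with an almost periodic weight. -/

open Complex Filter Topology Set MeasureTheory

namespace Helper89G

open SP SP.ManyAux
open SG (phi hh nn dd dl ord NZ zmult)
open TH803TW (tp tp_cont APm split_zero)

/-- **many small gaps near every `t0`, with weight** -/
theorem many_ap (hRH : RHs) (c1 : ℝ) (hc : 1 / 2 < c1) (hc1 : c1 < 1) :
    ∃ κ : ℝ, 0 < κ ∧ κ < 1 / 2 ∧ ∀ v : ℝ, 0 < v → ∃ ε K : ℝ, 0 < ε ∧ 1 ≤ K ∧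
    ∀ (φ : ℝ → ℝ) (Mφ : ℝ), APm φ Mφ → Continuous φ → (∀ t, 0 ≤ φ t) → (∀ t, φ t ≤ 1) → v ≤ Mφ →
    ∀ Qp : ℝ → Prop, (∃ δ0 : ℝ, 0 < δ0 ∧ ∀ s t : ℝ, |s - t| ≤ δ0 → φ t ≠ 0 → Qp s) →
    ∃ T0 : ℝ, 10 ≤ T0 ∧ ∀ T : ℝ, T0 ≤ T → ∀ t0 : ℝ, 11 / 10 * T ≤ t0 → t0 ≤ 19 / 10 * T →
    ε * dd κ T * Real.log T ≤
      ({n : ℕ | 1 ≤ n ∧ |ord n - t0| ≤ K * dd κ T ∧
        ord (n + 1) - ord n < 2 * Real.pi * c1 / Real.log T ∧ Qp (ord n)}.ncard : ℝ) := by
  classical
  obtain ⟨P, hPc, c3', CS, TS, hc3', hCS, hTS, hS⟩ :=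
    S_pos ((1 / 2 + c1) / 2) (by linarith) (by linarith)
  have hPc1 : P.c < c1 := by rw [hPc]; linarith
  have hPc0 : 0 < P.c := by linarith [P.hc]
  obtain ⟨CD, TD, hCD, hTD, hD⟩ := Dp_mom hRH P
  obtain ⟨CF, TF, hCF, hTF, hF⟩ := ff_mom hRH P.c P.a P.κ hPc0 P.hc1 P.ha P.hκ P.hκ1
  obtain ⟨CH, TH, hCH, hTH, hH⟩ := ff_hor hRH P.c P.a hPc0 P.hc1 P.ha
  obtain ⟨CM, hCM, hM⟩ := Mk_mean hRH P.κ P.hκ P.hκ1
  obtain ⟨η, C4, R0, hη, hC4, hR0, hI⟩ := ff_im hRH P.c c1 P.a hPc0 hPc1 (by linarith)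
    P.ha
  set C5 := CD + CF with hC5
  have hC50 : 0 < C5 := by positivity
  refine ⟨P.κ, P.hκ, P.hκ1, fun v hv => ?_⟩
  set c3 := v * c3' / 2 with hc3def
  have hc3 : 0 < c3 := by positivity
  set ϵ := c3 / (8 * C5) with hϵ
  have hϵ0 : 0 < ϵ := by positivity
  have hϵ1 : ϵ * C5 = c3 / 8 := by rw [hϵ]; field_simp
  obtain ⟨k, hk⟩ := exists_nat_ge (max R0 (8 * CM / (ϵ * η * c3)))
  have hkR : R0 ≤ k := (le_max_left _ _).trans hk
  have hkC : 8 * CM / (ϵ * η * c3) ≤ k := (le_max_right _ _).trans hk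
  have hk1' : (1 : ℝ) ≤ k := hR0.trans hkR
  have hk1 : 1 ≤ k := by exact_mod_cast hk1'
  have hk0 : (0 : ℝ) < k := by linarith
  obtain ⟨TM, hTM, hMk⟩ := hM k hk1
  obtain ⟨TI, hTI, hIm⟩ := hI k hkR
  obtain ⟨M, hM0, hMe⟩ := exists_M (c3 * ϵ / 12) (by positivity)
  -- largeness of `T`
  obtain ⟨T2, hT2⟩ := (Real.isLittleO_log_id_atTop.bound
    (by norm_num : (0 : ℝ) < 1 / 4)).exists_forall_of_atTop
  refine ⟨c3 * ϵ / k, M + 1, by positivity, by linarith, ?_⟩
  intro φ Mφ hφ hφc hφ0 hφ1 hvM Qp hQp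
  obtain ⟨δ0, hδ0, hQ⟩ := hQp
  obtain ⟨TL, hTL, hlowA⟩ := low_ap hRH P c3' CS TS hc3' hCS (by
    intro T hT
    have := hS T hT
    rw [← hPc] at this
    exact this) hφ hφc hv hvM
  set B : ℝ := max (max 2 (8 * C4 * (3 + C5) / c3)) (max (k : ℝ) (k / δ0)) with hB
  obtain ⟨T1, hT1⟩ := (Real.tendsto_log_atTop.eventually_ge_atTop B).exists_forall_of_atTop
  refine ⟨max (max TS (max TD TF)) (max (max TH TL) (max (max TM TI) (max T1 T2))), ?_, ?_⟩
  · exact hTS.trans ((le_max_left _ _).trans (le_max_left _ _))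
  intro T hT t0 ht0 ht1
  simp only [max_le_iff] at hT
  obtain ⟨⟨eS, eD, eF⟩, ⟨eH, eL⟩, ⟨eM, eI⟩, e1, e2⟩ := hT
  have hT10 : 10 ≤ T := hTS.trans eS
  have hTone : 1 ≤ T := by linarith
  have hTpos : 0 < T := by linarith
  have hLB := hT1 T e1
  rw [hB] at hLB
  simp only [max_le_iff] at hLB
  obtain ⟨⟨hL2, hLC4⟩, hLk, hLδ⟩ := hLB
  set L := Real.log T with hL
  have hL0 : 0 < L := by linarith
  have hLT : 4 * L ≤ T := by
    have := hT2 T e2
    simp only [id, Real.norm_eq_abs] at this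
    rw [abs_of_pos hTpos] at this
    have h := le_abs_self (Real.log T)
    rw [← hL] at h this
    linarith
  set Δ := dd P.κ T with hΔ
  have hΔ1 : 1 ≤ Δ := by
    rw [hΔ]; unfold dd
    exact Real.one_le_rpow hTone (by linarith [P.hκ1])
  have hΔ0 : 0 < Δ := by linarith
  set V1 := T + 2 * L with hV1
  set V2 := 2 * T - 2 * L with hV2
  have hV : V1 ≤ V2 := by rw [hV1, hV2]; linarith
  set w : ℝ → ℝ := wt t0 Δ with hw
  have hw0 : ∀ t, 0 ≤ w t := fun t => wt_nonneg _ _ _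
  have hw1 : ∀ t, w t ≤ 1 := fun t => wt_le_one _ _ _
  have hwc : Continuous w := wt_cont _ _
  set Dn : ℝ → ℝ := fun t => ‖DP (nn P.κ T) (dco P T) (⟨1 / 2, t⟩ : ℂ)‖ with hDn
  have hDc : Continuous Dn := (DP_cont _ _).norm
  set f : ℝ → ℂ := fun t => ff P.c T (⟨1 / 2 + P.a / L, t⟩ : ℂ) with hf
  have hfc : ContinuousOn f (Set.Icc V1 V2) := by
    intro t ht
    have h1 := (hH T eH (⟨1 / 2 + P.a / L, t⟩ : ℂ) (by simp [hL])
      (by
        have : P.a / L ≤ 1 := by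
          rw [div_le_one hL0]; linarith [P.ha1]
        simp only
        linarith)
      (by simp only; rw [hV1] at ht; linarith [ht.1])
      (by simp only; rw [hV2] at ht; linarith [ht.2])).1
    have h2 : ContinuousAt f t :=
      ContinuousAt.comp (f := fun t : ℝ => (⟨1 / 2 + P.a / L, t⟩ : ℂ)) (g := ff P.c T)
        h1.continuousAt (mk_cont _).continuousAt
    exact h2.continuousWithinAt
  have hfn : ContinuousOn (fun t => ‖f t‖) (Set.Icc V1 V2) := hfc.norm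
  have hfi : ContinuousOn (fun t => (f t).im) (Set.Icc V1 V2) :=
    Complex.continuous_im.comp_continuousOn hfc
  have huIcc : Set.uIcc V1 V2 = Set.Icc V1 V2 := Set.uIcc_of_le hV
  have hMkc : Continuous (fun t => Mk T k t) := Mk_cont T k hTone
  -- lower bound
  have hlow : c3 * Δ ≤ ∫ t in V1..V2, w t * Dn t ^ 2 * (f t).im * φ t :=
    hlowA T eL t0 ht0 ht1
  have hkδ : (k : ℝ) / L ≤ δ0 := by
    rw [div_le_iff₀ hδ0] at hLδ
    rw [div_le_iff₀ hL0]
    linarith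
  -- the index set
  have hfin : {n : ℕ | 1 ≤ n ∧ |ord n - t0| ≤ (M + 1) * Δ ∧
      ord (n + 1) - ord n < 2 * Real.pi * c1 / L ∧ Qp (ord n)}.Finite :=
    (idx_finite t0 ((M + 1) * Δ)).subset (fun n hn => ⟨hn.1, hn.2.1⟩)
  set N := hfin.toFinset with hN
  have hcard : {n : ℕ | 1 ≤ n ∧ |ord n - t0| ≤ (M + 1) * Δ ∧
      ord (n + 1) - ord n < 2 * Real.pi * c1 / L ∧ Qp (ord n)}.ncard = N.card :=
    Set.ncard_eq_toFinset_card _ hfin
  rw [hcard]
  set S : ℝ → ℝ := fun t => ∑ n ∈ N,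
    (Set.Icc (ord n - k / L) (ord n + k / L)).indicator (fun _ => (1 : ℝ)) t with hSdef
  have hkL0 : 0 < (k : ℝ) / L := by positivity
  have hkL1 : (k : ℝ) / L ≤ Δ := by
    rw [div_le_iff₀ hL0]
    exact hLk.trans (le_mul_of_one_le_left hL0.le hΔ1)
  have hS0 : ∀ t, 0 ≤ S t := fun t =>
    Finset.sum_nonneg (fun n _ => Set.indicator_nonneg (fun _ _ => zero_le_one) t)
  have hSi : ∀ n, IntervalIntegrable (fun t => (Set.Icc (ord n - k / L)
      (ord n + k / L)).indicator (fun _ => (1 : ℝ)) t) volume V1 V2 := fun n =>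
    (ind_int (ord n - k / L) (ord n + k / L) V1 V2 (by linarith) hV).1
  have iS : IntervalIntegrable S volume V1 V2 := by
    have h1 := IntervalIntegrable.sum N (fun n _ => hSi n)
    have h2 : (∑ n ∈ N, (fun t => (Set.Icc (ord n - k / L)
      (ord n + k / L)).indicator (fun _ => (1 : ℝ)) t)) = S := by
      funext t
      rw [Finset.sum_apply]
    rw [← h2]
    exact h1
  have I4 : ∫ t in V1..V2, S t ≤ N.card * (2 * (k / L)) := by
    rw [hSdef, intervalIntegral.integral_finsetSum (fun n _ => hSi n)]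
    calc _ ≤ ∑ n ∈ N, (2 * ((k : ℝ) / L)) := by
          apply Finset.sum_le_sum
          intro n _
          refine ((ind_int (ord n - k / L) (ord n + k / L) V1 V2 (by linarith) hV).2).trans ?_
          linarith
      _ = N.card * (2 * (k / L)) := by rw [Finset.sum_const, nsmul_eq_mul]
  -- pointwise bound
  have hpt : ∀ t ∈ Set.Icc V1 V2, w t * Dn t ^ 2 * (f t).im * φ t ≤
      C4 / L * w t + (C4 / L + ϵ) * (w t * Dn t ^ 8) + (C4 / L + ϵ) * (w t * ‖f t‖ ^ 4) +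
      1 / (4 * ϵ) * S t + 1 / (4 * ϵ) * Real.exp (-M ^ 2 / 4) * wt t0 (2 * Δ) t +
      1 / (4 * ϵ) * (4 / (k ^ 2 * η)) * (w t * Mk T k t) := by
    intro t ht
    have htV1 : T + 2 * L ≤ t := ht.1
    have htV2 : t ≤ 2 * T - 2 * L := ht.2
    have hMk0 : 0 ≤ Mk T k t := Mk_nonneg T k t hTone
    have him : (f t).im ≤ ‖f t‖ := (le_abs_self _).trans (Complex.abs_im_le_norm _)
    by_cases hφt : φ t = 0
    · rw [hφt, mul_zero]
      have q1 := hw0 t
      have q2 := hS0 t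
      have q3 : 0 ≤ wt t0 (2 * Δ) t := wt_nonneg _ _ _
      have q4 : 0 ≤ Dn t := norm_nonneg _
      positivity
    set hyp := ((∀ s ∈ ZZ T, |s.im - t| ≤ k / Real.log T → mu s = 1) ∧
      (∀ s ∈ ZZ T, ∀ s' ∈ ZZ T, |s.im - t| ≤ k / Real.log T → |s'.im - t| ≤ k / Real.log T →
      s ≠ s' → 2 * Real.pi * c1 / Real.log T ≤ |s.im - s'.im|)) with hhyp
    set b1 : ℝ := if hyp then 0 else 1 with hb1
    have hb10 : 0 ≤ b1 := by rw [hb1]; split_ifs <;> norm_num
    -- the dichotomy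
    have hdich : (f t).im ≤ C4 / L * ‖f t‖ ∨ 1 ≤ b1 + 4 / (k ^ 2 * η) * Mk T k t := by
      by_cases hh : hyp
      · have hh' := hh
        rw [hhyp] at hh'
        by_cases hfar : (∑ᶠ s ∈ {s : ℂ | s ∈ ZZ T ∧ k / Real.log T < |s.im - t| ∧ |s.im - t| ≤ 1},
            (mu s : ℝ) / (Real.log T * (s.im - t)) ^ 2) ≤ η
        · left
          exact hIm T eI t (by linarith) (by linarith) hh'.1 hh'.2 hfar
        · right
          push Not at hfar
          have h1 := far_bound T k t hT10 hk1'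
          have h2 : η ≤ 4 / k ^ 2 * Mk T k t := hfar.le.trans h1
          have h3 : 4 / (k ^ 2 * η) * Mk T k t = (4 / k ^ 2 * Mk T k t) / η := by
            field_simp
          have h4 : 1 ≤ 4 / (k ^ 2 * η) * Mk T k t := by
            rw [h3, le_div_iff₀ hη]; linarith
          linarith
      · right
        have : b1 = 1 := by rw [hb1, if_neg hh]
        have h5 : 0 ≤ 4 / (k ^ 2 * η) * Mk T k t := by positivity
        linarith
    have h1 := pointwise (D2 := Dn t) (F2 := ‖f t‖) hϵ0 (by positivity : 0 ≤ C4 / L)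
      (by positivity : 0 ≤ b1 + 4 / (k ^ 2 * η) * Mk T k t) (norm_nonneg _) (norm_nonneg _)
      him hdich
    have h2 := mul_le_mul_of_nonneg_left h1 (hw0 t)
    -- the indicator part
    have h3 : w t * b1 ≤ S t + Real.exp (-M ^ 2 / 4) * wt t0 (2 * Δ) t := by
      have hE0 : 0 ≤ Real.exp (-M ^ 2 / 4) * wt t0 (2 * Δ) t :=
        mul_nonneg (Real.exp_pos _).le (wt_nonneg _ _ _)
      by_cases hh : hyp
      · have : b1 = 0 := by rw [hb1, if_pos hh]
        rw [this, mul_zero]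
        linarith [hS0 t]
      · have hb : b1 = 1 := by rw [hb1, if_neg hh]
        rw [hb, mul_one]
        obtain ⟨n, hn, h5, h6⟩ := small_near hTone hL0 (by linarith) hh
        by_cases hn0 : |ord n - t0| ≤ (M + 1) * Δ
        · have hnN : n ∈ N := by
            rw [hN, Set.Finite.mem_toFinset]
            exact ⟨hn, hn0, h6, hQ _ t (h5.trans hkδ) hφt⟩
          have h7 : (1 : ℝ) ≤ S t := by
            have h8 : (Set.Icc (ord n - k / L) (ord n + k / L)).indicator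
                (fun _ => (1 : ℝ)) t = 1 := by
              apply Set.indicator_of_mem
              rw [abs_le] at h5
              constructor <;> linarith
            rw [← h8]
            exact Finset.single_le_sum (f := fun n =>
              (Set.Icc (ord n - k / L) (ord n + k / L)).indicator (fun _ => (1 : ℝ)) t)
              (fun n _ => Set.indicator_nonneg (fun _ _ => zero_le_one) t) hnN
          linarith [hw1 t]
        · push Not at hn0
          have h7 : M * Δ ≤ |t - t0| := by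
            have h8 : |ord n - t0| ≤ |ord n - t| + |t - t0| := by
              have := abs_add_le (ord n - t) (t - t0)
              simpa using this
            have h9 : |ord n - t| ≤ Δ := h5.trans hkL1
            have h10 : (M + 1) * Δ = M * Δ + Δ := by ring
            linarith
          have := wt_tail t0 Δ t M hΔ0 hM0 h7
          linarith [hS0 t]
    have h4 : 1 / (4 * ϵ) * (w t * b1) ≤
        1 / (4 * ϵ) * (S t + Real.exp (-M ^ 2 / 4) * wt t0 (2 * Δ) t) :=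
      mul_le_mul_of_nonneg_left h3 (by positivity)
    have e3 : w t * Dn t ^ 2 * (f t).im * φ t = φ t * (w t * (Dn t ^ 2 * (f t).im)) := by ring
    rw [e3]
    have h7 : 0 ≤ w t * (C4 / L * (1 + (Dn t ^ 8 + ‖f t‖ ^ 4)) + ϵ * (Dn t ^ 8 + ‖f t‖ ^ 4) +
        1 / (4 * ϵ) * (b1 + 4 / (k ^ 2 * η) * Mk T k t)) := by
      have q1 := hw0 t
      have q4 : 0 ≤ Dn t := norm_nonneg _
      positivity
    have h8 := mul_le_mul_of_nonneg_left h2 (hφ0 t)
    have h9 := mul_le_mul_of_nonneg_right (hφ1 t) h7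
    rw [one_mul] at h9
    refine (h8.trans h9).trans ?_
    have e4 : w t * (C4 / L * (1 + (Dn t ^ 8 + ‖f t‖ ^ 4)) + ϵ * (Dn t ^ 8 + ‖f t‖ ^ 4) +
        1 / (4 * ϵ) * (b1 + 4 / (k ^ 2 * η) * Mk T k t)) =
        C4 / L * w t + (C4 / L + ϵ) * (w t * Dn t ^ 8) + (C4 / L + ϵ) * (w t * ‖f t‖ ^ 4) +
        1 / (4 * ϵ) * (w t * b1) + 1 / (4 * ϵ) * (4 / (k ^ 2 * η)) * (w t * Mk T k t) := by
      ring
    rw [e4]
    linarith
  -- integrability
  have i1 : IntervalIntegrable w volume V1 V2 := hwc.intervalIntegrable _ _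
  have i2 : IntervalIntegrable (fun t => w t * Dn t ^ 8) volume V1 V2 :=
    (hwc.mul (hDc.pow 8)).intervalIntegrable _ _
  have i3 : IntervalIntegrable (fun t => w t * ‖f t‖ ^ 4) volume V1 V2 := by
    apply ContinuousOn.intervalIntegrable
    rw [huIcc]
    exact hwc.continuousOn.mul (hfn.pow 4)
  have i5 : IntervalIntegrable (fun t => wt t0 (2 * Δ) t) volume V1 V2 :=
    (wt_cont _ _).intervalIntegrable _ _
  have i6 : IntervalIntegrable (fun t => w t * Mk T k t) volume V1 V2 :=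
    (hwc.mul hMkc).intervalIntegrable _ _
  have i0 : IntervalIntegrable (fun t => w t * Dn t ^ 2 * (f t).im * φ t) volume V1 V2 := by
    apply ContinuousOn.intervalIntegrable
    rw [huIcc]
    exact ((hwc.mul (hDc.pow 2)).continuousOn.mul hfi).mul hφc.continuousOn
  -- the integrals
  have I1 : ∫ t in V1..V2, w t ≤ 3 * Δ :=
    (wt_int t0 Δ V1 V2 hΔ0 hV).trans (mul_le_mul_of_nonneg_right sqrt_two_pi_le hΔ0.le)
  have I2 : ∫ t in V1..V2, w t * Dn t ^ 8 ≤ CD * Δ := by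
    have h1 := hD T eD t0
    have h2 : ∀ t : ℝ, Dp P T (⟨1 / 2, t⟩ : ℂ) = DP (nn P.κ T) (dco P T) (⟨1 / 2, t⟩ : ℂ) :=
      fun t => Dp_eq P T hT10 _
    simp only [h2] at h1
    exact h1
  have I3 : ∫ t in V1..V2, w t * ‖f t‖ ^ 4 ≤ CF * Δ := hF T eF t0
  have I5 : ∫ t in V1..V2, wt t0 (2 * Δ) t ≤ 6 * Δ := by
    have h1 := wt_int t0 (2 * Δ) V1 V2 (by positivity) hV
    have h2 : Real.sqrt (2 * Real.pi) * (2 * Δ) ≤ 3 * (2 * Δ) :=
      mul_le_mul_of_nonneg_right sqrt_two_pi_le (by positivity)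
    linarith
  have I6 : ∫ t in V1..V2, w t * Mk T k t ≤ CM * k * Δ :=
    hMk T eM t0 V1 V2 hV (by rw [hV1]; linarith) (by rw [hV2]; linarith)
  have hint := intervalIntegral.integral_mono_on hV i0
    ((((((i1.const_mul (C4 / L)).add (i2.const_mul (C4 / L + ϵ))).add
      (i3.const_mul (C4 / L + ϵ))).add (iS.const_mul (1 / (4 * ϵ)))).add
      (i5.const_mul (1 / (4 * ϵ) * Real.exp (-M ^ 2 / 4)))).add
      (i6.const_mul (1 / (4 * ϵ) * (4 / (k ^ 2 * η))))) hpt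
  rw [intervalIntegral.integral_add
    (((((i1.const_mul (C4 / L)).add (i2.const_mul (C4 / L + ϵ))).add
      (i3.const_mul (C4 / L + ϵ))).add (iS.const_mul (1 / (4 * ϵ)))).add
      (i5.const_mul (1 / (4 * ϵ) * Real.exp (-M ^ 2 / 4))))
      (i6.const_mul (1 / (4 * ϵ) * (4 / (k ^ 2 * η)))),
    intervalIntegral.integral_add
    ((((i1.const_mul (C4 / L)).add (i2.const_mul (C4 / L + ϵ))).add
      (i3.const_mul (C4 / L + ϵ))).add (iS.const_mul (1 / (4 * ϵ))))
      (i5.const_mul (1 / (4 * ϵ) * Real.exp (-M ^ 2 / 4))),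
    intervalIntegral.integral_add
    (((i1.const_mul (C4 / L)).add (i2.const_mul (C4 / L + ϵ))).add
      (i3.const_mul (C4 / L + ϵ))) (iS.const_mul (1 / (4 * ϵ))),
    intervalIntegral.integral_add
    ((i1.const_mul (C4 / L)).add (i2.const_mul (C4 / L + ϵ)))
      (i3.const_mul (C4 / L + ϵ)),
    intervalIntegral.integral_add (i1.const_mul (C4 / L)) (i2.const_mul (C4 / L + ϵ)),
    intervalIntegral.integral_const_mul, intervalIntegral.integral_const_mul,
    intervalIntegral.integral_const_mul, intervalIntegral.integral_const_mul,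
    intervalIntegral.integral_const_mul, intervalIntegral.integral_const_mul] at hint
  -- arithmetic
  have hCL0 : 0 < C4 / L := by positivity
  have J1 := mul_le_mul_of_nonneg_left I1 hCL0.le
  have J2 := mul_le_mul_of_nonneg_left I2 (by positivity : 0 ≤ C4 / L + ϵ)
  have J3 := mul_le_mul_of_nonneg_left I3 (by positivity : 0 ≤ C4 / L + ϵ)
  have J4 := mul_le_mul_of_nonneg_left I4 (by positivity : 0 ≤ 1 / (4 * ϵ))
  have J5 := mul_le_mul_of_nonneg_left I5
    (by positivity : 0 ≤ 1 / (4 * ϵ) * Real.exp (-M ^ 2 / 4))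
  have J6 := mul_le_mul_of_nonneg_left I6 (by positivity : 0 ≤ 1 / (4 * ϵ) * (4 / (k ^ 2 * η)))
  have K1 : C4 / L * (3 + C5) * Δ ≤ c3 / 8 * Δ := by
    apply mul_le_mul_of_nonneg_right _ hΔ0.le
    rw [div_le_iff₀ hc3] at hLC4
    rw [div_mul_eq_mul_div, div_le_iff₀ hL0]
    linarith
  have K5 : 1 / (4 * ϵ) * Real.exp (-M ^ 2 / 4) * (6 * Δ) ≤ c3 / 8 * Δ := by
    calc 1 / (4 * ϵ) * Real.exp (-M ^ 2 / 4) * (6 * Δ) ≤
        1 / (4 * ϵ) * (c3 * ϵ / 12) * (6 * Δ) := by gcongr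
      _ = c3 / 8 * Δ := by field_simp; ring
  have K6 : 1 / (4 * ϵ) * (4 / (k ^ 2 * η)) * (CM * k * Δ) ≤ c3 / 8 * Δ := by
    have h1 : 1 / (4 * ϵ) * (4 / (k ^ 2 * η)) * (CM * k * Δ) = CM / (ϵ * η * k) * Δ := by
      field_simp
    rw [h1]
    apply mul_le_mul_of_nonneg_right _ hΔ0.le
    rw [div_le_iff₀ (by positivity)] at hkC ⊢
    linarith
  have K : c3 / 2 * Δ ≤ 1 / (4 * ϵ) * (N.card * (2 * (k / L))) := by
    have h1 : (C4 / L + ϵ) * (CD * Δ) + (C4 / L + ϵ) * (CF * Δ) + C4 / L * (3 * Δ) =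
        C4 / L * (3 + C5) * Δ + (ϵ * C5) * Δ := by rw [hC5]; ring
    rw [hϵ1] at h1
    linarith
  have e5 : 1 / (4 * ϵ) * (N.card * (2 * (k / L))) = N.card * k / (2 * ϵ * L) := by
    field_simp
    ring
  rw [e5, le_div_iff₀ (by positivity)] at K
  have e6 : c3 * ϵ / k * Δ * L = (c3 / 2 * Δ * (2 * ϵ * L)) / k := by
    field_simp
  rw [e6, div_le_iff₀ hk0]
  exact K

end Helper89G
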