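import Pool.Agent.Helper89G.SG8
import Pool.Agent.Helper89G.LB

/-! Small gaps next to the zeros in a Bohr set, in short intervals. -/

open Complex Filter Topology Set MeasureTheory

namespace Helper89G

open SG (dd ord NZ)
open SP (RHs)
open TH803TW (tp tp_cont APm split_zero haarT torusPt APm_torus)

/-- **small gaps in Bohr sets and short intervals** -/
theorem small_bohr (hRH : RHs) (β : ℝ) (hβ : 1 / 2 < β) :
    ∃ θ : ℝ, θ < 1 ∧ ∀ v : ℝ, 0 < v → ∃ ε : ℝ, 0 < ε ∧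
    ∀ (k : ℕ) (α : Fin k → ℝ), (∀ n : Fin k → ℤ, ∑ j, (n j : ℝ) * α j = 0 → n = 0) →
    ∀ U : Set (UnitAddTorus (Fin k)), IsOpen U → v ≤ (haarT k U).toReal →
    ∃ T1 : ℝ, ∀ T : ℝ, T1 ≤ T → ∀ H : ℝ, T ^ θ ≤ H → H ≤ T / 2 →
      ε * (H * Real.log T) ≤ ({n : ℕ | 1 ≤ n ∧ T ≤ ord n ∧ ord n ≤ T + H ∧
        torusPt α (ord n) ∈ U ∧ W197.del n < β}.ncard : ℝ) := by
  set c1 : ℝ := (1 / 2 + min β 1) / 2 with hc1d
  have hm1 : 1 / 2 < min β 1 := lt_min hβ (by norm_num)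
  have hm2 : min β 1 ≤ β := min_le_left _ _
  have hm3 : min β 1 ≤ 1 := min_le_right _ _
  have hc1 : 1 / 2 < c1 := by rw [hc1d]; linarith
  have hc1' : c1 < 1 := by rw [hc1d]; linarith
  have hc1β : c1 < β := by rw [hc1d]; linarith
  obtain ⟨κ, hκ, hκ2, hloc⟩ := many_ap hRH c1 hc1 hc1'
  refine ⟨1 - κ / 4, by linarith, fun v hv => ?_⟩
  obtain ⟨ε, K, hε, hK, hloc⟩ := hloc (v / 4) (by positivity)
  refine ⟨ε / (12 * K), by positivity, fun k α hα U hU hvU => ?_⟩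
  obtain ⟨φ, M, hφ, hφc, hφ0, hφ1, hvM, hQ⟩ := bohr_data hα hU hv hvU
  obtain ⟨T0, hT0, hloc⟩ := hloc φ M hφ hφc hφ0 hφ1 hvM (fun s => torusPt α s ∈ U) hQ
  obtain ⟨T1, hT1, h⟩ := tile' κ K ε T0 hκ hκ2 hK hε hT0
    (fun T n => ord (n + 1) - ord n < 2 * Real.pi * c1 / Real.log T ∧ torusPt α (ord n) ∈ U) hloc
  -- `c1 (1 + log (2T)) < β log (5T/6)` for large `T`
  have hev : ∀ᶠ T : ℝ in atTop, c1 * (1 + Real.log (2 * T)) < β * Real.log (5 / 6 * T) := by
    have h1 : Tendsto (fun T : ℝ => (β - c1) * Real.log T) atTop atTop :=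
      Real.tendsto_log_atTop.const_mul_atTop (by linarith)
    filter_upwards [tendsto_atTop.mp h1 (c1 * (1 + Real.log 2) - β * Real.log (5 / 6) + 1),
      eventually_gt_atTop 0] with T hT hT0
    rw [Real.log_mul (by norm_num) hT0.ne', Real.log_mul (by norm_num) hT0.ne']
    nlinarith
  obtain ⟨T2, hT2⟩ := hev.exists_forall_of_atTop
  refine ⟨max T1 T2, fun T hT H hH1 hH2 => ?_⟩
  have hTT1 : T1 ≤ T := (le_max_left _ _).trans hT
  have hT100 : 100 ≤ T := hT1.trans hTT1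
  refine (h T hTT1 H hH1 hH2).trans ?_
  have hsub : {n : ℕ | 1 ≤ n ∧ T ≤ ord n ∧ ord n ≤ T + H ∧
      (ord (n + 1) - ord n < 2 * Real.pi * c1 / Real.log (5 / 6 * T) ∧
        torusPt α (ord n) ∈ U)} ⊆
      {n : ℕ | 1 ≤ n ∧ T ≤ ord n ∧ ord n ≤ T + H ∧ torusPt α (ord n) ∈ U ∧ W197.del n < β} := by
    rintro n ⟨h1, h2, h3, h4, hU4⟩
    refine ⟨h1, h2, h3, hU4, ?_⟩
    have hpi := Real.pi_pos
    have hpi4 := Real.pi_lt_four
    have hlog : 2 ≤ Real.log (5 / 6 * T) := by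
      rw [Real.le_log_iff_exp_le (by linarith)]
      have h5 : Real.exp 2 = Real.exp 1 ^ 2 := by rw [← Real.exp_nat_mul]; norm_num
      rw [h5]
      have h6 := Real.exp_one_lt_d9
      have h7 := Real.exp_pos 1
      nlinarith
    have hx0 : 0 < ord n := SG.ord_pos h1
    have hxy : ord n ≤ ord (n + 1) := SG.ord_mono h1 (Nat.le_succ n)
    have hg : ord (n + 1) - ord n ≤ 8 := by
      refine h4.le.trans ?_
      rw [div_le_iff₀ (by linarith)]
      nlinarith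
    have hy2 : ord (n + 1) ≤ 2 * T := by linarith
    have hlogy : Real.log (ord (n + 1)) ≤ Real.log (2 * T) :=
      Real.log_le_log (by linarith) hy2
    have hlog2 : 0 ≤ 1 + Real.log (2 * T) := by
      have := Real.log_nonneg (by linarith : 1 ≤ 2 * T)
      linarith
    have h5 := W197.xlogx_up hx0 hxy
    have h6 : (ord (n + 1) - ord n) * (1 + Real.log (ord (n + 1))) ≤
        (ord (n + 1) - ord n) * (1 + Real.log (2 * T)) :=
      mul_le_mul_of_nonneg_left (by linarith) (by linarith)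
    have h7 : (ord (n + 1) - ord n) * (1 + Real.log (2 * T)) ≤
        2 * Real.pi * c1 / Real.log (5 / 6 * T) * (1 + Real.log (2 * T)) :=
      mul_le_mul_of_nonneg_right h4.le hlog2
    have h8 : 2 * Real.pi * c1 / Real.log (5 / 6 * T) * (1 + Real.log (2 * T)) < β * (2 * Real.pi) := by
      rw [div_mul_eq_mul_div, div_lt_iff₀ (by linarith)]
      have h9 := hT2 T ((le_max_right _ _).trans hT)
      have h10 : 2 * Real.pi * (c1 * (1 + Real.log (2 * T))) <
          2 * Real.pi * (β * Real.log (5 / 6 * T)) := mul_lt_mul_of_pos_left h9 (by positivity)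
      nlinarith
    unfold W197.del
    rw [div_lt_iff₀ (by positivity)]
    linarith
  have hfin : {n : ℕ | 1 ≤ n ∧ T ≤ ord n ∧ ord n ≤ T + H ∧ torusPt α (ord n) ∈ U ∧
      W197.del n < β}.Finite :=
    SP.PosProp.fin_ord (T + H) _ fun n hn => ⟨hn.1, hn.2.2.1⟩
  exact_mod_cast Set.ncard_le_ncard hsub hfin

end Helper89G
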