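import Pool.Agent.H629R2.LGGmv
import Pool.Agent.H851R2.LG.Sets
import Pool.Agent.Helper89G.Coin3

/-! Twisted Gaussian mean values: the family attached to the two-sided Dirichlet polynomial. -/

open Complex Filter Topology Set MeasureTheory

namespace Helper89G

open LG
open SG (hh nn dd dl ord NZ)
open SP (RHs ZZ mu wt Mk Par Eb PS chi qq tt)

/-- Gaussian mean value of `|E|²` with an arbitrary frequency -/
theorem TGMV {ι : Type*} (S : Finset ι) (e : ι → ℝ) (x y : ι → ℕ) (D t0 μ : ℝ) (hD : 0 < D) :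
    ‖∫ t : ℝ, (wt t0 D t : ℂ) * ((‖∑ i ∈ S, (e i : ℂ) *
        cexp (I * ((t * (Real.log (x i) - Real.log (y i)) : ℝ) : ℂ))‖ ^ 2 : ℝ) : ℂ) *
        cexp (-(I * ((t * μ : ℝ) : ℂ)))‖ ≤
      Real.sqrt (2 * Real.pi) * D * ∑ i ∈ S, ∑ j ∈ S, |e i| * |e j| *
        Real.exp (-(D ^ 2 * (Real.log (x i) - Real.log (y i) - (Real.log (x j) - Real.log (y j)) -
          μ) ^ 2 / 2)) := by
  set l : ι → ℝ := fun i => Real.log (x i) - Real.log (y i) with hl
  have h0 : ∀ t : ℝ, (wt t0 D t : ℂ) * ((‖∑ i ∈ S, (e i : ℂ) *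
        cexp (I * ((t * (Real.log (x i) - Real.log (y i)) : ℝ) : ℂ))‖ ^ 2 : ℝ) : ℂ) *
        cexp (-(I * ((t * μ : ℝ) : ℂ))) =
      ∑ i ∈ S, ∑ j ∈ S, ((e i * e j : ℝ) : ℂ) *
        ((Real.exp (-(t - t0) ^ 2 / (2 * D ^ 2)) : ℂ) *
          cexp (I * ((l i - l j - μ : ℝ) : ℂ) * t)) := by
    intro t
    have h := GMVaux.expand S e l μ t
    rw [mul_assoc, h, Finset.mul_sum]
    refine Finset.sum_congr rfl fun i _ => ?_
    rw [Finset.mul_sum]
    refine Finset.sum_congr rfl fun j _ => ?_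
    rw [wt]
    ring
  simp_rw [h0]
  rw [integral_finsetSum _ fun i _ => integrable_finsetSum _ fun j _ =>
    (SG.MVaux.ek_int D t0 _ hD).const_mul _]
  have h1 : ∀ i ∈ S, ∫ t : ℝ, ∑ j ∈ S, ((e i * e j : ℝ) : ℂ) *
        ((Real.exp (-(t - t0) ^ 2 / (2 * D ^ 2)) : ℂ) *
          cexp (I * ((l i - l j - μ : ℝ) : ℂ) * t)) =
      ∑ j ∈ S, ((e i * e j : ℝ) : ℂ) * (((D * Real.sqrt (2 * Real.pi) : ℝ) : ℂ) *
        (cexp (I * ((l i - l j - μ : ℝ) : ℂ) * t0) *
          ((Real.exp (-(D ^ 2 * (l i - l j - μ) ^ 2 / 2)) : ℝ) : ℂ))) := by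
    intro i _
    rw [integral_finsetSum _ fun j _ => (SG.MVaux.ek_int D t0 _ hD).const_mul _]
    refine Finset.sum_congr rfl fun j _ => ?_
    rw [integral_const_mul, SG.MVaux.ek_val D t0 _ hD]
  rw [Finset.sum_congr rfl h1]
  have hDs : 0 ≤ D * Real.sqrt (2 * Real.pi) := by positivity
  rw [Finset.mul_sum]
  refine (norm_sum_le _ _).trans (Finset.sum_le_sum fun i _ => ?_)
  rw [Finset.mul_sum]
  refine (norm_sum_le _ _).trans (Finset.sum_le_sum fun j _ => ?_)
  have e1 : ‖cexp (I * ((l i - l j - μ : ℝ) : ℂ) * t0)‖ = 1 := by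
    rw [Complex.norm_exp]
    have : (I * ((l i - l j - μ : ℝ) : ℂ) * t0).re = 0 := by
      rw [mul_assoc, ← Complex.ofReal_mul, Complex.I_mul_re, Complex.ofReal_im, neg_zero]
    rw [this, Real.exp_zero]
  rw [norm_mul, norm_mul, norm_mul, e1, one_mul, Complex.norm_real, Complex.norm_real,
    Complex.norm_real, Real.norm_of_nonneg hDs, Real.norm_of_nonneg (Real.exp_pos _).le,
    Real.norm_eq_abs, abs_mul]
  apply le_of_eq
  simp only [hl]
  ring

lemma fam_prime {P : Par} {B0 : ℕ} {T : ℝ} {A : Finset ℕ} (hA : A ∈ fam P B0 T) :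
    ∀ p ∈ A, p ∈ PS P T ∧ p.Prime := by
  intro p hp
  rw [fam, Finset.mem_filter, Finset.mem_powerset] at hA
  have := hA.1 hp
  refine ⟨this, ?_⟩
  rw [PS, Finset.mem_filter] at this
  exact this.2.1

lemma nA_pf {A : Finset ℕ} (hA : ∀ p ∈ A, p.Prime) : (nA A).primeFactors = A := by
  unfold nA
  exact Nat.primeFactors_prod hA

lemma nA_cop {A B : Finset ℕ} (hA : ∀ p ∈ A, p.Prime) (hB : ∀ p ∈ B, p.Prime)
    (hAB : Disjoint A B) : Nat.Coprime (nA A) (nA B) := by
  unfold nA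
  apply Nat.Coprime.prod_left
  intro p hp
  apply Nat.Coprime.prod_right
  intro q hq
  rw [Nat.coprime_primes (hA p hp) (hB q hq)]
  rintro rfl
  exact (Finset.disjoint_left.1 hAB hp) hq

lemma nA_sqf {A : Finset ℕ} (hA : ∀ p ∈ A, p.Prime) : Squarefree (nA A) := by
  classical
  induction A using Finset.induction_on with
  | empty => unfold nA; simp
  | insert p A hp ih =>
    have h1 : nA (insert p A) = p * nA A := by
      unfold nA
      rw [Finset.prod_insert hp]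
    rw [h1, Nat.squarefree_mul]
    · exact ⟨(hA p (Finset.mem_insert_self _ _)).squarefree,
        ih fun q hq => hA q (Finset.mem_insert_of_mem hq)⟩
    · rw [(hA p (Finset.mem_insert_self _ _)).coprime_iff_not_dvd,
        mem_iff_dvd_nA A (fun q hq => hA q (Finset.mem_insert_of_mem hq)) p
          (hA p (Finset.mem_insert_self _ _))]
      exact hp

/-- the family of the pairs of disjoint sets of primes -/
theorem fam_inst (P : Par) (B0 : ℕ) (hB : P.B = 2 * B0) (r : ℝ) (F : ℕ → ℝ) :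
    ∃ K T0 : ℝ, 0 < K ∧ 10 ≤ T0 ∧ ∀ T : ℝ, T0 ≤ T →
    Fam (prs P B0 T) (fun q => nA q.2) (fun q => nA q.1)
      (fun q => ae P r F T q.1 * ae P r F T q.2) B0 K (T ^ ((1 - P.κ) / P.B))
      (T ^ ((1 - P.κ) / 2)) := by
  obtain ⟨C1, T1, hC1, hT1, hchi⟩ := SP.chi_approx P
  obtain ⟨C2, T2, hC2, hT2, hfam⟩ := fam_facts P B0 hB r F
  have hκ := P.hκ
  have hκ1 := P.hκ1
  have hB2 := P.hB
  -- bound for `F`
  obtain ⟨CF, hCF, hF⟩ : ∃ CF : ℝ, 0 < CF ∧ ∀ n ≤ B0, |F n| ≤ CF := by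
    refine ⟨1 + ∑ n ∈ Finset.range (B0 + 1), |F n|, by positivity, fun n hn => ?_⟩
    have := Finset.single_le_sum (f := fun n => |F n|) (fun i _ => abs_nonneg _)
      (Finset.mem_range.mpr (Nat.lt_succ_of_le hn))
    linarith
  set R : ℝ := 2 * |r| + 1 with hR
  have hR1 : 1 ≤ R := by rw [hR]; have := abs_nonneg r; linarith
  set K1 : ℝ := CF * R ^ B0 with hK1
  have hK10 : 0 < K1 := by positivity
  set K : ℝ := K1 ^ 2 + (CF ^ 2 * C2) ^ 2 with hK
  refine ⟨K, max T1 T2, by positivity, hT1.trans (le_max_left _ _), fun T hT => ?_⟩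
  have hTT1 : T1 ≤ T := (le_max_left _ _).trans hT
  have hTT2 : T2 ≤ T := (le_max_right _ _).trans hT
  have hT10 : 10 ≤ T := hT1.trans hTT1
  have hT0 : 0 < T := by linarith
  obtain ⟨hchi1, -⟩ := hchi T hTT1
  obtain ⟨hfA, hfp, -, hsum⟩ := hfam T hTT2
  have hmem : ∀ q ∈ prs P B0 T, q.1 ∈ fam P B0 T ∧ q.2 ∈ fam P B0 T ∧ Disjoint q.1 q.2 := by
    intro q hq
    rw [prs, Finset.mem_filter, Finset.mem_product] at hq
    exact ⟨hq.1.1, hq.1.2, hq.2⟩
  have hpr : ∀ A ∈ fam P B0 T, ∀ p ∈ A, p.Prime := fun A hA p hp => (fam_prime hA p hp).2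
  have hpw : ∀ A ∈ fam P B0 T, ∀ p : ℕ, p.Prime → p ∣ nA A → T ^ ((1 - P.κ) / P.B) ≤ p := by
    intro A hA p hp hd
    rw [mem_iff_dvd_nA A (hpr A hA) p hp] at hd
    exact SP.TTAux.lower P T hT10 p (fam_prime hA p hd).1
  have hFle : ∀ A ∈ fam P B0 T, |F (∑ p ∈ A, Eb P T p)| ≤ CF := by
    intro A hA
    rw [fam, Finset.mem_filter] at hA
    exact hF _ hA.2
  have hae : ∀ A ∈ fam P B0 T, |ae P r F T A| ≤ K1 / Real.sqrt (nA A) := by
    intro A hA
    have h1 : ∏ p ∈ A, |yp P r T p| ≤ R ^ B0 / Real.sqrt (nA A) := by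
      have h2 : ∀ p ∈ A, |yp P r T p| ≤ R * (1 / Real.sqrt p) := by
        intro p hp
        have hp1 := fam_prime hA p hp
        have hp0 : (0 : ℝ) < p := by exact_mod_cast hp1.2.pos
        have hc := (hchi1 p hp1.1).2.2
        rw [yp, abs_div, abs_mul, abs_of_nonneg (Real.sqrt_nonneg _), div_eq_mul_one_div]
        apply mul_le_mul_of_nonneg_right _ (by positivity)
        have := mul_le_mul_of_nonneg_left hc (abs_nonneg r)
        rw [hR]
        linarith
      have h3 : ∏ p ∈ A, (R * (1 / Real.sqrt p)) = R ^ A.card / Real.sqrt (nA A) := by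
        rw [Finset.prod_mul_distrib, Finset.prod_const]
        have h4 : ∏ p ∈ A, (1 / Real.sqrt (p : ℝ)) = 1 / Real.sqrt (nA A) := by
          rw [Finset.prod_div_distrib, Finset.prod_const_one]
          congr 1
          unfold nA
          push_cast
          rw [Real.sqrt_prod _ (fun p _ => Nat.cast_nonneg p)]
        rw [h4]
        ring
      calc ∏ p ∈ A, |yp P r T p| ≤ ∏ p ∈ A, (R * (1 / Real.sqrt p)) :=
            Finset.prod_le_prod (fun p _ => abs_nonneg _) h2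
        _ = R ^ A.card / Real.sqrt (nA A) := h3
        _ ≤ R ^ B0 / Real.sqrt (nA A) := by
            apply div_le_div_of_nonneg_right _ (Real.sqrt_nonneg _)
            exact pow_le_pow_right₀ hR1 (hfA A hA).2.2.2
    rw [LG.ae, abs_mul, Finset.abs_prod]
    calc |F (∑ p ∈ A, Eb P T p)| * ∏ p ∈ A, |yp P r T p| ≤ CF * (R ^ B0 / Real.sqrt (nA A)) :=
          mul_le_mul (hFle A hA) h1 (Finset.prod_nonneg fun p _ => abs_nonneg _) hCF.le
      _ = K1 / Real.sqrt (nA A) := by rw [hK1]; ring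
  refine
    { sqx := fun q hq => nA_sqf (hpr _ (hmem q hq).2.1)
      sqy := fun q hq => nA_sqf (hpr _ (hmem q hq).1)
      bigx := fun q hq => hpw _ (hmem q hq).2.1
      bigy := fun q hq => hpw _ (hmem q hq).1
      omx := fun q hq => by
        rw [nA_pf (hpr _ (hmem q hq).2.1)]
        exact (hfA _ (hmem q hq).2.1).2.2.2
      omy := fun q hq => by
        rw [nA_pf (hpr _ (hmem q hq).1)]
        exact (hfA _ (hmem q hq).1).2.2.2
      inj := fun q hq q' hq' h1 h2 => by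
        have e2 : q.2 = q'.2 := nA_inj P B0 T (hmem q hq).2.1 (hmem q' hq').2.1 h1
        have e1 : q.1 = q'.1 := nA_inj P B0 T (hmem q hq).1 (hmem q' hq').1 h2
        exact Prod.ext e1 e2
      cop := fun q hq => nA_cop (hpr _ (hmem q hq).2.1) (hpr _ (hmem q hq).1)
        (hmem q hq).2.2.symm
      lex := fun q hq => nA_le P B0 hB T hT10 _ (hmem q hq).2.1
      ley := fun q hq => nA_le P B0 hB T hT10 _ (hmem q hq).1
      co := fun q hq => ?_
      dg := ?_ }
  · have h1 := hae _ (hmem q hq).1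
    have h2 := hae _ (hmem q hq).2.1
    rw [abs_mul]
    have h3 : 0 ≤ K1 / Real.sqrt (nA q.1) := by positivity
    calc |ae P r F T q.1| * |ae P r F T q.2| ≤
        (K1 / Real.sqrt (nA q.1)) * (K1 / Real.sqrt (nA q.2)) :=
          mul_le_mul h1 h2 (abs_nonneg _) h3
      _ = K1 ^ 2 / Real.sqrt ((nA q.2 : ℝ) * nA q.1) := by
          rw [Real.sqrt_mul (Nat.cast_nonneg _)]
          ring
      _ ≤ K / Real.sqrt ((nA q.2 : ℝ) * nA q.1) := by
          apply div_le_div_of_nonneg_right _ (Real.sqrt_nonneg _)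
          rw [hK]
          have : 0 ≤ (CF ^ 2 * C2) ^ 2 := by positivity
          linarith
  · have h1 : ∀ A ∈ fam P B0 T, ae P r F T A ^ 2 ≤ CF ^ 2 * ∏ p ∈ A, yp P r T p ^ 2 := by
      intro A hA
      rw [LG.ae, mul_pow, ← Finset.prod_pow]
      apply mul_le_mul_of_nonneg_right _ (Finset.prod_nonneg fun p _ => sq_nonneg _)
      rw [← sq_abs (F _)]
      exact pow_le_pow_left₀ (abs_nonneg _) (hFle A hA) 2
    have h2 : ∑ A ∈ fam P B0 T, ae P r F T A ^ 2 ≤ CF ^ 2 * C2 := by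
      refine (Finset.sum_le_sum h1).trans ?_
      rw [← Finset.mul_sum]
      exact mul_le_mul_of_nonneg_left hsum (by positivity)
    calc ∑ q ∈ prs P B0 T, (ae P r F T q.1 * ae P r F T q.2) ^ 2 ≤
        ∑ q ∈ fam P B0 T ×ˢ fam P B0 T, (ae P r F T q.1 * ae P r F T q.2) ^ 2 :=
          Finset.sum_le_sum_of_subset_of_nonneg (Finset.filter_subset _ _)
            (fun q _ _ => sq_nonneg _)
      _ = (∑ A ∈ fam P B0 T, ae P r F T A ^ 2) * ∑ A ∈ fam P B0 T, ae P r F T A ^ 2 := by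
          rw [Finset.sum_product, Finset.sum_mul_sum]
          refine Finset.sum_congr rfl fun A _ => Finset.sum_congr rfl fun B _ => ?_
          rw [mul_pow]
      _ ≤ (CF ^ 2 * C2) * (CF ^ 2 * C2) := by
          apply mul_le_mul h2 h2 (Finset.sum_nonneg fun A _ => sq_nonneg _) (by positivity)
      _ ≤ K := by
          rw [hK]
          have : 0 ≤ K1 ^ 2 := by positivity
          nlinarith

end Helper89G
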