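import Pool.Agent.Helper89G.TW1
import Pool.Agent.H880R2.LG.Mean

/-! Bounds for the sums over coincidences attached to a nonzero frequency. -/

open Complex Filter Topology Set MeasureTheory

namespace Helper89G

open LG
open SG (hh nn dd dl ord NZ)
open SP (RHs ZZ mu wt Mk Par Eb PS chi qq tt)

/-- the sum over coincidences with frequency `ν - log n` -/
noncomputable def ET (P : Par) (B0 : ℕ) (r : ℝ) (F : ℕ → ℝ) (T ν : ℝ) (n : ℕ) : ℝ :=
  ∑ q ∈ prs P B0 T, ∑ q' ∈ prs P B0 T, |ae P r F T q.1 * ae P r F T q.2| *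
    |ae P r F T q'.1 * ae P r F T q'.2| *
    Real.exp (-(dd P.κ T ^ 2 * (Real.log (nA q.2) - Real.log (nA q.1) -
      (Real.log (nA q'.2) - Real.log (nA q'.1)) - (Real.log n - ν)) ^ 2 / 2))

lemma ET_nonneg (P : Par) (B0 : ℕ) (r : ℝ) (F : ℕ → ℝ) (T ν : ℝ) (n : ℕ) :
    0 ≤ ET P B0 r F T ν n := by
  unfold ET
  exact Finset.sum_nonneg fun q _ => Finset.sum_nonneg fun q' _ => by positivity

lemma ET_le (P : Par) (B0 : ℕ) (r : ℝ) (F : ℕ → ℝ) (T ν : ℝ) (n : ℕ) :
    ET P B0 r F T ν n ≤ (∑ q ∈ prs P B0 T, |ae P r F T q.1 * ae P r F T q.2|) ^ 2 := by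
  unfold ET
  rw [sq (∑ q ∈ prs P B0 T, |ae P r F T q.1 * ae P r F T q.2|), Finset.sum_mul_sum]
  refine Finset.sum_le_sum fun q _ => Finset.sum_le_sum fun q' _ => ?_
  apply mul_le_of_le_one_right (by positivity)
  rw [Real.exp_le_one_iff]
  have : 0 ≤ dd P.κ T ^ 2 * (Real.log (nA q.2) - Real.log (nA q.1) -
      (Real.log (nA q'.2) - Real.log (nA q'.1)) - (Real.log n - ν)) ^ 2 / 2 := by positivity
  linarith

/-- decay of the error terms -/
lemma ev_dec (a C : ℝ) (ha : 0 < a) : ∀ᶠ T : ℝ in atTop,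
    C * (Real.log T * (1 + Real.log T)) * T ^ (-a) ≤ 1 := by
  have h := isLittleO_log_rpow_rpow_atTop (2 : ℝ) ha
  rw [Asymptotics.isLittleO_iff] at h
  have hc : (0 : ℝ) < 1 / (2 * |C| + 1) := by positivity
  filter_upwards [h hc, Real.tendsto_log_atTop.eventually_ge_atTop 1, eventually_ge_atTop 1]
    with T hT hL hT1
  have hT0 : 0 < T := by linarith
  rw [Real.norm_of_nonneg (Real.rpow_nonneg (by linarith) _),
    Real.norm_of_nonneg (Real.rpow_nonneg (by linarith) _)] at hT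
  have h2 : Real.log T ^ (2 : ℝ) = Real.log T ^ 2 := by norm_cast
  rw [h2] at hT
  have h3 : Real.log T * (1 + Real.log T) ≤ 2 * Real.log T ^ 2 := by nlinarith
  have h4 : 0 < T ^ a := Real.rpow_pos_of_pos hT0 _
  have h5 : T ^ (-a) * T ^ a = 1 := by
    rw [← Real.rpow_add hT0]; simp
  have h6 : 0 < T ^ (-a) := Real.rpow_pos_of_pos hT0 _
  have h7 : 0 ≤ Real.log T * (1 + Real.log T) := by positivity
  calc C * (Real.log T * (1 + Real.log T)) * T ^ (-a) ≤
      |C| * (2 * (1 / (2 * |C| + 1) * T ^ a)) * T ^ (-a) := by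
        apply mul_le_mul_of_nonneg_right _ h6.le
        exact mul_le_mul (le_abs_self C) (h3.trans (by linarith)) h7 (abs_nonneg C)
    _ = (2 * |C|) / (2 * |C| + 1) * (T ^ (-a) * T ^ a) := by ring
    _ ≤ 1 := by
        rw [h5, mul_one, div_le_one (by positivity)]
        linarith

/-- bounds for the sums over coincidences -/
theorem coin (P : Par) (B0 : ℕ) (hB : P.B = 2 * B0) (r : ℝ) (F : ℕ → ℝ) (A c : ℝ)
    (hc : 0 < c) {ν : ℝ} (hν : ν ≠ 0) : ∃ C T0 : ℝ, 0 < C ∧ 10 ≤ T0 ∧ ∀ T : ℝ, T0 ≤ T →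
    Real.log T * ET P B0 r F T ν 1 ≤ C ∧
    ∀ N : Finset ℕ, ∑ n ∈ N, |lk A c T n| * ET P B0 r F T ν n ≤ C := by
  classical
  obtain ⟨K, T1, hK, hT1, hfam⟩ := fam_inst P B0 hB r F
  obtain ⟨C2, hC2, hlks⟩ := lk_summable A c hc
  obtain ⟨C3, T3, hC3, hT3, hfacts⟩ := fam_facts P B0 hB r F
  have hκ := P.hκ
  have hκ1 := P.hκ1
  have hB2 := P.hB
  have hBpos : (0 : ℝ) < P.B := by
    have : 0 < P.B := by omega
    exact_mod_cast this
  obtain ⟨T4, hT4, hev⟩ := MeanAux.ev_all (P.κ / 4) (1 + C2) (by linarith) (by linarith)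
  set θ := Real.exp (-ν) with hθ
  have hθ0 : 0 < θ := Real.exp_pos _
  set Mν := Real.exp (|ν| + 1) with hMν
  have hMν0 : 0 < Mν := Real.exp_pos _
  have hMν1 : 1 ≤ Mν := Real.one_le_exp (by positivity)
  set a : ℝ := min (3 * P.κ / 8) ((1 - P.κ) / P.B) with ha
  have ha0 : 0 < a := lt_min (by linarith) (div_pos (by linarith) hBpos)
  set K2 : ℝ := (c + 1) * K ^ 2 * Real.sqrt (2 / θ) * 2 ^ (8 * B0 + 2) * (8 + 3 * θ) with hK2
  have hK20 : 0 < K2 := by
    have : 0 < Real.sqrt (2 / θ) := Real.sqrt_pos.2 (by positivity)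
    positivity
  -- largeness
  have ev1 := ev_dec a K2 ha0
  have ev2 : ∀ᶠ T : ℝ in atTop, Mν < T ^ ((1 - P.κ) / P.B) :=
    (tendsto_rpow_atTop (div_pos (by linarith) hBpos)).eventually_gt_atTop _
  have ev3 : ∀ᶠ T : ℝ in atTop, 2 / θ ≤ T ^ P.κ :=
    (tendsto_rpow_atTop hκ).eventually_ge_atTop _
  have ev3' : ∀ᶠ T : ℝ in atTop, θ / 2 ≤ T ^ (1 - P.κ) :=
    (tendsto_rpow_atTop (by linarith : 0 < 1 - P.κ)).eventually_ge_atTop _
  have ev4 : ∀ᶠ T : ℝ in atTop, T ^ (-(1 - 5 * P.κ / 8)) < min |ν| (1 / 4) := by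
    have h := tendsto_rpow_neg_atTop (y := 1 - 5 * P.κ / 8) (by linarith)
    exact h.eventually_lt_const (lt_min (abs_pos.2 hν) (by norm_num))
  obtain ⟨T5, hT5⟩ := (ev1.and (ev2.and (ev3.and (ev3'.and ev4)))).exists_forall_of_atTop
  refine ⟨2 + Mν * (c * (|ν| + 1)) * K, max (max T1 T3) (max T4 T5), by positivity,
    hT1.trans ((le_max_left _ _).trans (le_max_left _ _)), fun T hT => ?_⟩
  have hTT1 : T1 ≤ T := ((le_max_left _ _).trans (le_max_left _ _)).trans hT
  have hTT3 : T3 ≤ T := ((le_max_right _ _).trans (le_max_left _ _)).trans hT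
  have hTT4 : T4 ≤ T := ((le_max_left _ _).trans (le_max_right _ _)).trans hT
  have hTT5 : T5 ≤ T := ((le_max_right _ _).trans (le_max_right _ _)).trans hT
  have hT10 : 10 ≤ T := hT1.trans hTT1
  have hT0 : 0 < T := by linarith
  obtain ⟨e1, e2, e3, e3', e4⟩ := hT5 T hTT5
  obtain ⟨-, hL1, hsmall⟩ := hev T hTT4
  have hF := hfam T hTT1
  obtain ⟨-, -, hSe, -⟩ := hfacts T hTT3
  set L := Real.log T with hL
  have hL0 : 0 < L := by linarith
  set D := dd P.κ T with hD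
  have hD0 : 0 < D := Real.rpow_pos_of_pos hT0 _
  set Y := T ^ ((1 - P.κ) / 2) with hY
  have hY2 : Y ^ 2 = T ^ (1 - P.κ) := by
    rw [hY, ← Real.rpow_natCast, ← Real.rpow_mul hT0.le]
    congr 1
    push_cast
    ring
  set w := T ^ ((1 - P.κ) / P.B) with hw
  have hw0 : 0 < w := Real.rpow_pos_of_pos hT0 _
  set ρ := T ^ (-(1 - 5 * P.κ / 8)) with hρ
  have hρ0 : 0 < ρ := Real.rpow_pos_of_pos hT0 _
  have hρν : ρ < |ν| := lt_of_lt_of_le e4 (min_le_left _ _)
  have hρ1 : ρ ≤ 1 / 4 := (lt_of_lt_of_le e4 (min_le_right _ _)).le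
  have hDρ : D ^ 2 * ρ ^ 2 = T ^ (P.κ / 4) := by
    rw [hD, hρ]
    unfold dd
    rw [← mul_pow, ← Real.rpow_add hT0, ← Real.rpow_natCast, ← Real.rpow_mul hT0.le]
    congr 1
    push_cast
    ring
  have hρY : ρ * Y ^ 2 = T ^ (-(3 * P.κ / 8)) := by
    rw [hY2, hρ, ← Real.rpow_add hT0]
    congr 1
    ring
  have hYT : 2 * Y ^ 2 / θ ≤ T := by
    rw [hY2]
    calc 2 * T ^ (1 - P.κ) / θ = (2 / θ) * T ^ (1 - P.κ) := by ring
      _ ≤ T ^ P.κ * T ^ (1 - P.κ) := by gcongr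
      _ = T := by rw [← Real.rpow_add hT0]; simp
  have hY1 : 1 ≤ 2 * Y ^ 2 / θ := by
    rw [le_div_iff₀ hθ0, hY2]
    linarith
  have hlogY : Real.log (2 * Y ^ 2 / θ) ≤ L := Real.log_le_log (by linarith) hYT
  have hlogY0 : 0 ≤ Real.log (2 * Y ^ 2 / θ) := Real.log_nonneg hY1
  -- the common bound of the middle term
  have hmid : ∀ V : ℝ, 0 ≤ V → V ≤ (c + 1) * L → V * K ^ 2 * Real.sqrt (2 / θ) * (2 ^ (8 * B0 + 2) *
      ((1 + Real.log (2 * Y ^ 2 / θ)) *
        (2 * (2 * θ * ρ) * (2 * Y ^ 2 / θ) + 3 * θ / (2 * w)))) ≤ 1 := by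
    intro V hV0 hV
    have h1 : 2 * (2 * θ * ρ) * (2 * Y ^ 2 / θ) + 3 * θ / (2 * w) ≤ (8 + 3 * θ) * T ^ (-a) := by
      have h2 : 2 * (2 * θ * ρ) * (2 * Y ^ 2 / θ) = 8 * (ρ * Y ^ 2) := by
        field_simp
        ring
      have h3 : T ^ (-(3 * P.κ / 8)) ≤ T ^ (-a) :=
        Real.rpow_le_rpow_of_exponent_le (by linarith) (by
          have : a ≤ 3 * P.κ / 8 := min_le_left _ _
          linarith)
      have h4 : 1 / w ≤ T ^ (-a) := by
        rw [hw, one_div, ← Real.rpow_neg hT0.le]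
        exact Real.rpow_le_rpow_of_exponent_le (by linarith) (by
          have : a ≤ (1 - P.κ) / P.B := min_le_right _ _
          linarith)
      have h5 : 3 * θ / (2 * w) = 3 * θ / 2 * (1 / w) := by
        field_simp
      rw [h2, hρY, h5]
      have h6 : 3 * θ / 2 * (1 / w) ≤ 3 * θ / 2 * T ^ (-a) :=
        mul_le_mul_of_nonneg_left h4 (by positivity)
      have h7 : 0 ≤ θ * T ^ (-a) := by positivity
      have h8 : (8 + 3 * θ) * T ^ (-a) = 8 * T ^ (-a) + 3 * (θ * T ^ (-a)) := by ring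
      have h9 : 3 * θ / 2 * T ^ (-a) = 3 / 2 * (θ * T ^ (-a)) := by ring
      rw [h9] at h6
      rw [h8]
      linarith
    have h2 : 0 ≤ 2 * (2 * θ * ρ) * (2 * Y ^ 2 / θ) + 3 * θ / (2 * w) := by positivity
    have h3 : (1 + Real.log (2 * Y ^ 2 / θ)) *
        (2 * (2 * θ * ρ) * (2 * Y ^ 2 / θ) + 3 * θ / (2 * w)) ≤
        (1 + L) * ((8 + 3 * θ) * T ^ (-a)) :=
      mul_le_mul (by linarith) h1 h2 (by positivity)
    calc V * K ^ 2 * Real.sqrt (2 / θ) * (2 ^ (8 * B0 + 2) *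
      ((1 + Real.log (2 * Y ^ 2 / θ)) *
        (2 * (2 * θ * ρ) * (2 * Y ^ 2 / θ) + 3 * θ / (2 * w)))) ≤
        ((c + 1) * L) * K ^ 2 * Real.sqrt (2 / θ) * (2 ^ (8 * B0 + 2) *
          ((1 + L) * ((8 + 3 * θ) * T ^ (-a)))) := by
          apply mul_le_mul _ _ (by positivity) (by positivity)
          · gcongr
          · gcongr
      _ = K2 * (L * (1 + L)) * T ^ (-a) := by rw [hK2]; ring
      _ ≤ 1 := e1
  have hSe2 : (∑ q ∈ prs P B0 T, |ae P r F T q.1 * ae P r F T q.2|) ^ 2 ≤ T ^ 4 := by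
    calc _ ≤ (T ^ 2) ^ 2 := pow_le_pow_left₀ (Finset.sum_nonneg fun _ _ => abs_nonneg _) hSe 2
      _ = T ^ 4 := by ring
  have hfar : ∀ W : ℝ, 0 ≤ W → W ≤ L * (1 + (1 + C2) * Real.exp (L ^ 4)) →
      W * (∑ q ∈ prs P B0 T, |ae P r F T q.1 * ae P r F T q.2|) ^ 2 *
        Real.exp (-(D ^ 2 * ρ ^ 2 / 2)) ≤ 1 := by
    intro W hW0 hW
    rw [hDρ]
    have h1 : Real.exp (-(T ^ (P.κ / 4) / 2)) ≤ Real.exp (-(T ^ (P.κ / 4) / 1600)) := by
      apply Real.exp_le_exp.2
      have : 0 ≤ T ^ (P.κ / 4) := Real.rpow_nonneg hT0.le _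
      linarith
    have hpos : 0 ≤ L * (1 + (1 + C2) * Real.exp (L ^ 4)) := hW0.trans hW
    calc W * (∑ q ∈ prs P B0 T, |ae P r F T q.1 * ae P r F T q.2|) ^ 2 *
        Real.exp (-(T ^ (P.κ / 4) / 2)) ≤ (L * (1 + (1 + C2) * Real.exp (L ^ 4))) * T ^ 4 *
          Real.exp (-(T ^ (P.κ / 4) / 1600)) := by gcongr
      _ ≤ 7 * ((L * (1 + (1 + C2) * Real.exp (L ^ 4))) * T ^ 4 *
            Real.exp (-(T ^ (P.κ / 4) / 1600))) := by
          have : 0 ≤ (L * (1 + (1 + C2) * Real.exp (L ^ 4))) * T ^ 4 *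
            Real.exp (-(T ^ (P.κ / 4) / 1600)) := by positivity
          linarith
      _ = 7 * T ^ 4 * Real.exp (-(T ^ (P.κ / 4) / 1600)) *
            (1 + (1 + C2) * Real.exp (L ^ 4)) * L := by ring
      _ ≤ 1 := hsmall
  have hEL : 1 ≤ Real.exp (L ^ 4) := Real.one_le_exp (by positivity)
  constructor
  · -- `n = 1`
    have h1 := hF.total hK.le hw0 {1} (fun n hn => Or.inl (Finset.mem_singleton.1 hn))
      (fun n => L) (fun n => hL0.le) L hL0.le ν D ρ hρ0.le hρν (fun n hn _ => by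
        rw [Finset.mem_singleton.1 hn]
        simp) hρ1 e2 hY1
    rw [Finset.sum_singleton, Finset.sum_singleton] at h1
    have h2 : ({1} : Finset ℕ).filter (fun n : ℕ => 2 ≤ n ∧ (n : ℝ) ≤ Real.exp (|ν| + 1)) = ∅ := by
      rw [Finset.filter_eq_empty_iff]
      intro n hn h3
      rw [Finset.mem_singleton.1 hn] at h3
      omega
    rw [h2, Finset.sum_empty, zero_mul, add_zero] at h1
    have h3 : L * ET P B0 r F T ν 1 = ∑ i ∈ prs P B0 T, ∑ j ∈ prs P B0 T,
        L * (|ae P r F T i.1 * ae P r F T i.2| * |ae P r F T j.1 * ae P r F T j.2|) *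
        Real.exp (-(D ^ 2 * (Real.log (nA i.2) - Real.log (nA i.1) -
          (Real.log (nA j.2) - Real.log (nA j.1)) - (Real.log (1 : ℕ) - ν)) ^ 2 / 2)) := by
      unfold ET
      rw [Finset.mul_sum]
      refine Finset.sum_congr rfl fun q _ => ?_
      rw [Finset.mul_sum]
      refine Finset.sum_congr rfl fun q' _ => ?_
      ring
    rw [h3]
    have h4 := hfar L hL0.le (le_mul_of_one_le_right hL0.le (by
      have : 0 < (1 + C2) * Real.exp (L ^ 4) := mul_pos (by linarith) (Real.exp_pos _)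
      linarith))
    have h5 := hmid L hL0.le (le_mul_of_one_le_left hL0.le (by linarith))
    have h6 : 0 ≤ Mν * (c * (|ν| + 1)) * K := by positivity
    linarith
  · intro N
    set N' := N.filter IsPrimePow with hN'
    have h0 : ∑ n ∈ N, |lk A c T n| * ET P B0 r F T ν n =
        ∑ n ∈ N', |lk A c T n| * ET P B0 r F T ν n := by
      rw [hN', Finset.sum_filter]
      refine Finset.sum_congr rfl fun n _ => ?_
      split_ifs with h1
      · rfl
      · have : ArithmeticFunction.vonMangoldt n = 0 := by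
          rw [ArithmeticFunction.vonMangoldt_apply, if_neg h1]
        unfold lk
        rw [this]
        simp
    rw [h0]
    have hlkle : ∀ n : ℕ, 1 ≤ n → |lk A c T n| ≤ c * Real.log n / Real.sqrt n := by
      intro n hn
      have hn0 : (0 : ℝ) < n := by exact_mod_cast hn
      unfold lk
      rw [abs_mul, abs_mul, abs_of_nonneg ArithmeticFunction.vonMangoldt_nonneg,
        abs_of_nonneg (Real.rpow_nonneg hn0.le _)]
      have h1 : (n : ℝ) ^ (-(1 / 2) : ℝ) = 1 / Real.sqrt n := by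
        rw [Real.rpow_neg hn0.le, ← Real.sqrt_eq_rpow, one_div]
      rw [h1]
      have h2 := bk_le A c T n hc
      have h3 : ArithmeticFunction.vonMangoldt n ≤ Real.log n :=
        ArithmeticFunction.vonMangoldt_le_log
      have h4 : 0 ≤ ArithmeticFunction.vonMangoldt n := ArithmeticFunction.vonMangoldt_nonneg
      have h5 : 0 ≤ 1 / Real.sqrt (n : ℝ) := by positivity
      calc ArithmeticFunction.vonMangoldt n * (1 / Real.sqrt n) * |bk A c T n| ≤
          Real.log n * (1 / Real.sqrt n) * c := by gcongr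
        _ = c * Real.log n / Real.sqrt n := by ring
    have h1 := hF.total hK.le hw0 N' (fun n hn => Or.inr (Finset.mem_filter.1 hn).2)
      (fun n => |lk A c T n|) (fun n => abs_nonneg _) (c * L) (by positivity) ν D ρ hρ0.le hρν
      (fun n hn hle => by
        have hn1 : 1 ≤ n := Nat.one_le_iff_ne_zero.mpr (Finset.mem_filter.1 hn).2.ne_zero
        refine (hlkle n hn1).trans ?_
        have hn0 : (0 : ℝ) < n := by exact_mod_cast hn1
        have hlogn : Real.log n ≤ L := Real.log_le_log hn0 (hle.trans hYT)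
        gcongr) hρ1 e2 hY1
    have h3 : ∑ n ∈ N', |lk A c T n| * ET P B0 r F T ν n =
        ∑ n ∈ N', ∑ i ∈ prs P B0 T, ∑ j ∈ prs P B0 T,
        |lk A c T n| * (|ae P r F T i.1 * ae P r F T i.2| * |ae P r F T j.1 * ae P r F T j.2|) *
        Real.exp (-(D ^ 2 * (Real.log (nA i.2) - Real.log (nA i.1) -
          (Real.log (nA j.2) - Real.log (nA j.1)) - (Real.log n - ν)) ^ 2 / 2)) := by
      refine Finset.sum_congr rfl fun n _ => ?_
      unfold ET
      rw [Finset.mul_sum]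
      refine Finset.sum_congr rfl fun q _ => ?_
      rw [Finset.mul_sum]
      refine Finset.sum_congr rfl fun q' _ => ?_
      ring
    rw [h3]
    obtain ⟨hs1, hs2⟩ := hlks T hT10
    have hsumle : ∑ n ∈ N', |lk A c T n| ≤ C2 * Real.exp (L ^ 4) :=
      (hs1.sum_le_tsum N' (fun n _ => abs_nonneg _)).trans hs2
    have h4 := hfar (∑ n ∈ N', |lk A c T n|) (Finset.sum_nonneg fun _ _ => abs_nonneg _) (by
      refine hsumle.trans ?_
      have h5 : 0 < Real.exp (L ^ 4) := Real.exp_pos _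
      have h6 : C2 * Real.exp (L ^ 4) ≤ L * (C2 * Real.exp (L ^ 4)) :=
        le_mul_of_one_le_left (by positivity) hL1
      have h7 : L * (1 + (1 + C2) * Real.exp (L ^ 4)) =
          L + L * Real.exp (L ^ 4) + L * (C2 * Real.exp (L ^ 4)) := by ring
      have h8 := mul_pos hL0 h5
      rw [h7]
      linarith)
    have h5 := hmid (c * L) (by positivity) (by rw [add_mul]; linarith)
    have h6 : (∑ n ∈ N'.filter (fun n : ℕ => 2 ≤ n ∧ (n : ℝ) ≤ Real.exp (|ν| + 1)),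
        |lk A c T n|) * K ≤ Mν * (c * (|ν| + 1)) * K := by
      apply mul_le_mul_of_nonneg_right _ hK.le
      set N'' := N'.filter (fun n : ℕ => 2 ≤ n ∧ (n : ℝ) ≤ Real.exp (|ν| + 1)) with hN''
      have h7 : ∀ n ∈ N'', |lk A c T n| ≤ c * (|ν| + 1) := by
        intro n hn
        obtain ⟨-, h8, h9⟩ := Finset.mem_filter.1 hn
        have hn0 : (0 : ℝ) < n := by
          have : 0 < n := by omega
          exact_mod_cast this
        refine (hlkle n (by omega)).trans ?_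
        have h10 : Real.log n ≤ |ν| + 1 := by
          rw [Real.log_le_iff_le_exp hn0]
          exact h9
        have h11 : 1 ≤ Real.sqrt n := by
          rw [Real.one_le_sqrt]
          have : 1 ≤ n := by omega
          exact_mod_cast this
        have h12 : 0 ≤ c * (|ν| + 1) := by positivity
        rw [div_le_iff₀ (by linarith)]
        calc c * Real.log n ≤ c * (|ν| + 1) := by gcongr
          _ ≤ c * (|ν| + 1) * Real.sqrt n := le_mul_of_one_le_right h12 h11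
      have h8 : (N''.card : ℝ) ≤ Mν := by
        have h9 : N'' ⊆ Finset.Icc 1 ⌊Mν⌋₊ := by
          intro n hn
          obtain ⟨-, h10, h11⟩ := Finset.mem_filter.1 hn
          rw [Finset.mem_Icc]
          exact ⟨by omega, Nat.le_floor h11⟩
        have h10 := Finset.card_le_card h9
        rw [Nat.card_Icc, Nat.add_sub_cancel] at h10
        calc (N''.card : ℝ) ≤ (⌊Mν⌋₊ : ℝ) := by exact_mod_cast h10
          _ ≤ Mν := Nat.floor_le hMν0.le
      calc ∑ n ∈ N'', |lk A c T n| ≤ ∑ n ∈ N'', c * (|ν| + 1) := Finset.sum_le_sum h7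
        _ = N''.card * (c * (|ν| + 1)) := by rw [Finset.sum_const, nsmul_eq_mul]
        _ ≤ Mν * (c * (|ν| + 1)) := by gcongr
    linarith

end Helper89G
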