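import Pool.Agent.Helper89G.TW2

/-! Twisted Gaussian mean values of `|E|²` and `|E|² Zs`. -/

open Complex Filter Topology Set MeasureTheory

namespace Helper89G

open LG
open SG (hh nn dd dl ord NZ)
open SP (RHs ZZ mu wt Mk Par Eb PS chi qq tt)

lemma sqrt_le3 : Real.sqrt (2 * Real.pi) ≤ 3 := by
  rw [Real.sqrt_le_left (by norm_num)]
  have := Real.pi_lt_d2
  linarith

/-- bound for an integral against the series -/
lemma osc_series (h : ℝ → ℂ) (hh : Continuous h) (M : ℝ) (hM : ∀ t, ‖h t‖ ≤ M) (lkk : ℕ → ℝ)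
    (hlks : Summable fun n => |lkk n|) (V1 V2 : ℝ) (B : ℝ)
    (hB : ∀ N : Finset ℕ, ∑ n ∈ N, |lkk n| *
      ‖∫ t in V1..V2, h t * cexp (-(I * ((t * Real.log n : ℝ) : ℂ)))‖ ≤ B) :
    ‖∫ t in V1..V2, h t * ∑' n : ℕ, (lkk n : ℂ) * cexp (-(I * ((t * Real.log n : ℝ) : ℂ)))‖ ≤ B := by
  set S : ℝ → ℂ := fun t => ∑' n : ℕ, (lkk n : ℂ) * cexp (-(I * ((t * Real.log n : ℝ) : ℂ)))
    with hS
  have hnorm : ∀ (n : ℕ) (t : ℝ), ‖(lkk n : ℂ) * cexp (-(I * ((t * Real.log n : ℝ) : ℂ)))‖ =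
      |lkk n| := by
    intro n t
    rw [norm_mul, MeanAux.norm_osc, mul_one, Complex.norm_real, Real.norm_eq_abs]
  have hSsum : ∀ t : ℝ, Summable fun n : ℕ =>
      (lkk n : ℂ) * cexp (-(I * ((t * Real.log n : ℝ) : ℂ))) := by
    intro t
    apply Summable.of_norm
    simp only [hnorm]
    exact hlks
  set J : ℕ → ℂ := fun n => ∫ t in V1..V2, h t * cexp (-(I * ((t * Real.log n : ℝ) : ℂ)))
    with hJdef
  set A : ℂ := ∫ t in V1..V2, h t * S t with hA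
  have hhas : HasSum (fun n : ℕ => (lkk n : ℂ) * J n) A := by
    have h1 := intervalIntegral.hasSum_integral_of_dominated_convergence (a := V1) (b := V2)
      (μ := volume) (F := fun (n : ℕ) (t : ℝ) => h t *
        ((lkk n : ℂ) * cexp (-(I * ((t * Real.log n : ℝ) : ℂ)))))
      (f := fun t => h t * S t) (fun n _ => M * |lkk n|)
      (fun n => by
        apply Continuous.aestronglyMeasurable
        fun_prop)
      (fun n => Eventually.of_forall fun t _ => by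
        rw [norm_mul, hnorm]
        exact mul_le_mul_of_nonneg_right (hM t) (abs_nonneg _))
      (Eventually.of_forall fun t _ => hlks.mul_left M)
      (intervalIntegrable_const)
      (Eventually.of_forall fun t _ => (hSsum t).hasSum.mul_left _)
    have h2 : (fun n : ℕ => (lkk n : ℂ) * J n) = fun n : ℕ => ∫ t in V1..V2,
        h t * ((lkk n : ℂ) * cexp (-(I * ((t * Real.log n : ℝ) : ℂ)))) := by
      funext n
      rw [hJdef]
      simp only
      rw [← intervalIntegral.integral_const_mul]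
      congr 1
      funext t
      ring
    rw [h2]
    exact h1
  have hlim : Tendsto (fun N : Finset ℕ => ‖∑ n ∈ N, (lkk n : ℂ) * J n‖) atTop (𝓝 ‖A‖) :=
    hhas.norm
  refine le_of_tendsto hlim (Eventually.of_forall fun N => ?_)
  refine (norm_sum_le _ _).trans (le_trans (le_of_eq ?_) (hB N))
  refine Finset.sum_congr rfl fun n _ => ?_
  rw [norm_mul, Complex.norm_real, Real.norm_eq_abs]

lemma norm_I (x t : ℝ) : ‖cexp (I * (x : ℂ) * (t : ℂ))‖ = 1 := by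
  have : I * (x : ℂ) * (t : ℂ) = ((x * t : ℝ) : ℂ) * I := by push_cast; ring
  rw [this, Complex.norm_exp_ofReal_mul_I]

/-- the integrals with one frequency -/
theorem Jn_bound (P : Par) (B0 : ℕ) (hB : P.B = 2 * B0) (r : ℝ) (F : ℕ → ℝ) (ν : ℝ) :
    ∃ T0 : ℝ, 10 ≤ T0 ∧ ∀ T : ℝ, T0 ≤ T → ∀ t0 : ℝ, 11 / 10 * T ≤ t0 → t0 ≤ 19 / 10 * T →
    ∀ n : ℕ, ‖∫ t in (T + 2 * Real.log T)..(2 * T - 2 * Real.log T),
      ((wt t0 (dd P.κ T) t * ‖EE P B0 r F T t‖ ^ 2 : ℝ) : ℂ) * cexp (I * (ν : ℂ) * (t : ℂ)) *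
        cexp (-(I * ((t * Real.log n : ℝ) : ℂ)))‖ ≤
      3 * dd P.κ T * ET P B0 r F T ν n +
        4 * dd P.κ T * T ^ 4 * Real.exp (-(T ^ P.κ / 1600)) := by
  obtain ⟨C3, T3, hC3, hT3, hfam⟩ := fam_facts P B0 hB r F
  obtain ⟨T4, hT4, hev⟩ := MeanAux.ev_all P.κ 1 P.hκ one_pos
  refine ⟨max T3 T4, hT3.trans (le_max_left _ _), fun T hT t0 ht1 ht2 n => ?_⟩
  have hTT3 : T3 ≤ T := (le_max_left _ _).trans hT
  have hTT4 : T4 ≤ T := (le_max_right _ _).trans hT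
  obtain ⟨hL40, hL1, -⟩ := hev T hTT4
  have hT10 : 10 ≤ T := hT3.trans hTT3
  have hT0 : 0 < T := by linarith
  obtain ⟨-, -, hsum2, -⟩ := hfam T hTT3
  set κ := P.κ with hκ
  set D := dd κ T with hDdef
  have hD : 0 < D := Real.rpow_pos_of_pos hT0 _
  set L := Real.log T with hLdef
  set Se : ℝ := ∑ q ∈ prs P B0 T, |ae P r F T q.1 * ae P r F T q.2| with hSe
  have hSe0 : 0 ≤ Se := Finset.sum_nonneg fun _ _ => abs_nonneg _
  have hSeM : Se ^ 2 ≤ T ^ 4 := by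
    calc Se ^ 2 ≤ (T ^ 2) ^ 2 := pow_le_pow_left₀ hSe0 hsum2 2
      _ = T ^ 4 := by ring
  set G : ℝ → ℝ := fun t => ‖EE P B0 r F T t‖ ^ 2 with hG
  have hGcont : Continuous G := ((MeanAux.EE_cont P B0 r F T).norm).pow 2
  have hG0 : ∀ t, 0 ≤ G t := fun t => by rw [hG]; positivity
  have hGM : ∀ t, G t ≤ T ^ 4 := fun t =>
    (pow_le_pow_left₀ (norm_nonneg _) (MeanAux.EE_norm_le P B0 r F T t) 2).trans hSeM
  have hD2 : D ^ 2 = T ^ (2 - κ) := by
    rw [hDdef]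
    unfold dd
    rw [← Real.rpow_natCast, ← Real.rpow_mul hT0.le]
    congr 1
    push_cast
    ring
  have hTκ : T ^ κ * D ^ 2 = T ^ 2 := by
    rw [hD2, ← Real.rpow_add hT0]
    have : κ + (2 - κ) = ((2 : ℕ) : ℝ) := by push_cast; ring
    rw [this, Real.rpow_natCast]
  have hR : (T / 20) ^ 2 / (4 * D ^ 2) = T ^ κ / 1600 := by
    rw [div_pow, ← hTκ]
    field_simp
    norm_num
  set f : ℝ → ℂ := fun t => ((wt t0 D t * G t : ℝ) : ℂ) * cexp (I * (ν : ℂ) * (t : ℂ)) *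
        cexp (-(I * ((t * Real.log n : ℝ) : ℂ))) with hf
  have hfc : Continuous f := by
    have := MeanAux.wt_cont t0 D
    rw [hf]
    fun_prop
  have hfb : ∀ t, ‖f t‖ ≤ T ^ 4 * wt t0 D t := by
    intro t
    rw [hf]
    simp only
    rw [norm_mul, norm_mul, MeanAux.norm_osc, norm_I, mul_one, mul_one, Complex.norm_real,
      Real.norm_eq_abs, abs_of_nonneg (mul_nonneg (MeanAux.wt_pos t0 D t).le (hG0 t)), mul_comm]
    exact mul_le_mul_of_nonneg_right (hGM t) (MeanAux.wt_pos t0 D t).le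
  have htail := MeanAux.tail_int f t0 D (T + 2 * L) (2 * T - 2 * L) (T / 20) (T ^ 4) hD
    (by positivity) (by linarith) (by linarith) (by linarith) hfc (by positivity) hfb
  rw [hR] at htail
  have hgmv := TGMV (prs P B0 T) (fun q => ae P r F T q.1 * ae P r F T q.2)
    (fun q => nA q.2) (fun q => nA q.1) D t0 (Real.log n - ν) hD
  have hgmv' : ‖∫ t : ℝ, f t‖ ≤ Real.sqrt (2 * Real.pi) * D * ET P B0 r F T ν n := by
    have e1 : (∫ t : ℝ, f t) = ∫ t : ℝ, (wt t0 D t : ℂ) * ((‖∑ i ∈ prs P B0 T,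
        ((ae P r F T i.1 * ae P r F T i.2 : ℝ) : ℂ) *
        cexp (I * ((t * (Real.log (nA i.2) - Real.log (nA i.1)) : ℝ) : ℂ))‖ ^ 2 : ℝ) : ℂ) *
        cexp (-(I * ((t * (Real.log n - ν) : ℝ) : ℂ))) := by
      congr 1
      funext t
      rw [hf]
      simp only
      rw [Complex.ofReal_mul, mul_assoc, ← Complex.exp_add]
      have e2 : I * (ν : ℂ) * (t : ℂ) + -(I * ((t * Real.log n : ℝ) : ℂ)) =
          -(I * ((t * (Real.log n - ν) : ℝ) : ℂ)) := by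
        push_cast
        ring
      rw [e2]
      rfl
    rw [e1]
    exact hgmv
  have h3 : Real.sqrt (2 * Real.pi) * D * ET P B0 r F T ν n ≤ 3 * D * ET P B0 r F T ν n := by
    have := ET_nonneg P B0 r F T ν n
    have := sqrt_le3
    gcongr
  calc ‖∫ t in (T + 2 * L)..(2 * T - 2 * L), f t‖
      = ‖((∫ t in (T + 2 * L)..(2 * T - 2 * L), f t) - ∫ t : ℝ, f t) + ∫ t : ℝ, f t‖ := by
        congr 1
        ring
    _ ≤ T ^ 4 * (4 * D) * Real.exp (-(T ^ κ / 1600)) + 3 * D * ET P B0 r F T ν n :=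
        (norm_add_le _ _).trans (add_le_add htail (hgmv'.trans h3))
    _ = 3 * D * ET P B0 r F T ν n + 4 * D * T ^ 4 * Real.exp (-(T ^ κ / 1600)) := by ring

/-- bounds for the series of twisted integrals -/
theorem series_bound (P : Par) (B0 : ℕ) (hB : P.B = 2 * B0) (r : ℝ) (F : ℕ → ℝ) (A c : ℝ)
    (hc : 0 < c) {ν : ℝ} (hν : ν ≠ 0) : ∃ C T0 : ℝ, 0 < C ∧ 10 ≤ T0 ∧ ∀ T : ℝ, T0 ≤ T →
    ∀ t0 : ℝ, 11 / 10 * T ≤ t0 → t0 ≤ 19 / 10 * T →
    ‖∫ t in (T + 2 * Real.log T)..(2 * T - 2 * Real.log T),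
      ((wt t0 (dd P.κ T) t * ‖EE P B0 r F T t‖ ^ 2 : ℝ) : ℂ) * cexp (I * (ν : ℂ) * (t : ℂ))‖ ≤
      C * dd P.κ T / Real.log T ∧
    ‖∫ t in (T + 2 * Real.log T)..(2 * T - 2 * Real.log T),
      ((wt t0 (dd P.κ T) t * ‖EE P B0 r F T t‖ ^ 2 : ℝ) : ℂ) * cexp (I * (ν : ℂ) * (t : ℂ)) *
        ∑' n : ℕ, (lk A c T n : ℂ) * cexp (-(I * ((t * Real.log n : ℝ) : ℂ)))‖ ≤
      C * dd P.κ T := by
  obtain ⟨C1, T1, hC1, hT1, hcoin⟩ := coin P B0 hB r F A c hc hν
  obtain ⟨T2, hT2, hJ⟩ := Jn_bound P B0 hB r F ν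
  obtain ⟨C2, hC2, hlks⟩ := lk_summable A c hc
  obtain ⟨C3, T3, hC3, hT3, hfam⟩ := fam_facts P B0 hB r F
  obtain ⟨T4, hT4, hev⟩ := MeanAux.ev_all P.κ C2 P.hκ hC2
  refine ⟨3 * C1 + 1, max (max T1 T2) (max T3 T4), by positivity,
    hT1.trans ((le_max_left _ _).trans (le_max_left _ _)), fun T hT t0 ht1 ht2 => ?_⟩
  have hTT1 : T1 ≤ T := ((le_max_left _ _).trans (le_max_left _ _)).trans hT
  have hTT2 : T2 ≤ T := ((le_max_right _ _).trans (le_max_left _ _)).trans hT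
  have hTT3 : T3 ≤ T := ((le_max_left _ _).trans (le_max_right _ _)).trans hT
  have hTT4 : T4 ≤ T := ((le_max_right _ _).trans (le_max_right _ _)).trans hT
  have hT10 : 10 ≤ T := hT1.trans hTT1
  have hT0 : 0 < T := by linarith
  obtain ⟨hc1, hc2⟩ := hcoin T hTT1
  obtain ⟨-, hL1, hsmall⟩ := hev T hTT4
  obtain ⟨hs1, hs2⟩ := hlks T hT10
  obtain ⟨-, -, hsum2, -⟩ := hfam T hTT3
  have hJT := hJ T hTT2 t0 ht1 ht2
  set D := dd P.κ T with hD
  have hD0 : 0 < D := Real.rpow_pos_of_pos hT0 _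
  set L := Real.log T with hL
  have hL0 : 0 < L := by linarith
  set X := T ^ 4 * Real.exp (-(T ^ P.κ / 1600)) with hX
  have hX0 : 0 < X := by positivity
  set E := Real.exp (L ^ 4) with hE
  have hE0 : 0 < E := Real.exp_pos _
  have hsmall' : 7 * (X * (1 + C2 * E) * L) ≤ 1 := by
    calc 7 * (X * (1 + C2 * E) * L) = 7 * T ^ 4 * Real.exp (-(T ^ P.κ / 1600)) *
          (1 + C2 * E) * L := by rw [hX]; ring
      _ ≤ 1 := hsmall
  have hXL : 4 * X * L ≤ 1 := by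
    have h1 : 0 ≤ X * (C2 * E) * L := by positivity
    have h2 : X * (1 + C2 * E) * L = X * L + X * (C2 * E) * L := by ring
    have h3 : 0 ≤ X * L := by positivity
    rw [h2] at hsmall'
    linarith
  have hXC : 4 * X * (C2 * E) ≤ 1 := by
    have h1 : 0 ≤ X * L := by positivity
    have h2 : X * (1 + C2 * E) * L = X * L + X * (C2 * E) * L := by ring
    have h3 : X * (C2 * E) ≤ X * (C2 * E) * L := le_mul_of_one_le_right (by positivity) hL1
    have h4 : 0 ≤ X * (C2 * E) := by positivity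
    rw [h2] at hsmall'
    linarith
  constructor
  · have h1 := hJT 1
    have e1 : (∫ t in (T + 2 * L)..(2 * T - 2 * L),
        ((wt t0 D t * ‖EE P B0 r F T t‖ ^ 2 : ℝ) : ℂ) * cexp (I * (ν : ℂ) * (t : ℂ)) *
        cexp (-(I * ((t * Real.log (1 : ℕ) : ℝ) : ℂ)))) = ∫ t in (T + 2 * L)..(2 * T - 2 * L),
        ((wt t0 D t * ‖EE P B0 r F T t‖ ^ 2 : ℝ) : ℂ) * cexp (I * (ν : ℂ) * (t : ℂ)) := by
      congr 1
      funext t
      simp
    rw [e1] at h1
    refine h1.trans ?_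
    rw [le_div_iff₀ hL0]
    calc (3 * D * ET P B0 r F T ν 1 + 4 * D * T ^ 4 * Real.exp (-(T ^ P.κ / 1600))) * L =
        D * (3 * (L * ET P B0 r F T ν 1) + 4 * X * L) := by rw [hX]; ring
      _ ≤ D * (3 * C1 + 1) := by gcongr
      _ = (3 * C1 + 1) * D := by ring
  · set h : ℝ → ℂ := fun t => ((wt t0 D t * ‖EE P B0 r F T t‖ ^ 2 : ℝ) : ℂ) *
      cexp (I * (ν : ℂ) * (t : ℂ)) with hh
    have hhc : Continuous h := by
      have := MeanAux.wt_cont t0 D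
      have := MeanAux.EE_cont P B0 r F T
      rw [hh]
      fun_prop
    have hSeM : (∑ q ∈ prs P B0 T, |ae P r F T q.1 * ae P r F T q.2|) ^ 2 ≤ T ^ 4 := by
      calc _ ≤ (T ^ 2) ^ 2 := pow_le_pow_left₀ (Finset.sum_nonneg fun _ _ => abs_nonneg _) hsum2 2
        _ = T ^ 4 := by ring
    have hhM : ∀ t, ‖h t‖ ≤ T ^ 4 := by
      intro t
      have h1 := MeanAux.wt_pos t0 D t
      have h2 := MeanAux.wt_le_one t0 D t
      have h3 : ‖EE P B0 r F T t‖ ^ 2 ≤ T ^ 4 :=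
        (pow_le_pow_left₀ (norm_nonneg _) (MeanAux.EE_norm_le P B0 r F T t) 2).trans hSeM
      rw [hh]
      simp only
      rw [norm_mul, norm_I, mul_one, Complex.norm_real, Real.norm_eq_abs,
        abs_of_nonneg (by positivity)]
      calc wt t0 D t * ‖EE P B0 r F T t‖ ^ 2 ≤ 1 * T ^ 4 :=
            mul_le_mul h2 h3 (by positivity) zero_le_one
        _ = T ^ 4 := one_mul _
    refine osc_series h hhc (T ^ 4) hhM (lk A c T) hs1 _ _ ((3 * C1 + 1) * D) fun N => ?_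
    have hle : ∀ n ∈ N, |lk A c T n| * ‖∫ t in (T + 2 * L)..(2 * T - 2 * L), h t *
        cexp (-(I * ((t * Real.log n : ℝ) : ℂ)))‖ ≤
        3 * D * (|lk A c T n| * ET P B0 r F T ν n) + 4 * D * X * |lk A c T n| := by
      intro n _
      have h1 := mul_le_mul_of_nonneg_left (hJT n) (abs_nonneg (lk A c T n))
      refine h1.trans (le_of_eq ?_)
      rw [hX]
      ring
    refine (Finset.sum_le_sum hle).trans ?_
    rw [Finset.sum_add_distrib, ← Finset.mul_sum, ← Finset.mul_sum]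
    have h2 := hc2 N
    have h3 : ∑ n ∈ N, |lk A c T n| ≤ C2 * E :=
      (hs1.sum_le_tsum N (fun n _ => abs_nonneg _)).trans hs2
    calc 3 * D * ∑ n ∈ N, |lk A c T n| * ET P B0 r F T ν n + 4 * D * X * ∑ n ∈ N, |lk A c T n| ≤
        3 * D * C1 + 4 * D * X * (C2 * E) := by gcongr
      _ = D * (3 * C1 + 4 * X * (C2 * E)) := by ring
      _ ≤ D * (3 * C1 + 1) := by gcongr
      _ = (3 * C1 + 1) * D := by ring

end Helper89G
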