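import Pool.Agent.Helper89G.TW3

/-! Twisted mean value of `|E|² Zs`. -/

open Complex Filter Topology Set MeasureTheory

namespace Helper89G

open LG
open SG (hh nn dd dl ord NZ)
open SP (RHs ZZ mu wt Mk Par Eb PS chi qq tt)

/-- the twisted integral against the real part of the series -/
lemma re_series (a : ℝ → ℝ) (ha : Continuous a) (S : ℝ → ℂ) (hS : Continuous S) (ν V1 V2 B : ℝ)
    (h1 : ‖∫ t in V1..V2, ((a t : ℝ) : ℂ) * cexp (I * (ν : ℂ) * (t : ℂ)) * S t‖ ≤ B)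
    (h2 : ‖∫ t in V1..V2, ((a t : ℝ) : ℂ) * cexp (I * ((-ν : ℝ) : ℂ) * (t : ℂ)) * S t‖ ≤ B) :
    ‖∫ t in V1..V2, ((a t : ℝ) : ℂ) * cexp (I * (ν : ℂ) * (t : ℂ)) * (((S t).re : ℝ) : ℂ)‖ ≤ B := by
  have e1 : (∫ t in V1..V2, ((a t : ℝ) : ℂ) * cexp (I * (ν : ℂ) * (t : ℂ)) * (((S t).re : ℝ) : ℂ)) =
      (1 / 2 : ℂ) * ((∫ t in V1..V2, ((a t : ℝ) : ℂ) * cexp (I * (ν : ℂ) * (t : ℂ)) * S t) +
        (starRingEnd ℂ) (∫ t in V1..V2,
          ((a t : ℝ) : ℂ) * cexp (I * ((-ν : ℝ) : ℂ) * (t : ℂ)) * S t)) := by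
    rw [← intervalIntegral.intervalIntegral_conj, ← intervalIntegral.integral_add,
      ← intervalIntegral.integral_const_mul]
    · congr 1
      funext t
      rw [map_mul, map_mul, Complex.conj_ofReal, ← Complex.exp_conj]
      have e2 : (starRingEnd ℂ) (I * ((-ν : ℝ) : ℂ) * (t : ℂ)) = I * (ν : ℂ) * (t : ℂ) := by
        rw [map_mul, map_mul, Complex.conj_I, Complex.conj_ofReal, Complex.conj_ofReal]
        push_cast
        ring
      rw [e2]
      have e3 : (((S t).re : ℝ) : ℂ) = (S t + (starRingEnd ℂ) (S t)) / 2 := by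
        rw [Complex.add_conj]
        push_cast
        ring
      rw [e3]
      ring
    · apply Continuous.intervalIntegrable
      fun_prop
    · apply Continuous.intervalIntegrable
      have : Continuous fun t => (starRingEnd ℂ) (S t) := Complex.continuous_conj.comp hS
      have h3 : Continuous fun t : ℝ =>
          (starRingEnd ℂ) (((a t : ℝ) : ℂ) * cexp (I * ((-ν : ℝ) : ℂ) * (t : ℂ)) * S t) :=
        Complex.continuous_conj.comp (by fun_prop)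
      exact h3
  rw [e1, norm_mul]
  have h3 := norm_add_le (∫ t in V1..V2, ((a t : ℝ) : ℂ) * cexp (I * (ν : ℂ) * (t : ℂ)) * S t)
    ((starRingEnd ℂ) (∫ t in V1..V2, ((a t : ℝ) : ℂ) * cexp (I * ((-ν : ℝ) : ℂ) * (t : ℂ)) * S t))
  rw [Complex.norm_conj] at h3
  have h4 : ‖(1 / 2 : ℂ)‖ = 1 / 2 := by norm_num
  rw [h4]
  linarith

/-- comparison of `Zs` with the prime side, twisted -/
lemma tcmp (a Z : ℝ → ℝ) (ha : Continuous a) (ha0 : ∀ t, 0 ≤ a t) (hZ : Continuous Z)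
    (S : ℝ → ℂ) (hS : Continuous S) (ν V1 V2 c L C1 C2 C3 D : ℝ) (hV : V1 ≤ V2) (hc : 0 ≤ c)
    (hL : 0 < L) (hC1 : 0 ≤ C1)
    (hZ' : ∀ t, V1 ≤ t → t ≤ V2 → |Z t - (c - (2 / L) * (S t).re)| ≤ C1 / L)
    (h0 : ‖∫ t in V1..V2, ((a t : ℝ) : ℂ) * cexp (I * (ν : ℂ) * (t : ℂ))‖ ≤ C2 * D / L)
    (h1 : ‖∫ t in V1..V2, ((a t : ℝ) : ℂ) * cexp (I * (ν : ℂ) * (t : ℂ)) * (((S t).re : ℝ) : ℂ)‖ ≤
      C2 * D)
    (h2 : ∫ t in V1..V2, a t ≤ C3 * D) :
    ‖∫ t in V1..V2, ((a t * Z t : ℝ) : ℂ) * cexp (I * (ν : ℂ) * (t : ℂ))‖ ≤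
      (c * C2 + 2 * C2 + C1 * C3) * D / L := by
  have hSre : Continuous fun t => (S t).re := Complex.continuous_re.comp hS
  have e1 : (∫ t in V1..V2, ((a t * Z t : ℝ) : ℂ) * cexp (I * (ν : ℂ) * (t : ℂ))) =
      (∫ t in V1..V2, ((a t * (Z t - (c - (2 / L) * (S t).re)) : ℝ) : ℂ) *
        cexp (I * (ν : ℂ) * (t : ℂ))) +
      ((c : ℂ) * (∫ t in V1..V2, ((a t : ℝ) : ℂ) * cexp (I * (ν : ℂ) * (t : ℂ))) -
      ((2 / L : ℝ) : ℂ) * ∫ t in V1..V2, ((a t : ℝ) : ℂ) * cexp (I * (ν : ℂ) * (t : ℂ)) *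
        (((S t).re : ℝ) : ℂ)) := by
    rw [← intervalIntegral.integral_const_mul, ← intervalIntegral.integral_const_mul,
      ← intervalIntegral.integral_sub, ← intervalIntegral.integral_add]
    · congr 1
      funext t
      push_cast
      ring
    · apply Continuous.intervalIntegrable
      fun_prop
    · apply Continuous.intervalIntegrable
      fun_prop
    · apply Continuous.intervalIntegrable
      fun_prop
    · apply Continuous.intervalIntegrable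
      fun_prop
  have h3 : ‖∫ t in V1..V2, ((a t * (Z t - (c - (2 / L) * (S t).re)) : ℝ) : ℂ) *
        cexp (I * (ν : ℂ) * (t : ℂ))‖ ≤ (C1 / L) * (C3 * D) := by
    have h4 : ‖∫ t in V1..V2, ((a t * (Z t - (c - (2 / L) * (S t).re)) : ℝ) : ℂ) *
        cexp (I * (ν : ℂ) * (t : ℂ))‖ ≤ ∫ t in V1..V2, (C1 / L) * a t := by
      apply intervalIntegral.norm_integral_le_of_norm_le hV
      · apply Eventually.of_forall
        intro t ht
        rw [norm_mul, norm_I, mul_one, Complex.norm_real, Real.norm_eq_abs, abs_mul,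
          abs_of_nonneg (ha0 t), mul_comm]
        exact mul_le_mul_of_nonneg_right (hZ' t ht.1.le ht.2) (ha0 t)
      · apply Continuous.intervalIntegrable
        fun_prop
    rw [intervalIntegral.integral_const_mul] at h4
    exact h4.trans (mul_le_mul_of_nonneg_left h2 (by positivity))
  rw [e1]
  refine (norm_add_le _ _).trans ?_
  have h5 : ‖(c : ℂ) * (∫ t in V1..V2, ((a t : ℝ) : ℂ) * cexp (I * (ν : ℂ) * (t : ℂ))) -
      ((2 / L : ℝ) : ℂ) * ∫ t in V1..V2, ((a t : ℝ) : ℂ) * cexp (I * (ν : ℂ) * (t : ℂ)) *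
        (((S t).re : ℝ) : ℂ)‖ ≤ c * (C2 * D / L) + 2 / L * (C2 * D) := by
    refine (norm_sub_le _ _).trans ?_
    rw [norm_mul, norm_mul, Complex.norm_real, Complex.norm_real, Real.norm_of_nonneg hc,
      Real.norm_of_nonneg (by positivity : 0 ≤ 2 / L)]
    gcongr
  calc _ ≤ (C1 / L) * (C3 * D) + (c * (C2 * D / L) + 2 / L * (C2 * D)) := add_le_add h3 h5
    _ = (c * C2 + 2 * C2 + C1 * C3) * D / L := by ring

set_option maxHeartbeats 4000000 in
/-- **twisted mean values** -/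
theorem TMEAN (hRH : RHs) (P : Par) (B0 : ℕ) (hB : P.B = 2 * B0) (r : ℝ) (F : ℕ → ℝ) (A c : ℝ)
    (hA : 0 < A) (hc : 0 < c) (hCn : ∃ C : ℝ, ∀ᶠ T : ℝ in atTop, |Cn P B0 r F T 1| ≤ C)
    {ν : ℝ} (hν : ν ≠ 0) : ∃ C T0 : ℝ, 0 < C ∧ 10 ≤ T0 ∧ ∀ T : ℝ, T0 ≤ T →
    ∀ t0 : ℝ, 11 / 10 * T ≤ t0 → t0 ≤ 19 / 10 * T →
    ‖∫ t in (T + 2 * Real.log T)..(2 * T - 2 * Real.log T),
      ((wt t0 (dd P.κ T) t * ‖EE P B0 r F T t‖ ^ 2 : ℝ) : ℂ) * cexp (I * (ν : ℂ) * (t : ℂ))‖ ≤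
      C * dd P.κ T / Real.log T ∧
    ‖∫ t in (T + 2 * Real.log T)..(2 * T - 2 * Real.log T),
      ((wt t0 (dd P.κ T) t * ‖EE P B0 r F T t‖ ^ 2 * Zs A c T t : ℝ) : ℂ) *
        cexp (I * (ν : ℂ) * (t : ℂ))‖ ≤ C * dd P.κ T / Real.log T := by
  obtain ⟨C1, T1, hC1, hT1, hzef⟩ := MeanAux.ZEF' hRH A c hA hc
  obtain ⟨C2, T2, hC2, hT2, hs⟩ := series_bound P B0 hB r F A c hc hν
  obtain ⟨C3, T3, hC3, hT3, hs'⟩ := series_bound P B0 hB r F A c hc (neg_ne_zero.2 hν)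
  obtain ⟨C4, T4, hC4, hT4, hmean⟩ := MEAN hRH P B0 hB r F A c hA hc
  obtain ⟨C5, hC5⟩ := hCn
  obtain ⟨T5, hT5⟩ := hC5.exists_forall_of_atTop
  obtain ⟨C6, hC6, hlks⟩ := lk_summable A c hc
  obtain ⟨T6, hT6⟩ := (Real.tendsto_log_atTop.eventually_ge_atTop 1).exists_forall_of_atTop
  obtain ⟨T7, hT7⟩ := (Real.isLittleO_log_id_atTop.bound
    (by norm_num : (0 : ℝ) < 1 / 4)).exists_forall_of_atTop
  set C7 : ℝ := 3 * |C5| + C4 * (1 + |C5|) with hC7
  set Cs := max C2 C3 with hCs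
  refine ⟨Cs + (c * Cs + 2 * Cs + C1 * C7), max (max (max T1 T2) (max T3 T4)) (max (max T5 T6) T7),
    by positivity, ?_, ?_⟩
  · exact hT1.trans (((le_max_left _ _).trans (le_max_left _ _)).trans (le_max_left _ _))
  intro T hT t0 ht1 ht2
  simp only [max_le_iff] at hT
  obtain ⟨⟨⟨a1, a2⟩, a3, a4⟩, ⟨a5, a6⟩, a7⟩ := hT
  have hT10 : 10 ≤ T := hT1.trans a1
  have hT0 : 0 < T := by linarith
  have hL1 := hT6 T a6
  have hLT := hT7 T a7
  simp only [id, Real.norm_eq_abs] at hLT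
  rw [abs_of_pos hT0, abs_of_nonneg (by linarith)] at hLT
  obtain ⟨p1, p2⟩ := hs T a2 t0 ht1 ht2
  obtain ⟨p3, p4⟩ := hs' T a3 t0 ht1 ht2
  obtain ⟨p5, -⟩ := hmean T a4 t0 ht1 ht2
  have p6 := hT5 T a5
  obtain ⟨hs1, -⟩ := hlks T hT10
  set D := dd P.κ T with hD
  have hD0 : 0 < D := Real.rpow_pos_of_pos hT0 _
  set L := Real.log T with hL
  have hL0 : 0 < L := by linarith
  have hC5a : C5 ≤ |C5| := le_abs_self _
  set a : ℝ → ℝ := fun t => wt t0 D t * ‖EE P B0 r F T t‖ ^ 2 with ha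
  have hac : Continuous a := by
    have := MeanAux.wt_cont t0 D
    have := MeanAux.EE_cont P B0 r F T
    rw [ha]
    fun_prop
  have ha0 : ∀ t, 0 ≤ a t := fun t => by
    have := MeanAux.wt_pos t0 D t
    rw [ha]
    positivity
  set S : ℝ → ℂ := fun t => ∑' n : ℕ, (lk A c T n : ℂ) * cexp (-(I * ((t * Real.log n : ℝ) : ℂ)))
    with hS
  have hSc : Continuous S := by
    rw [hS]
    apply continuous_tsum (u := fun n => |lk A c T n|) _ hs1
    · intro n t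
      rw [norm_mul, MeanAux.norm_osc, mul_one, Complex.norm_real, Real.norm_eq_abs]
    · intro n
      fun_prop
  have hp1 : ‖∫ t in (T + 2 * L)..(2 * T - 2 * L), ((a t : ℝ) : ℂ) *
      cexp (I * (ν : ℂ) * (t : ℂ))‖ ≤ Cs * D / L := by
    refine p1.trans ?_
    have : C2 ≤ Cs := le_max_left _ _
    gcongr
  have hp2 := re_series a hac S hSc ν (T + 2 * L) (2 * T - 2 * L) (Cs * D)
    (p2.trans (by
      have : C2 ≤ Cs := le_max_left _ _
      gcongr))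
    (p4.trans (by
      have : C3 ≤ Cs := le_max_right _ _
      gcongr))
  have hp3 : ∫ t in (T + 2 * L)..(2 * T - 2 * L), a t ≤ C7 * D := by
    have q1 := (abs_le.1 p5).2
    have q2 : Real.sqrt (2 * Real.pi) * D * Cn P B0 r F T 1 ≤ 3 * D * |C5| := by
      have q3 : Cn P B0 r F T 1 ≤ |C5| := (le_abs_self _).trans (p6.trans hC5a)
      have q4 := sqrt_le3
      calc Real.sqrt (2 * Real.pi) * D * Cn P B0 r F T 1 ≤ Real.sqrt (2 * Real.pi) * D * |C5| := by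
            gcongr
        _ ≤ 3 * D * |C5| := by gcongr
    have q5 : C4 * D / L * (1 + |Cn P B0 r F T 1|) ≤ C4 * D * (1 + |C5|) := by
      have q6 : C4 * D / L ≤ C4 * D := div_le_self (by positivity) hL1
      have q7 : 1 + |Cn P B0 r F T 1| ≤ 1 + |C5| := by linarith
      calc C4 * D / L * (1 + |Cn P B0 r F T 1|) ≤ C4 * D * (1 + |C5|) := by gcongr
        _ = _ := rfl
    have q8 : C7 * D = 3 * D * |C5| + C4 * D * (1 + |C5|) := by rw [hC7]; ring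
    rw [q8]
    linarith
  have hC70 : 0 ≤ C7 := by positivity
  have hCs0 : 0 < Cs := lt_of_lt_of_le hC2 (le_max_left _ _)
  have hmain := tcmp a (Zs A c T) hac ha0 (MeanAux.Zs_cont A c T (by linarith)) S hSc ν
    (T + 2 * L) (2 * T - 2 * L) c L C1 Cs C7 D (by linarith) hc.le hL0 hC1.le
    (fun t h1 h2 => hzef T a1 t (by linarith) (by linarith)) hp1 hp2 hp3
  constructor
  · refine hp1.trans ?_
    have : 0 ≤ c * Cs + 2 * Cs + C1 * C7 := by positivity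
    gcongr
    linarith
  · refine hmain.trans ?_
    apply div_le_div_of_nonneg_right _ hL0.le
    apply mul_le_mul_of_nonneg_right _ hD0.le
    linarith

end Helper89G
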