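import Pool.Agent.Helper89G.TW5
import Pool.Agent.H297R2.LG.Final

/-! Many large gaps in every window, among the zeros with an almost periodic weight. -/

open Complex Filter Topology Set MeasureTheory

namespace Helper89G

open LG LG.LocAux SP.ManyAux
open SG (hh nn dd dl ord NZ zmult)
open SP (RHs ZZ mu wt Mk Par Eb PS chi qq tt)
open TH803TW (tp tp_cont APm split_zero)

/-- **many large gaps near every `t0`, with weight** -/
theorem LOCAL_AP (hRH : RHs) (P : Par) (B0 : ℕ) (hB : P.B = 2 * B0) (r : ℝ) (hr : 0 < r)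
    (F q : ℕ → ℝ) (hq : IsQ B0 (tm P r) q) (c : ℝ) (hc : 0 < c) (hSF : 0 < SF B0 F q)
    (hstrict : c * SF B0 F q < SF B0 F q +
      4 * r / Real.pi * ∑ m ∈ Finset.Icc 2 B0, sm0 P c m * SM B0 F q m) :
    ∃ η : ℝ, 0 < η ∧ ∀ v : ℝ, 0 < v → ∃ ε K : ℝ, 0 < ε ∧ 1 ≤ K ∧
    ∀ (φ : ℝ → ℝ) (M : ℝ), APm φ M → Continuous φ → (∀ t, 0 ≤ φ t) → (∀ t, φ t ≤ 1) → v ≤ M →
    ∀ Qp : ℝ → Prop, (∃ δ0 : ℝ, 0 < δ0 ∧ ∀ s t : ℝ, |s - t| ≤ δ0 → φ t ≠ 0 → Qp s) →
    ∃ T0 : ℝ, 10 ≤ T0 ∧ ∀ T : ℝ, T0 ≤ T →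
    ∀ t0 : ℝ, 11 / 10 * T ≤ t0 → t0 ≤ 19 / 10 * T →
    ε * dd P.κ T * Real.log T ≤ ({n : ℕ | 1 ≤ n ∧ |ord n - t0| ≤ K * dd P.κ T ∧
      2 * Real.pi * (c + η) / Real.log T < ord (n + 1) - ord n ∧ Qp (ord n)}.ncard : ℝ) := by
  classical
  have hpi := Real.pi_pos
  have hCOMB1 := COMB1 P B0 hB r hr F q hq
  have hCOMB2 : ∀ A c : ℝ, 0 < A → 0 < c →
      Tendsto (fun T : ℝ => (2 / Real.log T) * ∑' n : ℕ, lk A c T n * Cn P B0 r F T n) atTop
      (𝓝 (4 * r / Real.pi * (SF B0 F q * ∑ m ∈ Finset.Icc 2 B0, sm P A c m * SM B0 F q m))) :=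
    fun A c hA hc => COMB2_of P B0 hB r hr F q hq A c (PSUM P A c hA hc) (PSUM_abs P A c hA hc)
  have hMOM := MOM hRH P B0 hB r hr F
  have hGAPTAIL : ∀ ε : ℝ, 0 < ε → _ := fun ε hε => GAPTAIL hRH P.κ P.hκ P.hκ1 ε hε
  obtain ⟨η, δ, A1, hη, hδ, hA1, hpar⟩ := choose_params P B0 r F q c hstrict
  set S0 := SF B0 F q with hS0
  -- the smoothing parameters
  set e1 := min (1 / 4) (δ / (2 * S0)) with he1
  have he10 : 0 < e1 := by rw [he1]; exact lt_min (by norm_num) (by positivity)
  have he14 : e1 ≤ 1 / 4 := min_le_left _ _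
  have he1S : 2 * e1 * S0 ≤ δ := by
    have : e1 ≤ δ / (2 * S0) := min_le_right _ _
    rw [le_div_iff₀ (by positivity)] at this
    linarith
  have hc1 : 0 < c + 2 * η := by linarith
  obtain ⟨A0, hA0, hge⟩ := gK_ge (c + η) (c + 2 * η) e1 (by linarith) (by linarith) he10
  set A := max A0 A1 with hA
  have hApos : 0 < A := lt_of_lt_of_le hA0 (le_max_left _ _)
  have hst := hpar A (le_max_right _ _)
  have hge' := hge A (le_max_left _ _)
  have hg0 : ∀ x, 0 ≤ gK A (c + 2 * η) x := fun x => (gK_bounds A (c + 2 * η) x hApos hc1).1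
  have hgc : Continuous (gK A (c + 2 * η)) := gK_continuous A (c + 2 * η)
  refine ⟨η, hη, fun v hv => ?_⟩
  set ρ := v * (S0 * δ) / 2 with hρ
  have hρ0 : 0 < ρ := by positivity
  obtain ⟨C4, TF, hC4, hTF, hmom⟩ := hMOM
  set e := ρ / (4 * C4) with he
  have he0 : 0 < e := by positivity
  have heC : e * C4 = ρ / 4 := by rw [he]; field_simp
  obtain ⟨X, TG, hX, hTG, hG⟩ := hGAPTAIL (ρ * e / 2) (by positivity)
  have hX0 : 0 < X := by linarith
  obtain ⟨M, hM0, hMe⟩ := exists_M (ρ * e / 6) (by positivity)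
  obtain ⟨TN, hTN⟩ := NZ_pos_large
  set g := 1 / (1 - 2 * e1) with hgdef
  have hg1 : 0 < 1 - 2 * e1 := by linarith
  have hgpos : 0 < g := by positivity
  refine ⟨ρ * e / (4 * X), M + 1, by positivity, by linarith, ?_⟩
  intro φ Mφ hφ hφc hφ0 hφ1 hvM Qp hQp
  obtain ⟨δ0, hδ0, hQ⟩ := hQp
  obtain ⟨TA, hTA, hlow⟩ := mean_lower_ap hRH P B0 hB r F q A (c + 2 * η) δ e1 hApos hc1
    hCOMB1 (hCOMB2 A (c + 2 * η) hApos hc1) hSF hδ he10 he14 he1S hst hφ hφc hv hvM
  -- largeness of `T`
  set R := Real.pi * (c + η) with hR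
  have hR0 : 0 < R := by positivity
  obtain ⟨T1, hT1⟩ := (Real.tendsto_log_atTop.eventually_ge_atTop
    (max (max 1 (R ^ 2 / (2 * e1))) (max (max (4 * X) (4 * X / δ0)) R))).exists_forall_of_atTop
  obtain ⟨T2, hT2⟩ := (Real.isLittleO_log_id_atTop.bound
    (by norm_num : (0 : ℝ) < 1 / 4)).exists_forall_of_atTop
  refine ⟨max (max TA TF) (max (max TG TN) (max T1 T2)),
    hTA.trans ((le_max_left _ _).trans (le_max_left _ _)), ?_⟩
  intro T hT t0 ht0 ht1
  simp only [max_le_iff] at hT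
  obtain ⟨⟨eA, eF⟩, ⟨eG, eN⟩, e1', e2'⟩ := hT
  have hT10 : 10 ≤ T := hTA.trans eA
  have hTone : 1 ≤ T := by linarith
  have hTpos : 0 < T := by linarith
  have hLB := hT1 T e1'
  simp only [max_le_iff] at hLB
  obtain ⟨⟨hL1, hLR⟩, ⟨hLX, hLδ⟩, hLR2⟩ := hLB
  obtain ⟨G, hGc, hGn, hGone, hGint⟩ := hG T eG
  have hlowT := hlow T eA t0 ht0 ht1
  have hmomT := hmom T eF t0
  set L := Real.log T with hL
  have hL0 : 0 < L := by linarith
  have hLT : 4 * L ≤ T := by
    have := hT2 T e2'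
    simp only [id, Real.norm_eq_abs] at this
    rw [abs_of_pos hTpos] at this
    have h := le_abs_self (Real.log T)
    rw [← hL] at h this
    linarith
  set Δ := dd P.κ T with hΔ
  have hΔ1 : 1 ≤ Δ := dd_ge_one hTone P.hκ1
  have hΔ0 : 0 < Δ := by linarith
  set V1 := T + 2 * L with hV1
  set V2 := 2 * T - 2 * L with hV2
  have hV : V1 ≤ V2 := by rw [hV1, hV2]; linarith
  set w : ℝ → ℝ := wt t0 Δ with hw
  have hw0 : ∀ t, 0 ≤ w t := fun t => wt_nonneg _ _ _
  have hw1 : ∀ t, w t ≤ 1 := fun t => wt_le_one _ _ _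
  have hwc : Continuous w := wt_cont _ _
  set En : ℝ → ℝ := fun t => ‖EE P B0 r F T t‖ with hEn
  have hEc : Continuous En := (LocAux.EE_cont P B0 r F T).norm
  set Z : ℝ → ℝ := fun t => Zs A (c + 2 * η) T t with hZ
  have hZc : Continuous Z := LocAux.Zs_cont A (c + 2 * η) T hTone hgc
  have hZ0 : ∀ t, 0 ≤ Z t := fun t => Zs_nonneg A (c + 2 * η) T t hTone hg0
  set d := X / L with hd
  have hd0 : 0 < d := by positivity
  have hd1 : 4 * d ≤ 1 := by
    rw [hd, mul_div_assoc', div_le_one hL0]; exact hLX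
  have hdδ : 4 * d ≤ δ0 := by
    rw [div_le_iff₀ hδ0] at hLδ
    rw [hd, mul_div_assoc', div_le_iff₀ hL0]
    linarith
  have hdL : d ≤ L := by linarith
  -- the index set
  have hfin : {n : ℕ | 1 ≤ n ∧ |ord n - t0| ≤ (M + 1) * Δ ∧
      2 * Real.pi * (c + η) / L < ord (n + 1) - ord n ∧ Qp (ord n)}.Finite :=
    (idx_finite t0 ((M + 1) * Δ)).subset (fun n hn => ⟨hn.1, hn.2.1⟩)
  set N := hfin.toFinset with hN
  have hcard : {n : ℕ | 1 ≤ n ∧ |ord n - t0| ≤ (M + 1) * Δ ∧
      2 * Real.pi * (c + η) / L < ord (n + 1) - ord n ∧ Qp (ord n)}.ncard = N.card :=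
    Set.ncard_eq_toFinset_card _ hfin
  rw [hcard]
  set N' := N.filter (fun n => ord (n + 1) - ord n ≤ 4 * d) with hN'
  have hN'm : ∀ n ∈ N', 1 ≤ n ∧ ord (n + 1) - ord n ≤ 4 * d := by
    intro n hn
    rw [hN', Finset.mem_filter, hN, Set.Finite.mem_toFinset] at hn
    exact ⟨hn.1.1, hn.2⟩
  set S : ℝ → ℝ := fun t => ∑ n ∈ N',
    (Set.Icc (ord n) (ord (n + 1))).indicator (fun _ => (1 : ℝ)) t with hSdef
  have hSn : ∀ t, 0 ≤ S t := fun t =>
    Finset.sum_nonneg (fun n _ => Set.indicator_nonneg (fun _ _ => zero_le_one) t)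
  have hSi : ∀ n ∈ N', IntervalIntegrable (fun t => (Set.Icc (ord n)
      (ord (n + 1))).indicator (fun _ => (1 : ℝ)) t) volume V1 V2 := fun n hn =>
    (ind_int (ord n) (ord (n + 1)) V1 V2 (SG.ord_mono (hN'm n hn).1 (by omega)) hV).1
  have iS : IntervalIntegrable S volume V1 V2 := by
    have h1 := IntervalIntegrable.sum N' hSi
    have h2 : (∑ n ∈ N', (fun t => (Set.Icc (ord n)
      (ord (n + 1))).indicator (fun _ => (1 : ℝ)) t)) = S := by
      funext t
      rw [Finset.sum_apply]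
    rw [← h2]
    exact h1
  have I4 : ∫ t in V1..V2, S t ≤ N.card * (4 * d) := by
    rw [hSdef, intervalIntegral.integral_finsetSum hSi]
    calc _ ≤ ∑ n ∈ N', (4 * d) := by
          apply Finset.sum_le_sum
          intro n hn
          exact ((ind_int (ord n) (ord (n + 1)) V1 V2 (SG.ord_mono (hN'm n hn).1 (by omega)) hV).2).trans
            (hN'm n hn).2
      _ = N'.card * (4 * d) := by rw [Finset.sum_const, nsmul_eq_mul]
      _ ≤ N.card * (4 * d) := by
          have : (N'.card : ℝ) ≤ N.card := by exact_mod_cast Finset.card_filter_le _ _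
          exact mul_le_mul_of_nonneg_right this (by positivity)
  -- pointwise bound
  have hpt : ∀ t ∈ Set.Icc V1 V2, w t * En t ^ 2 * φ t - g * (w t * En t ^ 2 * Z t * φ t) ≤
      e * (w t * En t ^ 4) + 1 / (4 * e) * S t + 1 / (4 * e) * (w t * G (t + d)) +
      1 / (4 * e) * (w t * G (t + (-d))) +
      1 / (4 * e) * Real.exp (-M ^ 2 / 4) * wt t0 (2 * Δ) t := by
    intro t ht
    have htV1 : T + 2 * L ≤ t := ht.1
    have htV2 : t ≤ 2 * T - 2 * L := ht.2
    have hE0 : 0 ≤ Real.exp (-M ^ 2 / 4) * wt t0 (2 * Δ) t :=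
      mul_nonneg (Real.exp_pos _).le (wt_nonneg _ _ _)
    have hwG1 : 0 ≤ w t * G (t + d) := mul_nonneg (hw0 t) (hGn _)
    have hwG2 : 0 ≤ w t * G (t + (-d)) := mul_nonneg (hw0 t) (hGn _)
    have hSt := hSn t
    by_cases hφt : φ t = 0
    · rw [hφt]
      have h1 := hw0 t
      have h2 : 0 ≤ e * (w t * En t ^ 4) := by positivity
      have h3 : 0 ≤ 1 / (4 * e) * S t := by positivity
      have h4 : 0 ≤ 1 / (4 * e) * (w t * G (t + d)) := by positivity
      have h5 : 0 ≤ 1 / (4 * e) * (w t * G (t + (-d))) := by positivity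
      have h6 : 0 ≤ 1 / (4 * e) * Real.exp (-M ^ 2 / 4) * wt t0 (2 * Δ) t := by
        rw [mul_assoc]
        positivity
      simp only [mul_zero, sub_zero]
      linarith
    set b1 : ℝ := if (∀ s ∈ ZZ T, R / L < |s.im - t|) then 1 else 0 with hb1
    have hb10 : 0 ≤ b1 := by rw [hb1]; split_ifs <;> norm_num
    have hdich : 1 ≤ g * Z t ∨ 1 ≤ b1 := by
      by_cases hno : ∀ s ∈ ZZ T, R / L < |s.im - t|
      · right
        rw [hb1, if_pos hno]
      · left
        push Not at hno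
        obtain ⟨s, hs, hst'⟩ := hno
        have h1 := Zs_ge (A := A) (c := c + 2 * η) hTone hL1 hR0 he10 (by linarith) hLR hg0
          hge' hs hst'
        have h2 : g * (1 - 2 * e1) = 1 := by rw [hgdef]; field_simp
        calc (1 : ℝ) = g * (1 - 2 * e1) := h2.symm
          _ ≤ g * Z t := mul_le_mul_of_nonneg_left h1 hgpos.le
    have h1 := pointwise2 (E := En t) (g := g) (Z := Z t) he0 (norm_nonneg _) hgpos.le (hZ0 t)
      hb10 hdich
    have h2 := mul_le_mul_of_nonneg_left h1 (hw0 t)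
    have h3 : w t * b1 ≤ S t + w t * G (t + d) + w t * G (t + (-d)) +
        Real.exp (-M ^ 2 / 4) * wt t0 (2 * Δ) t := by
      by_cases hno : ∀ s ∈ ZZ T, R / L < |s.im - t|
      · have hb : b1 = 1 := by rw [hb1, if_pos hno]
        rw [hb, mul_one]
        have hRL : 0 < R / L := by positivity
        have hRL1 : R / L ≤ 1 := by rw [div_le_one hL0]; exact hLR2
        have hNt : 1 ≤ NZ t := hTN t (by linarith)
        obtain ⟨g1, g2, g3, g4⟩ := gap_dich (X := d) hTone hNt hRL (by linarith) (by linarith) hno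
        rcases g4 with g4 | g4 | g4
        · by_cases hn0 : |ord (NZ t) - t0| ≤ (M + 1) * Δ
          · have hnN : NZ t ∈ N' := by
              rw [hN', Finset.mem_filter, hN, Set.Finite.mem_toFinset]
              refine ⟨⟨hNt, hn0, ?_, ?_⟩, g4⟩
              · have : 2 * Real.pi * (c + η) / L = 2 * (R / L) := by rw [hR]; ring
                rw [this]
                exact g1
              · refine hQ _ t ?_ hφt
                rw [abs_of_nonpos (by linarith)]
                linarith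
            have h7 : (1 : ℝ) ≤ S t := by
              have h8 : (Set.Icc (ord (NZ t)) (ord (NZ t + 1))).indicator
                  (fun _ => (1 : ℝ)) t = 1 := by
                apply Set.indicator_of_mem
                exact ⟨g2, g3⟩
              rw [← h8]
              exact Finset.single_le_sum (f := fun n =>
                (Set.Icc (ord n) (ord (n + 1))).indicator (fun _ => (1 : ℝ)) t)
                (fun n _ => Set.indicator_nonneg (fun _ _ => zero_le_one) t) hnN
            linarith [hw1 t]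
          · push Not at hn0
            have h7 : M * Δ ≤ |t - t0| := by
              have h8 : |ord (NZ t) - t0| ≤ |ord (NZ t) - t| + |t - t0| := by
                have := abs_add_le (ord (NZ t) - t) (t - t0)
                simpa using this
              have h9 : |ord (NZ t) - t| ≤ Δ := by
                rw [abs_of_nonpos (by linarith)]
                linarith
              have h10 : (M + 1) * Δ = M * Δ + Δ := by ring
              linarith
            have := wt_tail t0 Δ t M hΔ0 hM0 h7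
            linarith [hSn t]
        · have h8 := hGone (t + d) (by linarith) (by linarith) g4
          have h9 : w t ≤ w t * G (t + d) := le_mul_of_one_le_right (hw0 t) h8
          linarith [hSn t]
        · have h8 := hGone (t + (-d)) (by linarith) (by linarith) (by
            intro s hs
            have := g4 s hs
            rwa [sub_eq_add_neg t d] at this)
          have h9 : w t ≤ w t * G (t + (-d)) := le_mul_of_one_le_right (hw0 t) h8
          linarith [hSn t]
      · have hb : b1 = 0 := by rw [hb1, if_neg hno]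
        rw [hb, mul_zero]
        linarith [hSn t]
    have h4 : 1 / (4 * e) * (w t * b1) ≤ 1 / (4 * e) * (S t + w t * G (t + d) +
        w t * G (t + (-d)) + Real.exp (-M ^ 2 / 4) * wt t0 (2 * Δ) t) :=
      mul_le_mul_of_nonneg_left h3 (by positivity)
    have e3 : w t * En t ^ 2 * φ t - g * (w t * En t ^ 2 * Z t * φ t) =
        φ t * (w t * (En t ^ 2 * (1 - g * Z t))) := by
      ring
    rw [e3]
    have e4 : w t * (e * En t ^ 4 + 1 / (4 * e) * b1) =
        e * (w t * En t ^ 4) + 1 / (4 * e) * (w t * b1) := by ring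
    have h5 : 0 ≤ w t * (e * En t ^ 4 + 1 / (4 * e) * b1) := by
      have := hw0 t
      positivity
    have h6 : φ t * (w t * (En t ^ 2 * (1 - g * Z t))) ≤
        w t * (e * En t ^ 4 + 1 / (4 * e) * b1) := by
      calc φ t * (w t * (En t ^ 2 * (1 - g * Z t))) ≤
          φ t * (w t * (e * En t ^ 4 + 1 / (4 * e) * b1)) :=
            mul_le_mul_of_nonneg_left h2 (hφ0 t)
        _ ≤ 1 * (w t * (e * En t ^ 4 + 1 / (4 * e) * b1)) :=
            mul_le_mul_of_nonneg_right (hφ1 t) h5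
        _ = _ := one_mul _
    refine h6.trans ?_
    rw [e4]
    linarith
  -- integrability
  have i0 : IntervalIntegrable (fun t => w t * En t ^ 2 * φ t) volume V1 V2 :=
    ((hwc.mul (hEc.pow 2)).mul hφc).intervalIntegrable _ _
  have i0' : IntervalIntegrable (fun t => w t * En t ^ 2 * Z t * φ t) volume V1 V2 :=
    (((hwc.mul (hEc.pow 2)).mul hZc).mul hφc).intervalIntegrable _ _
  have i2 : IntervalIntegrable (fun t => w t * En t ^ 4) volume V1 V2 :=
    (hwc.mul (hEc.pow 4)).intervalIntegrable _ _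
  have i5 : IntervalIntegrable (fun t => wt t0 (2 * Δ) t) volume V1 V2 :=
    (wt_cont _ _).intervalIntegrable _ _
  have iG : ∀ x : ℝ, IntervalIntegrable (fun t => w t * G (t + x)) volume V1 V2 := fun x =>
    (hwc.mul (hGc.comp (continuous_id.add continuous_const))).intervalIntegrable _ _
  -- the integrals
  have I5 : ∫ t in V1..V2, wt t0 (2 * Δ) t ≤ 6 * Δ := by
    have h1 := wt_int t0 (2 * Δ) V1 V2 (by positivity) hV
    have h2 : Real.sqrt (2 * Real.pi) * (2 * Δ) ≤ 3 * (2 * Δ) :=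
      mul_le_mul_of_nonneg_right sqrt_two_pi_le (by positivity)
    linarith
  have IG : ∀ x : ℝ, |x| ≤ L → ∫ t in V1..V2, w t * G (t + x) ≤ ρ * e / 2 * Δ := by
    intro x hx
    rw [hw, int_shift]
    rw [abs_le] at hx
    exact hGint (t0 + x) (V1 + x) (V2 + x) (by linarith) (by linarith) (by linarith)
  have IG1 := IG d (by rw [abs_of_pos hd0]; exact hdL)
  have IG2 := IG (-d) (by rw [abs_neg, abs_of_pos hd0]; exact hdL)
  have hint := intervalIntegral.integral_mono_on hV (i0.sub (i0'.const_mul g))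
    (((((i2.const_mul e).add (iS.const_mul (1 / (4 * e)))).add
      ((iG d).const_mul (1 / (4 * e)))).add ((iG (-d)).const_mul (1 / (4 * e)))).add
      (i5.const_mul (1 / (4 * e) * Real.exp (-M ^ 2 / 4)))) hpt
  rw [intervalIntegral.integral_sub i0 (i0'.const_mul g),
    intervalIntegral.integral_add
    ((((i2.const_mul e).add (iS.const_mul (1 / (4 * e)))).add
      ((iG d).const_mul (1 / (4 * e)))).add ((iG (-d)).const_mul (1 / (4 * e))))
      (i5.const_mul (1 / (4 * e) * Real.exp (-M ^ 2 / 4))),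
    intervalIntegral.integral_add
    (((i2.const_mul e).add (iS.const_mul (1 / (4 * e)))).add
      ((iG d).const_mul (1 / (4 * e)))) ((iG (-d)).const_mul (1 / (4 * e))),
    intervalIntegral.integral_add
    ((i2.const_mul e).add (iS.const_mul (1 / (4 * e)))) ((iG d).const_mul (1 / (4 * e))),
    intervalIntegral.integral_add (i2.const_mul e) (iS.const_mul (1 / (4 * e))),
    intervalIntegral.integral_const_mul, intervalIntegral.integral_const_mul,
    intervalIntegral.integral_const_mul, intervalIntegral.integral_const_mul,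
    intervalIntegral.integral_const_mul, intervalIntegral.integral_const_mul] at hint
  have hlow2 : ρ * Δ ≤ (∫ t in V1..V2, w t * En t ^ 2 * φ t) -
      g * ∫ t in V1..V2, w t * En t ^ 2 * Z t * φ t :=
    hlowT
  have J2 := mul_le_mul_of_nonneg_left hmomT he0.le
  have J4 := mul_le_mul_of_nonneg_left I4 (by positivity : 0 ≤ 1 / (4 * e))
  have JG1 := mul_le_mul_of_nonneg_left IG1 (by positivity : 0 ≤ 1 / (4 * e))
  have JG2 := mul_le_mul_of_nonneg_left IG2 (by positivity : 0 ≤ 1 / (4 * e))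
  have J5 := mul_le_mul_of_nonneg_left I5
    (by positivity : 0 ≤ 1 / (4 * e) * Real.exp (-M ^ 2 / 4))
  have K5 : 1 / (4 * e) * Real.exp (-M ^ 2 / 4) * (6 * Δ) ≤ ρ / 4 * Δ := by
    calc 1 / (4 * e) * Real.exp (-M ^ 2 / 4) * (6 * Δ) ≤
        1 / (4 * e) * (ρ * e / 6) * (6 * Δ) := by gcongr
      _ = ρ / 4 * Δ := by field_simp
  have KG : 1 / (4 * e) * (ρ * e / 2 * Δ) = ρ / 8 * Δ := by
    field_simp
    ring
  have K2 : e * (C4 * Δ) = ρ / 4 * Δ := by rw [← mul_assoc, heC]
  rw [KG] at JG1 JG2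
  rw [K2] at J2
  have K : ρ / 4 * Δ ≤ 1 / (4 * e) * (N.card * (4 * d)) := by linarith
  have e5 : 1 / (4 * e) * (N.card * (4 * d)) = N.card * X / (e * L) := by
    rw [hd]
    field_simp
  rw [e5, le_div_iff₀ (by positivity)] at K
  have e6 : ρ * e / (4 * X) * Δ * L = (ρ / 4 * Δ * (e * L)) / X := by
    field_simp
  rw [e6, div_le_iff₀ hX0]
  exact K

end Helper89G
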